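import Pool.Agent.H777.LB.Defs

set_option autoImplicit false
set_option linter.unusedVariables false
set_option linter.unusedSectionVars false

/-!
# L14: an uncovered point makes the potential large (by helper297, for helper777)
-/

namespace Pool.Agent.H777.LB

open scoped RealInnerProductSpace Pointwise
open Module MeasureTheory

section cell

variable {V : Type} [NormedAddCommGroup V] [InnerProductSpace ℝ V] [FiniteDimensional ℝ V]
  [MeasurableSpace V] [BorelSpace V]

theorem cell_exp_add {a b : ℝ} (h : 0 ≤ a + b) : 2 ≤ Real.exp a + Real.exp b := by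
  have h1 := Real.add_one_le_exp a
  have h2 := Real.add_one_le_exp b
  linarith

theorem cell_score_le {N : ℕ} (Q : Set V) (S : V → Set V) (W : Fin N → V) (v : V) :
    score Q S W v ≤ N := by
  unfold score
  calc _ ≤ ∑ _j : Fin N, (1 : ℝ) := by
        refine Finset.sum_le_sum fun j _ => ?_
        by_cases h1 : W j ∈ Q
        · by_cases h2 : v ∉ S (W j)
          · rw [if_pos ⟨h1, h2⟩, if_pos h1]
            norm_num
          · rw [if_neg (fun h => h2 h.2), if_pos h1]
            norm_num
        · rw [if_neg (fun h => h1 h.1), if_neg h1]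
          norm_num
    _ = N := by simp

theorem cell_meas {N : ℕ} (Q : Set V) (S : V → Set V) (W : Fin N → V)
    (hS : ∀ w, MeasurableSet (S w)) : Measurable fun v => Real.exp (score Q S W v) := by
  classical
  refine Real.measurable_exp.comp ?_
  unfold score
  refine Finset.measurable_sum _ fun j _ => ?_
  refine (Measurable.const_mul ?_ 2).sub measurable_const
  refine Measurable.ite ?_ measurable_const measurable_const
  exact (MeasurableSet.const _).inter (hS _).compl

theorem cell_pair {N : ℕ} (Q : Set V) (S : V → Set V) (W : Fin N → V)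
    (hconv : ∀ w, Convex ℝ (S w)) (z δ : V) (hz : ∀ j, z ∉ S (W j)) :
    0 ≤ score Q S W (z + δ) + score Q S W (z + -δ) := by
  unfold score
  rw [← Finset.sum_add_distrib]
  refine Finset.sum_nonneg fun j _ => ?_
  by_cases h1 : W j ∈ Q
  · by_cases h2 : z + δ ∈ S (W j)
    · have h3 : z + -δ ∉ S (W j) := by
        intro h3
        apply hz j
        have h4 := hconv (W j) h2 h3 (by norm_num : (0 : ℝ) ≤ 1 / 2)
          (by norm_num : (0 : ℝ) ≤ 1 / 2) (by norm_num)
        have h5 : (1 / 2 : ℝ) • (z + δ) + (1 / 2 : ℝ) • (z + -δ) = z := by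
          rw [smul_add, smul_add, smul_neg]
          have : (1 / 2 : ℝ) • z + (1 / 2 : ℝ) • z = z := by
            rw [← add_smul]
            norm_num
          calc _ = (1 / 2 : ℝ) • z + (1 / 2 : ℝ) • z := by abel
            _ = z := this
        rwa [h5] at h4
      rw [if_neg (fun h => h.2 h2), if_pos h1, if_pos ⟨h1, h3⟩]
      norm_num
    · rw [if_pos ⟨h1, h2⟩, if_pos h1]
      by_cases h3 : z + -δ ∈ S (W j)
      · rw [if_neg (fun h => h.2 h3)]
        norm_num
      · rw [if_pos ⟨h1, h3⟩]
        norm_num
  · rw [if_neg (fun h => h1 h.1), if_neg h1, if_neg (fun h => h1 h.1)]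
    norm_num

end cell

/-- L14 -/
theorem pf_cell : S_cell := by
  intro V _ _ _ _ _ μ _ D Q R S N W z hD hDs hQ hS hconv hR hRf hzD hz
  set f : V → ℝ := fun v => Real.exp (score Q S W v) with hf
  have hfm : Measurable f := cell_meas Q S W hS
  have hf0 : ∀ v, 0 ≤ f v := fun v => (Real.exp_pos _).le
  have hfb : ∀ v, ‖f v‖ ≤ Real.exp N := by
    intro v
    rw [Real.norm_of_nonneg (hf0 v)]
    exact Real.exp_le_exp.2 (cell_score_le Q S W v)
  have hfR : IntegrableOn f R μ :=
    Measure.integrableOn_of_bounded hRf hfm.aestronglyMeasurable (Filter.Eventually.of_forall hfb)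
  have hDm : MeasurableSet D := hD.measurableSet
  have hDf : μ D ≠ ⊤ := hD.measure_lt_top.ne
  -- the translated set
  set T : Set V := {v | v - z ∈ D} with hT
  have hTm : MeasurableSet T := (measurable_id.sub_const z) hDm
  have hTR : T ⊆ R := by
    intro v hv
    have h1 := hzD (v - z) hv
    rwa [add_sub_cancel] at h1
  have h1 : ∫ v in T, f v ∂μ ≤ ∫ v in R, f v ∂μ :=
    setIntegral_mono_set hfR (Filter.Eventually.of_forall hf0) (Filter.Eventually.of_forall hTR)
  have h2 : ∫ δ in D, f (z + δ) ∂μ = ∫ v in T, f v ∂μ := by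
    have h3 := (measurePreserving_add_left μ z).setIntegral_preimage_emb
      (measurableEmbedding_addLeft z) f T
    have h4 : (fun x => z + x) ⁻¹' T = D := by
      ext x
      simp [hT]
    rw [h4] at h3
    exact h3
  have h3 : ∫ δ in D, f (z + -δ) ∂μ = ∫ δ in D, f (z + δ) ∂μ := by
    have h3 := (Measure.measurePreserving_neg μ).setIntegral_preimage_emb
      (MeasurableEquiv.neg V).measurableEmbedding (fun δ => f (z + δ)) D
    have h4 : (Neg.neg : V → V) ⁻¹' D = D := by
      ext x
      constructor
      · intro hx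
        have := hDs _ hx
        rwa [neg_neg] at this
      · intro hx
        exact hDs x hx
    rw [h4] at h3
    exact h3
  have hm1 : Measurable fun δ => f (z + δ) := hfm.comp (measurable_const_add z)
  have hm2 : Measurable fun δ => f (z + -δ) := hm1.comp measurable_neg
  have hi1 : IntegrableOn (fun δ => f (z + δ)) D μ :=
    Measure.integrableOn_of_bounded hDf hm1.aestronglyMeasurable
      (Filter.Eventually.of_forall fun v => hfb _)
  have hi2 : IntegrableOn (fun δ => f (z + -δ)) D μ :=
    Measure.integrableOn_of_bounded hDf hm2.aestronglyMeasurable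
      (Filter.Eventually.of_forall fun v => hfb _)
  have h5 : ∫ δ in D, (2 : ℝ) ∂μ ≤ ∫ δ in D, (f (z + δ) + f (z + -δ)) ∂μ := by
    refine setIntegral_mono_on (integrableOn_const hDf) (hi1.add hi2) hDm fun δ _ => ?_
    exact cell_exp_add (cell_pair Q S W hconv z δ hz)
  rw [integral_add hi1 hi2, h3, h2, setIntegral_const, smul_eq_mul] at h5
  linarith

end Pool.Agent.H777.LB
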