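import Pool.Agent.H777.LB.Defs

set_option autoImplicit false
set_option linter.unusedSectionVars false

/-!
L10: the number of cells of one depth class (`S_count`).
-/

namespace Pool.Agent.H777.LB

open scoped RealInnerProductSpace Pointwise
open Module MeasureTheory
open Pool.Agent.H845R2 (SB pol pol_anti pol_closed pol_convex)
open Pool.Agent.K3h52.HR

section

variable {V : Type} [NormedAddCommGroup V] [InnerProductSpace ℝ V] [FiniteDimensional ℝ V]
  [MeasurableSpace V] [BorelSpace V] (μ : Measure V) [μ.IsAddHaarMeasure]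

/-- The caps of points of `K` are in a small multiple of the polar of `D`. -/
theorem cnt_cap {K L D : Set V} (hKL : ∀ k ∈ K, ∀ δ ∈ D, k + δ ∈ L) {ζ : ℝ} (hζ : 0 < ζ) {p : V}
    (hp : p ∈ K) : dcap L ζ p ⊆ (2 * ζ) • pol D := by
  intro u hu
  rw [Set.mem_smul_set_iff_inv_smul_mem₀ (by positivity)]
  intro δ hδ
  rw [inner_smul_right, inv_mul_le_iff₀ (by positivity), mul_one]
  have h1 : ⟪p + δ, u⟫ ≤ 1 := hu.1 _ (hKL p hp δ hδ)
  have h2 := hu.2
  rw [inner_add_left] at h1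
  linarith

theorem cnt_main {K L D : Set V} (hL : Bd L) (hD : SB D) (hKL : ∀ k ∈ K, ∀ δ ∈ D, k + δ ∈ L)
    {ζ : ℝ} (hζ : 0 < ζ) (F : Finset V)
    (hF : ∀ p ∈ F, p ∈ interior L) (hFK : ∀ p ∈ F, p ∈ K) (Λ : ℝ) (hΛ : 0 < Λ)
    (hs : ∀ p ∈ F, μ.real (Mac L p) ≤ Λ * μ.real D)
    (hdisj : ∀ p ∈ F, ∀ q ∈ F, p ≠ q → Disjoint (Mth L p) (Mth L q))
    (β : ℝ) (hβ : 0 < β) (hβF : ∀ p ∈ F, β ≤ μ.real (dcap L ζ p) * μ.real (Mac L p))
    (VU : ℝ) (hU : ∀ S : Set V, SB S → μ.real S * μ.real (pol S) ≤ VU) :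
    (F.card : ℝ) * β ^ 2 ≤ 4 * (64 * ζ ^ 2) ^ finrank ℝ V * VU ^ 2 * Λ := by
  classical
  set d := finrank ℝ V with hd
  have hVU : 0 ≤ VU := by
    have h1 : 0 ≤ μ.real D * μ.real (pol D) := by positivity
    exact h1.trans (hU D hD)
  set s : V → ℝ := fun p => μ.real (Mac L p) with hs'
  set c : V → ℝ := fun p => μ.real (dcap L ζ p) with hc
  have hs0 : ∀ p ∈ F, 0 < s p := fun p hp =>
    Pool.Agent.K3h52.TP.real_pos' μ (mac_comp hL.comp p) (mac_sb hL.conv hL.comp (hF p hp)).int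
  have hc0 : ∀ p, 0 ≤ c p := fun p => measureReal_nonneg
  -- Step A
  have hA : ∀ J ⊆ F, ∀ Z : Set V, μ Z ≠ ⊤ → (∀ p ∈ J, Mth L p ⊆ Z) →
      (1 / 3) ^ d * ∑ p ∈ J, s p ≤ μ.real Z := by
    intro J hJ Z hZ hJZ
    rw [Finset.mul_sum]
    calc ∑ p ∈ J, (1 / 3) ^ d * s p = ∑ p ∈ J, μ.real (Mth L p) :=
          Finset.sum_congr rfl fun p _ => (mth_vol μ L p).symm
      _ = μ.real (⋃ p ∈ J, Mth L p) := by
          refine (measureReal_biUnion_finset ?_ ?_ ?_).symm
          · intro p hp q hq hpq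
            exact hdisj p (hJ hp) q (hJ hq) hpq
          · intro p _
            exact (mth_closed hL.comp p).measurableSet
          · intro p hp
            exact ne_top_of_le_ne_top hZ (measure_mono (hJZ p hp))
      _ ≤ μ.real Z := measureReal_mono (Set.iUnion₂_subset hJZ) hZ
  choose! U hUm hUC hUv hUc using fun p : V =>
    central μ (dcap_conv L ζ p) (dcap_comp hL.i0 ζ p)
  rw [← hd] at hUv hUc
  set κ := 2 ^ (d + 1) * (8 * ζ) ^ d * VU / β with hκ
  have hκ0 : 0 ≤ κ := by positivity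
  -- Step B
  have hB : ∀ u ∈ pol L, ∀ J ⊆ F, (∀ p ∈ J, u ∈ U p) → (J.card : ℝ) ≤ κ := by
    intro u huK J hJ hJu
    rcases J.eq_empty_or_nonempty with hJe | ⟨p₀, hp₀⟩
    · rw [hJe]
      simpa using hκ0
    set S := Mac (pol L) u with hS
    set σ := μ.real S with hσ
    have hSc : IsCompact S := mac_comp (pol_comp hL.i0) u
    have hcσ : ∀ p ∈ J, c p ≤ 2 ^ (d + 1) * σ := by
      intro p hp
      refine (hUc p u (hJu p hp)).trans (mul_le_mul_of_nonneg_left ?_ (by positivity))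
      have e1 : μ.real (dcap L ζ p ∩ {x | (2 : ℝ) • u - x ∈ dcap L ζ p}) =
          μ.real ((fun a => u + a) ⁻¹' (dcap L ζ p ∩ {x | (2 : ℝ) • u - x ∈ dcap L ζ p})) := by
        rw [measureReal_def, measureReal_def, measure_preimage_add]
      rw [e1]
      refine measureReal_mono ?_ hSc.measure_lt_top.ne
      rintro a ⟨h1, h2⟩
      refine ⟨h1.1, ?_⟩
      have h3 : (2 : ℝ) • u - (u + a) ∈ pol L := h2.1
      have e2 : (2 : ℝ) • u - (u + a) = u - a := by rw [two_smul]; abel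
      rwa [e2] at h3
    have hσ0 : 0 < σ := by
      have h1 := hcσ p₀ hp₀
      have h2 := hβF p₀ (hJ hp₀)
      have h3 : 0 < c p₀ := by
        by_contra hcon
        push Not at hcon
        have : c p₀ * s p₀ ≤ 0 := mul_nonpos_of_nonpos_of_nonneg hcon (hs0 p₀ (hJ hp₀)).le
        linarith
      by_contra hcon
      push Not at hcon
      have : 2 ^ (d + 1) * σ ≤ 0 := mul_nonpos_of_nonneg_of_nonpos (by positivity) hcon
      linarith
    have hSconv : Convex ℝ S := mac_conv (pol_convex L) u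
    have hSB : SB S := ⟨hSc, hSconv, mac_symm, int_of_pos μ hSconv hSc hσ0⟩
    have hSU := hU S hSB
    have hPc : IsCompact (pol S) := pol_comp hSB.zero_int
    have h4 := hA J hJ ((8 * ζ / 3) • pol S) (hPc.smul _).measure_lt_top.ne (fun p hp =>
      mth_cap hL.conv hζ (interior_subset (hF p (hJ hp))) (hUC p (hJu p hp)))
    rw [vol_smul μ (by positivity), ← hd] at h4
    have h5 : σ * ∑ p ∈ J, s p ≤ (8 * ζ) ^ d * VU := by
      have e3 : (8 * ζ) ^ d = 3 ^ d * (8 * ζ / 3) ^ d := by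
        rw [← mul_pow]
        congr 1
        ring
      have e4 : (3 : ℝ) ^ d * (1 / 3) ^ d = 1 := by rw [← mul_pow]; norm_num
      calc σ * ∑ p ∈ J, s p = σ * 3 ^ d * ((1 / 3) ^ d * ∑ p ∈ J, s p) := by
            rw [mul_assoc σ, ← mul_assoc ((3 : ℝ) ^ d), e4, one_mul]
        _ ≤ σ * 3 ^ d * ((8 * ζ / 3) ^ d * μ.real (pol S)) :=
            mul_le_mul_of_nonneg_left h4 (by positivity)
        _ = (8 * ζ) ^ d * (σ * μ.real (pol S)) := by rw [e3]; ring
        _ ≤ (8 * ζ) ^ d * VU := mul_le_mul_of_nonneg_left hSU (by positivity)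
    rw [hκ, le_div_iff₀ hβ]
    calc (J.card : ℝ) * β = ∑ p ∈ J, β := by rw [Finset.sum_const, nsmul_eq_mul]
      _ ≤ ∑ p ∈ J, 2 ^ (d + 1) * (σ * s p) := by
          refine Finset.sum_le_sum fun p hp => ?_
          calc β ≤ c p * s p := hβF p (hJ hp)
            _ ≤ 2 ^ (d + 1) * σ * s p :=
              mul_le_mul_of_nonneg_right (hcσ p hp) (hs0 p (hJ hp)).le
            _ = _ := by ring
      _ = 2 ^ (d + 1) * (σ * ∑ p ∈ J, s p) := by rw [← Finset.mul_sum, ← Finset.mul_sum]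
      _ ≤ 2 ^ (d + 1) * ((8 * ζ) ^ d * VU) := mul_le_mul_of_nonneg_left h5 (by positivity)
      _ = _ := by ring
  -- Step C
  have hDi : (0 : V) ∈ interior D := hD.zero_int
  have hPD : IsCompact (pol D) := pol_comp hDi
  have hPD2 : IsCompact ((2 * ζ) • pol D) := hPD.smul _
  have hPL : IsCompact (pol L) := pol_comp hL.i0
  set P : Set V := pol L ∩ (2 * ζ) • pol D with hP
  have hPc : IsCompact P := hPL.inter_right hPD2.isClosed
  have hC1 := mult μ F U P hPc.isClosed.measurableSet hPc.measure_lt_top.ne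
    (fun p _ => hUm p) (fun p hp => (hUC p).trans fun u hu =>
      ⟨hu.1, cnt_cap hKL hζ (hFK p hp) hu⟩) κ (fun u hu => hB u hu.1)
  have hPle : μ.real P ≤ (2 * ζ) ^ d * μ.real (pol D) := by
    have h1 := vol_smul μ (show 0 ≤ 2 * ζ by positivity) (pol D)
    rw [← hd] at h1
    rw [← h1]
    exact measureReal_mono Set.inter_subset_right hPD2.measure_lt_top.ne
  have hC : ∑ p ∈ F, c p ≤ 2 ^ (d + 1) * (κ * ((2 * ζ) ^ d * μ.real (pol D))) := by
    calc ∑ p ∈ F, c p ≤ ∑ p ∈ F, 2 ^ (d + 1) * μ.real (U p) :=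
          Finset.sum_le_sum fun p _ => hUv p
      _ = 2 ^ (d + 1) * ∑ p ∈ F, μ.real (U p) := by rw [Finset.mul_sum]
      _ ≤ 2 ^ (d + 1) * (κ * μ.real P) := mul_le_mul_of_nonneg_left hC1 (by positivity)
      _ ≤ _ := mul_le_mul_of_nonneg_left (mul_le_mul_of_nonneg_left hPle hκ0) (by positivity)
  -- Step D
  have hDD : (F.card : ℝ) * β ≤ (Λ * μ.real D) * ∑ p ∈ F, c p := by
    calc (F.card : ℝ) * β = ∑ p ∈ F, β := by rw [Finset.sum_const, nsmul_eq_mul]
      _ ≤ ∑ p ∈ F, (Λ * μ.real D) * c p := by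
          refine Finset.sum_le_sum fun p hp => ?_
          calc β ≤ c p * s p := hβF p hp
            _ ≤ c p * (Λ * μ.real D) := mul_le_mul_of_nonneg_left (hs p hp) (hc0 p)
            _ = _ := by ring
      _ = _ := by rw [← Finset.mul_sum]
  have hD0 : 0 ≤ Λ * μ.real D := by positivity
  calc (F.card : ℝ) * β ^ 2 = ((F.card : ℝ) * β) * β := by ring
    _ ≤ ((Λ * μ.real D) * ∑ p ∈ F, c p) * β := mul_le_mul_of_nonneg_right hDD hβ.le
    _ ≤ ((Λ * μ.real D) * (2 ^ (d + 1) * (κ * ((2 * ζ) ^ d * μ.real (pol D))))) * β := by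
        refine mul_le_mul_of_nonneg_right ?_ hβ.le
        exact mul_le_mul_of_nonneg_left hC hD0
    _ = (Λ * (2 ^ (d + 1) * (2 ^ (d + 1) * (8 * ζ) ^ d * VU)) * (2 * ζ) ^ d) *
          (μ.real D * μ.real (pol D)) := by
        rw [hκ]
        field_simp
    _ ≤ (Λ * (2 ^ (d + 1) * (2 ^ (d + 1) * (8 * ζ) ^ d * VU)) * (2 * ζ) ^ d) * VU :=
        mul_le_mul_of_nonneg_left (hU D hD) (by positivity)
    _ = 4 * (64 * ζ ^ 2) ^ d * VU ^ 2 * Λ := by
        have e : (64 * ζ ^ 2) ^ d = 2 ^ d * 2 ^ d * (8 * ζ) ^ d * (2 * ζ) ^ d := by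
          rw [← mul_pow, ← mul_pow, ← mul_pow]
          congr 1
          ring
        rw [e, pow_succ]
        ring

end

/-- **L10.** -/
theorem pf_count : S_count := by
  intro V _ _ _ _ _ μ _ K L D hL hD hKL ζ hζ hζ1 VL VU Λ hVL hΛ hLow hU F hF hdisj
  set d := finrank ℝ V with hd
  set β := VL / ((2 / ζ + 1) * (16 / ζ) ^ d) with hβ
  have hβ0 : 0 < β := by positivity
  have hVU : 0 ≤ VU := by
    have h1 : 0 ≤ μ.real D * μ.real (pol D) := by positivity
    exact h1.trans (hU D hD)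
  have hFi : ∀ p ∈ F, p ∈ interior L := by
    intro p hp
    obtain ⟨-, -, η, h1, h2, h3, x', hx', -, rfl⟩ := hF p hp
    have hη : 0 < η := by linarith
    have := hL.conv.combo_self_interior_mem_interior hx' hL.i0 (by linarith : 0 ≤ 1 - η) hη
      (by ring)
    rwa [smul_zero, add_zero] at this
  have hβF : ∀ p ∈ F, β ≤ μ.real (dcap L ζ p) * μ.real (Mac L p) := by
    intro p hp
    obtain ⟨-, -, η, h1, h2, h3, x', hx', hxi, rfl⟩ := hF p hp
    have hη : 0 < η := by linarith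
    obtain ⟨u₀, hu₀, h4⟩ := support hL hxi
    rcases h4 with h4 | h4
    · have h5 := beta μ hL hx' hu₀ h4 hη h3 VL hLow
      rw [← hd] at h5
      have hsub : dcap L η ((1 - η) • x') ⊆ dcap L ζ ((1 - η) • x') := by
        intro u hu
        exact ⟨hu.1, by have := hu.2; linarith⟩
      have h6 : μ.real (dcap L η ((1 - η) • x')) ≤ μ.real (dcap L ζ ((1 - η) • x')) :=
        measureReal_mono hsub (dcap_comp hL.i0 ζ _).measure_lt_top.ne
      have h7 : 1 / η ≤ 2 / ζ := by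
        rw [div_le_div_iff₀ hη hζ]
        linarith
      have h8 : 8 / η ≤ 16 / ζ := by
        rw [div_le_div_iff₀ hη hζ]
        linarith
      have h9 : (1 / η + 1) * (8 / η) ^ d ≤ (2 / ζ + 1) * (16 / ζ) ^ d := by
        apply mul_le_mul (by linarith) (pow_le_pow_left₀ (by positivity) h8 d) (by positivity)
          (by positivity)
      have h10 : μ.real (dcap L η ((1 - η) • x')) * μ.real (Mac L ((1 - η) • x')) ≤
          μ.real (dcap L ζ ((1 - η) • x')) * μ.real (Mac L ((1 - η) • x')) :=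
        mul_le_mul_of_nonneg_right h6 measureReal_nonneg
      rw [hβ, div_le_iff₀ (by positivity)]
      calc VL ≤ (1 / η + 1) * (8 / η) ^ d *
            (μ.real (dcap L η ((1 - η) • x')) * μ.real (Mac L ((1 - η) • x'))) := h5
        _ ≤ (2 / ζ + 1) * (16 / ζ) ^ d *
            (μ.real (dcap L ζ ((1 - η) • x')) * μ.real (Mac L ((1 - η) • x'))) :=
          mul_le_mul h9 h10 (by positivity) (by positivity)
        _ = _ := by ring
    · exact absurd hx' h4
  have h := cnt_main μ hL hD hKL hζ F hFi (fun p hp => (hF p hp).1) Λ hΛ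
    (fun p hp => (hF p hp).2.1) hdisj β hβ0 hβF VU hU
  rw [← hd] at h
  have h3 : (F.card : ℝ) ≤ 4 * (64 * ζ ^ 2) ^ d * VU ^ 2 * Λ / β ^ 2 := by
    rw [le_div_iff₀ (by positivity)]
    exact h
  refine h3.trans (le_of_eq ?_)
  have e3 : (16384 : ℝ) ^ d = (64 * ζ ^ 2) ^ d * ((16 / ζ) ^ d) ^ 2 := by
    rw [← pow_mul, mul_comm d 2, pow_mul, ← mul_pow]
    congr 1
    field_simp
    norm_num
  rw [hβ, e3]
  field_simp

end Pool.Agent.H777.LB
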