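import Pool.Agent.H777.LB.Defs

set_option autoImplicit false
set_option linter.unusedVariables false
set_option linter.unusedSectionVars false

/-!
L1: elementary properties of the covariogram.
-/

namespace Pool.Agent.H777.LB

open scoped RealInnerProductSpace Pointwise
open Module MeasureTheory
open Pool.Agent.H845R2 (SB pol)
open Pool.Agent.K3h52.HR (Bd Mac Mth dcap)

section cov1

variable {V : Type} [NormedAddCommGroup V] [InnerProductSpace ℝ V] [FiniteDimensional ℝ V]
  [MeasurableSpace V] [BorelSpace V] (μ : Measure V) [μ.IsAddHaarMeasure] {K : Set V}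

theorem cov1_zero (h1 : μ.real K = 1) : cov μ K 0 = 1 := by
  unfold cov
  simpa using h1

theorem cov1_trans (A : Set V) (m : V) : μ.real {x | x + m ∈ A} = μ.real A := by
  have h : {x | x + m ∈ A} = (fun x => x + m) ⁻¹' A := rfl
  rw [h, measureReal_def, measure_preimage_add_right]
  rfl

theorem cov1_neg (m : V) : cov μ K (-m) = cov μ K m := by
  unfold cov
  rw [← cov1_trans μ {x | x ∈ K ∧ x - m ∈ K} m]
  congr 1
  ext x
  simp only [Set.mem_ofPred_eq, sub_neg_eq_add, add_sub_cancel_right]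
  exact and_comm

theorem cov1_nonneg (m : V) : 0 ≤ cov μ K m := measureReal_nonneg

theorem cov1_fin (hK : IsCompact K) : μ K ≠ ⊤ := hK.measure_lt_top.ne

theorem cov1_le (hK : IsCompact K) (h1 : μ.real K = 1) (m : V) : cov μ K m ≤ 1 := by
  rw [← h1]
  exact measureReal_mono (fun x hx => hx.1) (cov1_fin μ hK)

theorem cov1_compl (hK : IsCompact K) (h1 : μ.real K = 1) (m : V) :
    1 - cov μ K m = μ.real {x | x ∈ K ∧ x - m ∉ K} := by
  have hms : MeasurableSet {x : V | x - m ∈ K} :=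
    (hK.isClosed.preimage (f := fun x : V => x - m) (by fun_prop)).measurableSet
  have h := measureReal_inter_add_sdiff (μ := μ) (s := K) hms (cov1_fin μ hK)
  have e1 : K ∩ {x : V | x - m ∈ K} = {x | x ∈ K ∧ x - m ∈ K} := rfl
  have e2 : K \ {x : V | x - m ∈ K} = {x | x ∈ K ∧ x - m ∉ K} := rfl
  rw [e1, e2, h1] at h
  unfold cov
  linarith

theorem cov1_sub (hK : IsCompact K) (h1 : μ.real K = 1) (m m' : V) :
    1 - cov μ K (m + m') ≤ (1 - cov μ K m) + (1 - cov μ K m') := by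
  rw [cov1_compl μ hK h1, cov1_compl μ hK h1, cov1_compl μ hK h1,
    ← cov1_trans μ {x | x ∈ K ∧ x - m' ∉ K} (-m)]
  have hf : μ {x : V | x ∈ K ∧ x - m ∉ K} ≠ ⊤ :=
    ne_top_of_le_ne_top (cov1_fin μ hK) (measure_mono fun x hx => hx.1)
  have hf' : μ {x : V | x + -m ∈ {x | x ∈ K ∧ x - m' ∉ K}} ≠ ⊤ := by
    have h : {x : V | x + -m ∈ {x | x ∈ K ∧ x - m' ∉ K}} =
      (fun x => x + -m) ⁻¹' {x | x ∈ K ∧ x - m' ∉ K} := rfl
    rw [h, measure_preimage_add_right]
    exact ne_top_of_le_ne_top (cov1_fin μ hK) (measure_mono fun x hx => hx.1)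
  refine (measureReal_mono ?_ (measure_union_ne_top hf hf')).trans (measureReal_union_le _ _)
  intro x hx
  by_cases h : x - m ∈ K
  · right
    refine ⟨?_, ?_⟩
    · rwa [← sub_eq_add_neg]
    · have e : x + -m - m' = x - (m + m') := by abel
      rw [e]
      exact hx.2
  · left
    exact ⟨hx.1, h⟩

theorem cov1_pow (hK : Bd K) (h1 : μ.real K = 1) (t : ℝ) (h0 : 0 ≤ t) (ht : t ≤ 1) (a : V)
    (ha : a ∈ K) (b : V) (hb : b ∈ K) :
    (1 - t) ^ finrank ℝ V ≤ cov μ K (t • (a - b)) := by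
  have h2 : μ.real ((1 - t) • K) = (1 - t) ^ finrank ℝ V := by
    rw [Pool.Agent.K3h52.HR.vol_smul μ (by linarith), h1, mul_one]
  rw [← h2, ← cov1_trans μ ((1 - t) • K) (-(t • a))]
  unfold cov
  refine measureReal_mono ?_ (ne_top_of_le_ne_top (cov1_fin μ hK.comp)
    (measure_mono fun x hx => hx.1))
  rintro x ⟨k, hk, hx⟩
  simp only at hx
  have e1 : x = t • a + (1 - t) • k := by
    rw [hx]
    abel
  have e2 : x - t • (a - b) = t • b + (1 - t) • k := by
    rw [e1, smul_sub]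
    abel
  refine ⟨?_, ?_⟩
  · rw [e1]
    exact hK.conv ha hk h0 (by linarith) (by ring)
  · rw [e2]
    exact hK.conv hb hk h0 (by linarith) (by ring)

theorem cov1_mem (m : V) (h : 0 < cov μ K m) : m ∈ K - K := by
  have hne : {x | x ∈ K ∧ x - m ∈ K}.Nonempty := by
    rw [Set.nonempty_iff_ne_empty]
    intro h0
    unfold cov at h
    rw [h0, measureReal_empty] at h
    exact lt_irrefl _ h
  obtain ⟨x, hx, hx'⟩ := hne
  exact ⟨x, hx, x - m, hx', sub_sub_cancel x m⟩

end cov1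

theorem pf_cov1 : S_cov1 := by
  intro V _ _ _ _ _ μ _ K hK h1
  exact ⟨cov1_zero μ h1, cov1_neg μ, fun m => ⟨cov1_nonneg μ m, cov1_le μ hK.comp h1 m⟩,
    cov1_sub μ hK.comp h1, fun t h0 ht a ha b hb => cov1_pow μ hK h1 t h0 ht a ha b hb,
    cov1_mem μ⟩

end Pool.Agent.H777.LB
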