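import Pool.Agent.H777.LB.Defs

set_option autoImplicit false
set_option linter.unusedSectionVars false

/-!
# The covariogram: log-concavity
-/

namespace Pool.Agent.H777.LB

open scoped RealInnerProductSpace Pointwise ENNReal
open Module MeasureTheory
open Pool.Agent.H845R2 (SB pol)
open Pool.Agent.K3h52.HR (Bd Mac Mth dcap)

section cov2

variable {V : Type} [NormedAddCommGroup V] [InnerProductSpace ℝ V] [FiniteDimensional ℝ V]
  [MeasurableSpace V] [BorelSpace V]

lemma cov2_closed {K : Set V} (hK : Bd K) (m : V) : IsClosed {x | x ∈ K ∧ x - m ∈ K} :=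
  hK.comp.isClosed.inter (hK.comp.isClosed.preimage (by fun_prop : Continuous fun x : V => x - m))

lemma cov2_fin (μ : Measure V) [μ.IsAddHaarMeasure] {K : Set V} (hK : Bd K) (m : V) :
    μ {x | x ∈ K ∧ x - m ∈ K} ≠ ⊤ :=
  ne_top_of_le_ne_top hK.comp.measure_lt_top.ne (measure_mono fun _ hx => hx.1)

lemma cov2_log (μ : Measure V) [μ.IsAddHaarMeasure] {K : Set V} (hK : Bd K) (m m' : V)
    {a b : ℝ} (ha : 0 < a) (hb : 0 < b) (hab : a + b = 1) :
    cov μ K m ^ a * cov μ K m' ^ b ≤ cov μ K (a • m + b • m') := by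
  have hb1 : b < 1 := by linarith
  have h1b : 1 - b = a := by linarith
  have key := Pool.Agent.H212R2.KLS.PL μ b hb hb1 (Set.indicator {x | x ∈ K ∧ x - m ∈ K} 1)
    (Set.indicator {x | x ∈ K ∧ x - m' ∈ K} 1)
    (Set.indicator {x | x ∈ K ∧ x - (a • m + b • m') ∈ K} 1)
    (measurable_one.indicator (cov2_closed hK m).measurableSet)
    (measurable_one.indicator (cov2_closed hK m').measurableSet)
    (measurable_one.indicator (cov2_closed hK _).measurableSet) (by
      intro x y
      by_cases hx : x ∈ {x | x ∈ K ∧ x - m ∈ K}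
      · by_cases hy : y ∈ {x | x ∈ K ∧ x - m' ∈ K}
        · have hmem : (1 - b) • x + b • y ∈ {x | x ∈ K ∧ x - (a • m + b • m') ∈ K} := by
            rw [h1b]
            refine ⟨hK.conv hx.1 hy.1 ha.le hb.le hab, ?_⟩
            have e1 : a • x + b • y - (a • m + b • m') = a • (x - m) + b • (y - m') := by
              rw [smul_sub, smul_sub]; abel
            rw [e1]
            exact hK.conv hx.2 hy.2 ha.le hb.le hab
          rw [Set.indicator_of_mem hx, Set.indicator_of_mem hy, Set.indicator_of_mem hmem]
          simp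
        · rw [Set.indicator_of_notMem hy, ENNReal.zero_rpow_of_pos hb, mul_zero]
          exact zero_le
      · rw [Set.indicator_of_notMem hx, ENNReal.zero_rpow_of_pos (by linarith), zero_mul]
        exact zero_le)
  rw [lintegral_indicator_one (cov2_closed hK m).measurableSet,
    lintegral_indicator_one (cov2_closed hK m').measurableSet,
    lintegral_indicator_one (cov2_closed hK _).measurableSet, h1b] at key
  have h2 := ENNReal.toReal_mono (cov2_fin μ hK _) key
  rw [ENNReal.toReal_mul, ← ENNReal.toReal_rpow, ← ENNReal.toReal_rpow] at h2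
  exact h2

lemma cov2_zero (μ : Measure V) {K : Set V} : cov μ K 0 = μ.real K := by
  unfold cov
  congr 1
  ext x
  simp

lemma cov2_nonneg (μ : Measure V) (K : Set V) (m : V) : 0 ≤ cov μ K m := measureReal_nonneg

end cov2

theorem pf_cov2 : S_cov2 := by
  intro V _ _ _ _ _ μ _ K hK hK1
  constructor
  · intro m m' a b ha hb hab
    rcases ha.eq_or_lt with rfl | ha
    · have : b = 1 := by linarith
      subst this
      simp
    rcases hb.eq_or_lt with rfl | hb
    · have : a = 1 := by linarith
      subst this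
      simp
    refine le_trans ?_ (cov2_log μ hK m m' ha hb hab)
    obtain ⟨u, hu⟩ : ∃ u, u = min (cov μ K m) (cov μ K m') := ⟨_, rfl⟩
    have hu0 : 0 ≤ u := by rw [hu]; exact le_min (cov2_nonneg μ K m) (cov2_nonneg μ K m')
    rw [← hu]
    calc u = u ^ a * u ^ b := by
          rw [← Real.rpow_add_of_nonneg hu0 ha.le hb.le, hab, Real.rpow_one]
      _ ≤ cov μ K m ^ a * cov μ K m' ^ b := by
          refine mul_le_mul ?_ ?_ (Real.rpow_nonneg hu0 _)
            (Real.rpow_nonneg (cov2_nonneg μ K m) _)
          · exact Real.rpow_le_rpow hu0 (hu ▸ min_le_left _ _) ha.le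
          · exact Real.rpow_le_rpow hu0 (hu ▸ min_le_right _ _) hb.le
  · intro m ε t hε hm ht0 ht1
    have hlog : ε ^ t ≤ cov μ K (t • m) := by
      rcases ht0.eq_or_lt with rfl | ht0
      · rw [zero_smul, cov2_zero, hK1, Real.rpow_zero]
      rcases ht1.eq_or_lt with rfl | ht1
      · rw [one_smul, Real.rpow_one]; exact hm
      have h1 := cov2_log μ hK m 0 ht0 (by linarith : 0 < 1 - t) (by ring)
      rw [cov2_zero, hK1, Real.one_rpow, mul_one, smul_zero, add_zero] at h1
      exact (Real.rpow_le_rpow hε.le hm ht0.le).trans h1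
    refine le_trans ?_ hlog
    rw [Real.rpow_def_of_pos hε, one_div, Real.log_inv]
    have := Real.add_one_le_exp (Real.log ε * t)
    linarith

end Pool.Agent.H777.LB
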