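import Pool.Agent.H777.LB.Defs

set_option autoImplicit false
set_option linter.unusedVariables false

/-!
# Assembly of `S_cover`
-/

namespace Pool.Agent.H777.LB

open scoped RealInnerProductSpace Pointwise
open Module MeasureTheory
open Pool.Agent.H845R2 (SB pol)
open Pool.Agent.K3h52.HR (Bd Mac Mth dcap)

theorem cv_cc_pos (i : ℕ) : 0 < cc i := by unfold cc; positivity

theorem cv_cc_lt (i : ℕ) : cc i < 1 := by
  unfold cc
  exact pow_lt_one₀ (by norm_num) (by norm_num) (by omega)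

theorem cv_cc_anti {i j : ℕ} (h : i ≤ j) : cc j ≤ cc i := by
  unfold cc
  exact pow_le_pow_of_le_one (by norm_num) (by norm_num) (by omega)

theorem cv_cc_zero : cc 0 = 1 / 4096 := by unfold cc; norm_num

theorem cv_cc_eq (i : ℕ) : cc i = 1 / 4096 * (1 / 16) ^ i := by
  unfold cc
  rw [pow_add, pow_mul]
  norm_num

/-- the small quantity -/
theorem cv_small (d i : ℕ) (hi : i ≤ d) :
    10 * cc i + (1 - (1 - 8 * (1 / 2 : ℝ) ^ (15 + 5 * d)) ^ d) ≤ 11 * cc i := by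
  have hz0 : (0 : ℝ) < (1 / 2 : ℝ) ^ (15 + 5 * d) := by positivity
  have hz1 : (1 / 2 : ℝ) ^ (15 + 5 * d) ≤ (1 / 2) ^ 15 :=
    pow_le_pow_of_le_one (by norm_num) (by norm_num) (by omega)
  have h1 : 1 + (d : ℝ) * (-(8 * (1 / 2 : ℝ) ^ (15 + 5 * d))) ≤
      (1 + -(8 * (1 / 2 : ℝ) ^ (15 + 5 * d))) ^ d := by
    refine one_add_mul_le_pow ?_ d
    norm_num at hz1 ⊢
    linarith
  have h2 : 8 * (d : ℝ) * (1 / 2 : ℝ) ^ (15 + 5 * d) ≤ cc d := by
    have h3 : (d : ℝ) ≤ 2 ^ d := by exact_mod_cast Nat.lt_two_pow_self.le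
    have h4 : (1 / 2 : ℝ) ^ (15 + 5 * d) = (1 / 8) * (1 / 2) ^ d * (1 / 2) ^ (12 + 4 * d) := by
      have : (1 / 8 : ℝ) = (1 / 2) ^ 3 := by norm_num
      rw [this, ← pow_add, ← pow_add]
      congr 1
      omega
    rw [h4]
    unfold cc
    have h5 : (2 : ℝ) ^ d * (1 / 2) ^ d = 1 := by rw [← mul_pow]; norm_num
    calc 8 * (d : ℝ) * ((1 / 8) * (1 / 2) ^ d * (1 / 2) ^ (12 + 4 * d))
        = (d * (1 / 2) ^ d) * (1 / 2) ^ (12 + 4 * d) := by ring
      _ ≤ (2 ^ d * (1 / 2) ^ d) * (1 / 2) ^ (12 + 4 * d) := by gcongr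
      _ = (1 / 2) ^ (12 + 4 * d) := by rw [h5, one_mul]
  have h6 := cv_cc_anti hi
  have e : 1 + -(8 * (1 / 2 : ℝ) ^ (15 + 5 * d)) = 1 - 8 * (1 / 2 : ℝ) ^ (15 + 5 * d) := by ring
  rw [e] at h1
  linarith

theorem cv_l (d : ℕ) : 0 ≤ 1 - 8 * (1 / 2 : ℝ) ^ (15 + 5 * d) ∧
    1 - 8 * (1 / 2 : ℝ) ^ (15 + 5 * d) ≤ 1 := by
  have hz0 : (0 : ℝ) < (1 / 2 : ℝ) ^ (15 + 5 * d) := by positivity
  have hz1 : (1 / 2 : ℝ) ^ (15 + 5 * d) ≤ (1 / 2) ^ 15 :=
    pow_le_pow_of_le_one (by norm_num) (by norm_num) (by omega)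
  norm_num at hz1
  constructor <;> linarith

theorem cv_qs_single {V : Type} [NormedAddCommGroup V] [InnerProductSpace ℝ V]
    [FiniteDimensional ℝ V] [MeasurableSpace V] [BorelSpace V] (K : Set V) (y : V) :
    Qs K {y} = Ref K y := by
  ext t
  simp [Qs, Ref]

theorem cv_cover (h1 : S_cov1) (h3 : S_D) (h5 : S_energy) (h6 : S_min) (h7 : S_dens)
    (h8 : S_game) (h9 : S_mass) (h15 : S_type) (h17 : S_num) (h20 : S_level) : S_cover := by
  classical
  intro V _ _ _ _ _ μ _ K hK h1K hd VL VU hVL hL hU hratio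
  set d := finrank ℝ V with hdd
  set ζ : ℝ := (1 / 2) ^ (15 + 5 * d) with hζ
  set l : ℝ := 1 - 8 * ζ with hl
  obtain ⟨hl0, hl1⟩ := cv_l d
  rw [← hζ, ← hl] at hl0 hl1
  set β : ℝ := (1 / 2) ^ d with hβ
  have hβ0 : 0 < β := by positivity
  have hβ2 : β * 2 ^ d = 1 := by rw [hβ, ← mul_pow]; norm_num
  have hβ4 : β * 4 ^ d = 2 ^ d := by rw [hβ, ← mul_pow]; norm_num
  have hρ0 : 0 ≤ VU / VL := by
    have hSB : SB (Dc μ K (cc 0)) := (h3 V μ K hK h1K hd (cc 0) (cv_cc_pos 0) (cv_cc_lt 0)).1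
    have h := (hL _ hSB).trans (hU _ hSB)
    exact div_nonneg (hVL.le.trans h) hVL.le
  obtain ⟨N, hN, hNs⟩ := h17 d hd (VU / VL) hρ0 hratio
  obtain ⟨hc0, hcneg, hc01, hcsub, hcb, hcK⟩ := h1 V μ K hK h1K
  -- the finite set
  have hDd : SB (Dc μ K (cc d)) := (h3 V μ K hK h1K hd (cc d) (cv_cc_pos d) (cv_cc_lt d)).1
  have hK' : IsCompact ((1 - ζ) • K) := hK.comp.smul _
  obtain ⟨X, hXK, hXc⟩ := hK'.elim_nhds_subcover (fun x => {z | z - x ∈ Dc μ K (cc d)})
    (fun x _ => by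
      have h0 := hDd.zero_int
      have ho : IsOpen ((fun z => z - x) ⁻¹' interior (Dc μ K (cc d))) :=
        isOpen_interior.preimage (by fun_prop)
      refine Filter.mem_of_superset (ho.mem_nhds ?_) (fun z hz => ?_)
      · show x - x ∈ interior (Dc μ K (cc d))
        rwa [sub_self]
      · have h : z - x ∈ interior (Dc μ K (cc d)) := hz
        show z - x ∈ Dc μ K (cc d)
        exact interior_subset h)
  have hζ0 : 0 < ζ := by positivity
  have hζ1 : ζ ≤ 1 := pow_le_one₀ (by norm_num) (by norm_num)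
  have hXin : ∀ x ∈ X, x ∈ K := by
    intro x hx
    obtain ⟨k, hk, hkx⟩ := hXK x hx
    rw [← hkx]
    exact hK.conv.smul_mem_of_zero_mem hK.zero hk ⟨by linarith, by linarith⟩
  have hXne : X.Nonempty := by
    have h0 : (0 : V) ∈ (1 - ζ) • K := ⟨0, hK.zero, smul_zero _⟩
    have := hXc h0
    simp only [Set.mem_iUnion] at this
    obtain ⟨x, hx, -⟩ := this
    exact ⟨x, hx⟩
  -- levels
  choose! i₀ hi₀ P hPne hPc hP hPov hadm using fun x (hx : x ∈ K) => h20 V μ K hK h1K hd x hx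
  set Y : Finset V := X.biUnion P with hY
  have hYne : Y.Nonempty := by
    obtain ⟨x, hx⟩ := hXne
    obtain ⟨y, hy⟩ := hPne x (hXin x hx)
    exact ⟨y, Finset.mem_biUnion.2 ⟨x, hx, hy⟩⟩
  obtain ⟨ν, hν0, hν1, hνU⟩ := h6 V Y hYne (fun a b => cov μ K (a - b)) (fun a b => by
    rw [← hcneg (a - b), neg_sub])
  obtain ⟨hfm, hf01, hfi, hf1, hf2, hfR⟩ := h7 V μ K hK h1K Y ν hν0 hν1
  set f := dens K Y ν with hf
  set α := ∫ t, f t ^ 2 ∂μ with hα
  have hαE : (1 - 2 * cc 0) ^ 2 * (1 / 2) ^ d ≤ α := by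
    rw [hf2]
    refine h5 V μ K hK h1K (cc 0) (cv_cc_pos 0) (by rw [cv_cc_zero]; norm_num) Y ν hν0 hν1 ?_
    intro y hy
    obtain ⟨x, hx, hyx⟩ := Finset.mem_biUnion.1 hy
    exact (hP x (hXin x hx) y hyx).2
  have hαβ : β / 2 ≤ α := by
    refine le_trans ?_ hαE
    rw [cv_cc_zero, ← hβ]
    have : (1 / 2 : ℝ) ≤ (1 - 2 * (1 / 4096)) ^ 2 := by norm_num
    nlinarith
  have hα0 : 0 < α := by linarith [half_pos hβ0]
  have hα1 : α ≤ 1 := by
    rw [← hf1, hα]
    refine integral_mono_of_nonneg (Filter.Eventually.of_forall fun t => sq_nonneg _) hfi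
      (Filter.Eventually.of_forall fun t => ?_)
    have h := hf01 t
    simp only
    nlinarith [h.1, h.2]
  have hUy : ∀ y ∈ Y, α ≤ ∫ t in Ref K y, f t ∂μ := by
    intro y hy
    rw [hfR y, hf2]
    exact hνU y hy
  have hfJ : ∀ t, f t ≤ β * 4 ^ d := by
    intro t
    rw [hβ4]
    exact (hf01 t).2.trans (one_le_pow₀ (by norm_num))
  obtain ⟨hlo, hlev, hmass⟩ := h9 V μ f β hfm (fun t => (hf01 t).1) (fun t => (hf01 t).2) hfi hβ0
  -- the condition on the number of translates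
  have hcond : ∀ (i : ℕ) (κ M : ℝ), 0 < M → (2 : ℝ) ^ i / (16 * 2 ^ d) ≤ κ / M → κ / M ≤ 2 →
      (1 + (((15 + 5 * d : ℕ) : ℝ) + 1) * (4 * (2 * 2 ^ (15 + 5 * d) + 1) ^ 2 * 16384 ^ d *
        (VU / VL) ^ 2 * (2 ^ (19 * (i + 1))) ^ d)) * (3 ^ d * (2 ^ (19 * (i + 1))) ^ d) *
        (1 - κ / (2 * M)) ^ (N i) < 1 := by
    intro i κ M hM ha hb
    have h := hN i (κ / M) ha hb
    have e : κ / M / 2 = κ / (2 * M) := by field_simp
    rwa [e] at h
  have hβe : β = 1 / 2 ^ d := by rw [hβ, one_div_pow]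
  -- type (a)
  have hTa : ∀ i, i ≤ d → ∃ T : Finset V, T.card ≤ N i ∧ ∀ x ∈ X, i₀ x ≤ i →
      (∃ y ∈ P x, (1 / 2) ^ (i + 1) * α / 2 ≤ ∫ t in Ref K y, lev β f i t ∂μ) →
      ∀ m ∈ Dc μ K (cc i), ∃ w ∈ T, x + m ∈ St K l w := by
    intro i hi
    set κ : ℝ := (1 / 2) ^ (i + 1) * α / 2 with hκ
    have hκ0 : 0 < κ := by positivity
    -- the mass
    obtain ⟨M, hM0, hMm, hMr, hMr2⟩ : ∃ M : ℝ, 0 < M ∧ ∫ t, lev β f i t ∂μ ≤ M ∧
        (2 : ℝ) ^ i / (16 * 2 ^ d) ≤ κ / M ∧ κ / M ≤ 2 := by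
      rcases Nat.eq_zero_or_pos i with h0 | h0
      · refine ⟨1, one_pos, ?_, ?_, ?_⟩
        · rw [← hf1]
          exact (hlev i).2.2.2
        · have e : (2 : ℝ) ^ i / (16 * 2 ^ d) = 1 / 16 * β := by
            rw [hβe, h0]; field_simp
          have e2 : κ / 1 = α / 4 := by
            rw [hκ, h0, div_one]; ring
          rw [e, e2]
          linarith
        · have e2 : κ / 1 = α / 4 := by
            rw [hκ, h0, div_one]; ring
          rw [e2]
          linarith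
      · obtain ⟨j, rfl⟩ : ∃ j, i = j + 1 := ⟨i - 1, by omega⟩
        have hM := hmass j
        refine ⟨α / (β * 4 ^ j), by positivity, ?_, ?_, ?_⟩
        · rw [le_div_iff₀ (by positivity), mul_comm]
          exact hM
        all_goals
          have e : κ / (α / (β * 4 ^ j)) = 2 ^ (j + 1) / (16 * 2 ^ d) := by
            rw [hκ, hβe, one_div_pow]
            have e4 : (4 : ℝ) ^ j = 2 ^ j * 2 ^ j := by rw [← mul_pow]; norm_num
            rw [e4]
            field_simp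
            ring
          rw [e]
        rw [div_le_iff₀ (by positivity)]
        have : (2 : ℝ) ^ (j + 1) ≤ 2 ^ d := pow_le_pow_right₀ (by norm_num) hi
        have h2 : (0 : ℝ) < 2 ^ d := by positivity
        linarith
    set Xi : Finset V := X.filter fun x => i₀ x ≤ i ∧
      ∃ y ∈ P x, κ ≤ ∫ t in Ref K y, lev β f i t ∂μ with hXi
    have hsel : ∀ x ∈ Xi, ∃ y ∈ P x, κ ≤ ∫ t in Ref K y, lev β f i t ∂μ :=
      fun x hx => (Finset.mem_filter.1 hx).2.2
    choose! yy hyy hyκ using hsel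
    have hbadn : β * 4 ^ i * ((1 : ℕ) : ℝ) * (10 * cc i + (1 - l ^ d)) ≤ κ / 20 := by
      have hs := cv_small d i hi
      rw [← hζ, ← hl] at hs
      have h4 : (0 : ℝ) < β * 4 ^ i := by positivity
      calc β * 4 ^ i * ((1 : ℕ) : ℝ) * (10 * cc i + (1 - l ^ d))
          = β * 4 ^ i * (10 * cc i + (1 - l ^ d)) := by push_cast; ring
        _ ≤ β * 4 ^ i * (11 * cc i) := mul_le_mul_of_nonneg_left hs h4.le
        _ ≤ κ / 20 := by
            rw [cv_cc_eq, hκ]
            have e16 : (1 / 16 : ℝ) ^ i * 4 ^ i = (1 / 4) ^ i := by rw [← mul_pow]; norm_num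
            have e4 : (1 / 4 : ℝ) ^ i ≤ (1 / 2) ^ i :=
              pow_le_pow_left₀ (by norm_num) (by norm_num) i
            have e2 : (0 : ℝ) < (1 / 2) ^ i := by positivity
            have e3 : (0 : ℝ) < (1 / 4) ^ i := by positivity
            calc β * 4 ^ i * (11 * (1 / 4096 * (1 / 16) ^ i))
                = 11 / 4096 * β * ((1 / 16) ^ i * 4 ^ i) := by ring
              _ = 11 / 4096 * β * (1 / 4) ^ i := by rw [e16]
              _ ≤ 11 / 4096 * β * (1 / 2) ^ i := by gcongr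
              _ ≤ (1 / 2) ^ (i + 1) * α / 2 / 20 := by
                  rw [pow_succ]
                  have : (1 / 2 : ℝ) ^ i * (β / 2) ≤ (1 / 2 : ℝ) ^ i * α :=
                    mul_le_mul_of_nonneg_left hαβ e2.le
                  nlinarith
    obtain ⟨T, hTc, hT⟩ := h15 V μ K hK h1K hd (cc i) (cv_cc_pos i) (cv_cc_lt i) VL VU
      ((2 ^ (19 * (i + 1))) ^ d) hVL (by positivity) hL hU (15 + 5 * d) 1 l (β * 4 ^ i) M κ hl0 hl1
      (by positivity) hM0 hκ0 (lev β f i) (hlev i).1 (hlev i).2.2.1 (hlev i).2.1 hMm hbadn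
      Xi (fun x => {yy x}) (by
        intro x hx
        have hxX : x ∈ X := (Finset.mem_filter.1 hx).1
        have hxi := (Finset.mem_filter.1 hx).2.1
        refine ⟨hXK x hxX, hadm x (hXin x hxX) i hxi hi, by simp, ?_, ?_⟩
        · intro y hy
          rw [Finset.mem_singleton] at hy
          rw [hy]
          exact (hP x (hXin x hxX) _ (hyy x hx)).1
        · rw [cv_qs_single]
          exact hyκ x hx) (N i) (hcond i κ M hM0 hMr hMr2)
    refine ⟨T, hTc, ?_⟩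
    intro x hx hxi hex m hm
    exact hT x (Finset.mem_filter.2 ⟨hx, hxi, hex⟩) m hm
  -- type (b)
  have hTb : ∀ j, j < d → ∃ T : Finset V, T.card ≤ N (j + 1) ∧ ∀ x ∈ X, i₀ x = j + 1 →
      (4 ^ (j + 1) * α / 4 ≤ ∫ t in Qs K (P x), lo β f j t ∂μ) →
      ∀ m ∈ Dc μ K (cc (j + 1)), ∃ w ∈ T, x + m ∈ St K l w := by
    intro j hj
    set κ : ℝ := 4 ^ (j + 1) * α / 4 with hκ
    have hκ0 : 0 < κ := by positivity
    set Xj : Finset V := X.filter fun x => i₀ x = j + 1 ∧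
      κ ≤ ∫ t in Qs K (P x), lo β f j t ∂μ with hXj
    have hbadn : β * 4 ^ j * ((4 ^ (j + 1) : ℕ) : ℝ) * (10 * cc (j + 1) + (1 - l ^ d)) ≤
        κ / 20 := by
      have hs := cv_small d (j + 1) hj
      rw [← hζ, ← hl] at hs
      have h4 : (0 : ℝ) < β * 4 ^ j * 4 ^ (j + 1) := by positivity
      calc β * 4 ^ j * ((4 ^ (j + 1) : ℕ) : ℝ) * (10 * cc (j + 1) + (1 - l ^ d))
          = β * 4 ^ j * 4 ^ (j + 1) * (10 * cc (j + 1) + (1 - l ^ d)) := by push_cast; ring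
        _ ≤ β * 4 ^ j * 4 ^ (j + 1) * (11 * cc (j + 1)) := mul_le_mul_of_nonneg_left hs h4.le
        _ ≤ κ / 20 := by
            rw [cv_cc_eq, hκ]
            have e16 : (1 / 16 : ℝ) ^ (j + 1) * 4 ^ (j + 1) = (1 / 4) ^ (j + 1) := by
              rw [← mul_pow]; norm_num
            have e4 : (1 / 4 : ℝ) ^ (j + 1) ≤ 1 := pow_le_one₀ (by norm_num) (by norm_num)
            have e3 : (0 : ℝ) < 4 ^ j := by positivity
            have e5 : (4 : ℝ) ^ (j + 1) = 4 * 4 ^ j := by rw [pow_succ]; ring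
            calc β * 4 ^ j * 4 ^ (j + 1) * (11 * (1 / 4096 * (1 / 16) ^ (j + 1)))
                = 11 / 4096 * β * 4 ^ j * ((1 / 16) ^ (j + 1) * 4 ^ (j + 1)) := by ring
              _ = 11 / 4096 * β * 4 ^ j * (1 / 4) ^ (j + 1) := by rw [e16]
              _ ≤ 11 / 4096 * β * 4 ^ j * 1 := by gcongr
              _ ≤ 4 ^ (j + 1) * α / 4 / 20 := by
                  rw [e5]
                  have : (4 : ℝ) ^ j * (β / 2) ≤ 4 ^ j * α := mul_le_mul_of_nonneg_left hαβ e3.le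
                  nlinarith
    have hMr : (2 : ℝ) ^ (j + 1) / (16 * 2 ^ d) ≤ κ / max 1 κ := by
      have hp : (0 : ℝ) < 2 ^ d := by positivity
      rcases le_total κ 1 with h | h
      · rw [max_eq_left h, div_one, hκ]
        have e1 : (2 : ℝ) ^ (j + 1) / (16 * 2 ^ d) = 2 ^ (j + 1) / 16 * β := by
          rw [hβe]; field_simp
        rw [e1]
        have e2 : (2 : ℝ) ^ (j + 1) ≤ 4 ^ (j + 1) :=
          pow_le_pow_left₀ (by norm_num) (by norm_num) _
        have e3 : (0 : ℝ) < 4 ^ (j + 1) := by positivity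
        have e4 : (4 : ℝ) ^ (j + 1) * (β / 2) ≤ 4 ^ (j + 1) * α :=
          mul_le_mul_of_nonneg_left hαβ e3.le
        have e5 : (2 : ℝ) ^ (j + 1) * β ≤ 4 ^ (j + 1) * β := mul_le_mul_of_nonneg_right e2 hβ0.le
        nlinarith [mul_pos e3 hβ0]
      · rw [max_eq_right h, div_self hκ0.ne', div_le_iff₀ (by positivity), one_mul]
        have : (2 : ℝ) ^ (j + 1) ≤ 2 ^ d := pow_le_pow_right₀ (by norm_num) hj
        linarith
    have hMr2 : κ / max 1 κ ≤ 2 := by
      rw [div_le_iff₀ (by positivity)]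
      have := le_max_right 1 κ
      linarith
    obtain ⟨T, hTc, hT⟩ := h15 V μ K hK h1K hd (cc (j + 1)) (cv_cc_pos _) (cv_cc_lt _) VL VU
      ((2 ^ (19 * (j + 1 + 1))) ^ d) hVL (by positivity) hL hU (15 + 5 * d) (4 ^ (j + 1)) l
      (β * 4 ^ j) (max 1 κ) κ hl0 hl1
      (by positivity) (by positivity) hκ0 (lo β f j) (hlo j).1 (hlo j).2.2.1 (hlo j).2.1
      ((hlo j).2.2.2.trans (by rw [hf1]; exact le_max_left _ _)) hbadn
      Xj P (by
        intro x hx
        have hxX : x ∈ X := (Finset.mem_filter.1 hx).1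
        have hxi := (Finset.mem_filter.1 hx).2.1
        refine ⟨hXK x hxX, hadm x (hXin x hxX) (j + 1) hxi.le hj, ?_, ?_, ?_⟩
        · have := hPc x (hXin x hxX)
          rwa [hxi] at this
        · intro y hy
          exact (hP x (hXin x hxX) y hy).1
        · exact (Finset.mem_filter.1 hx).2.2) (N (j + 1))
      (hcond (j + 1) κ (max 1 κ) (by positivity) hMr hMr2)
    refine ⟨T, hTc, ?_⟩
    intro x hx hxi hex m hm
    exact hT x (Finset.mem_filter.2 ⟨hx, hxi, hex⟩) m hm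
  choose! Ta hTac hTa' using hTa
  choose! Tb hTbc hTb' using hTb
  refine ⟨(Finset.range (d + 1)).biUnion Ta ∪ (Finset.range d).biUnion Tb, ?_, ?_⟩
  · have hc : (((Finset.range (d + 1)).biUnion Ta ∪ (Finset.range d).biUnion Tb).card : ℝ) ≤
        (∑ i ∈ Finset.range (d + 1), (N i : ℝ)) + ∑ i ∈ Finset.range d, (N (i + 1) : ℝ) := by
      have h1 : ((Finset.range (d + 1)).biUnion Ta ∪ (Finset.range d).biUnion Tb).card ≤
          (∑ i ∈ Finset.range (d + 1), N i) + ∑ i ∈ Finset.range d, N (i + 1) := by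
        refine (Finset.card_union_le _ _).trans (add_le_add ?_ ?_)
        · refine Finset.card_biUnion_le.trans (Finset.sum_le_sum fun i hi => ?_)
          exact hTac i (by rw [Finset.mem_range] at hi; omega)
        · refine Finset.card_biUnion_le.trans (Finset.sum_le_sum fun i hi => ?_)
          exact hTbc i (by rw [Finset.mem_range] at hi; omega)
      exact_mod_cast h1
    exact hc.trans hNs
  · intro z hz
    have hz' := hXc hz
    simp only [Set.mem_iUnion] at hz'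
    obtain ⟨x, hx, hzx⟩ := hz'
    have hzx' : z - x ∈ Dc μ K (cc d) := hzx
    have hxK := hXin x hx
    have hmono : ∀ i ≤ d, z - x ∈ Dc μ K (cc i) := by
      intro i hi
      have h : 1 - cc d ≤ cov μ K (z - x) := hzx'
      have h2 := cv_cc_anti hi
      show 1 - cc i ≤ cov μ K (z - x)
      linarith
    have ez : x + (z - x) = z := by abel
    rcases h8 V μ K hK h1K f α β d hfm (fun t => (hf01 t).1) hfi hβ0 hαβ hfJ (P x) (i₀ x)
      (hi₀ x hxK) (hPne x hxK)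
      (fun y hy => hUy y (Finset.mem_biUnion.2 ⟨x, hx, hy⟩)) (hPov x hxK) with h | h
    · obtain ⟨i, hi1, hi2, hex⟩ := h
      obtain ⟨w, hw, hwz⟩ := hTa' i hi2 x hx hi1 hex (z - x) (hmono i hi2)
      rw [ez] at hwz
      exact ⟨w, Finset.mem_union_left _ (Finset.mem_biUnion.2
        ⟨i, Finset.mem_range.2 (by omega), hw⟩), hwz⟩
    · obtain ⟨j, hj1, hex⟩ := h
      have hjd : j < d := by
        have := hi₀ x hxK
        omega
      obtain ⟨w, hw, hwz⟩ := hTb' j hjd x hx hj1 hex (z - x) (hmono (j + 1) hjd)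
      rw [ez] at hwz
      exact ⟨w, Finset.mem_union_right _ (Finset.mem_biUnion.2
        ⟨j, Finset.mem_range.2 hjd, hw⟩), hwz⟩

end Pool.Agent.H777.LB
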