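import Pool.Agent.H777.LB.Defs

set_option autoImplicit false

/-! # L3: the bodies `D_c` -/

namespace Pool.Agent.H777.LB

open scoped RealInnerProductSpace Pointwise
open Module MeasureTheory
open Pool.Agent.H845R2 (SB pol)
open Pool.Agent.K3h52.HR (Bd Mac Mth dcap)

theorem pf_D (h1 : S_cov1) (h2 : S_cov2) : S_D := by
  intro V _ _ _ _ _ μ _ K hK hK1 hd c hc hc1
  obtain ⟨hA0, hAsymm, hA01, hAsub, hApow, hApos⟩ := h1 V μ K hK hK1
  obtain ⟨hAmin, hAlog⟩ := h2 V μ K hK hK1
  set d := finrank ℝ V with hdef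
  have hd1 : (1 : ℝ) ≤ d := by exact_mod_cast hd
  have hd0 : (0 : ℝ) < d := by linarith
  -- Bernoulli
  have hBer : ∀ t : ℝ, 0 ≤ t → t ≤ 1 → 1 - d * t ≤ (1 - t) ^ d := by
    intro t ht0 ht1
    have := one_add_mul_le_pow (a := -t) (by linarith) d
    have e1 : (1 : ℝ) + (d : ℝ) * -t = 1 - d * t := by ring
    have e2 : (1 : ℝ) + -t = 1 - t := by ring
    rwa [e1, e2] at this
  -- a ball in `K`
  obtain ⟨r, hr, hball⟩ : ∃ r > 0, Metric.closedBall (0 : V) r ⊆ K :=
    Metric.nhds_basis_closedBall.mem_iff.1 (mem_interior_iff_mem_nhds.1 hK.i0)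
  -- lower bound near zero
  have hnear : ∀ δ : V, 1 - cov μ K δ ≤ d / r * ‖δ‖ := by
    intro δ
    rcases eq_or_ne δ 0 with rfl | hδ
    · rw [hA0, norm_zero]
      simp
    have hδ' : 0 < ‖δ‖ := norm_pos_iff.2 hδ
    by_cases hle : ‖δ‖ ≤ r
    · have ht1 : ‖δ‖ / r ≤ 1 := (div_le_one hr).2 hle
      have ht0 : 0 ≤ ‖δ‖ / r := by positivity
      have ha : (r / ‖δ‖) • δ ∈ K := hball (by
        rw [mem_closedBall_zero_iff, norm_smul, Real.norm_of_nonneg (by positivity),
          div_mul_cancel₀ _ hδ'.ne'])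
      have h3 := hApow (‖δ‖ / r) ht0 ht1 _ ha 0 hK.zero
      have h4 : (‖δ‖ / r) • ((r / ‖δ‖) • δ - 0) = δ := by
        rw [sub_zero, smul_smul]
        have : ‖δ‖ / r * (r / ‖δ‖) = 1 := by field_simp
        rw [this, one_smul]
      rw [h4] at h3
      have h5 := hBer (‖δ‖ / r) ht0 ht1
      have h6 : (d : ℝ) / r * ‖δ‖ = d * (‖δ‖ / r) := by ring
      rw [h6]
      linarith
    · push Not at hle
      have h3 := (hA01 δ).1
      have h4 : 1 ≤ ‖δ‖ / r := (one_le_div hr).2 hle.le
      have h6 : (d : ℝ) / r * ‖δ‖ = d * (‖δ‖ / r) := by ring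
      rw [h6]
      nlinarith
  have hcont : Continuous (cov μ K) := by
    have hL : LipschitzWith (Real.toNNReal (d / r)) (cov μ K) := by
      refine LipschitzWith.of_dist_le_mul fun m m' => ?_
      rw [Real.coe_toNNReal _ (by positivity), Real.dist_eq, dist_eq_norm]
      have h3 : ∀ x y : V, cov μ K y - cov μ K x ≤ d / r * ‖x - y‖ := by
        intro x y
        have h4 := hAsub y (x - y)
        rw [add_sub_cancel] at h4
        have h5 := hnear (x - y)
        linarith
      rw [abs_le]
      constructor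
      · have := h3 m m'
        linarith
      · have := h3 m' m
        rw [norm_sub_rev] at this
        linarith
    exact hL.continuous
  have hsub : Dc μ K c ⊆ K - K := fun m hm => hApos m (by
    have : 1 - c ≤ cov μ K m := hm
    linarith)
  have hcomp : IsCompact (Dc μ K c) := by
    have hKK : IsCompact (K - K) := by
      rw [sub_eq_add_neg]
      exact hK.comp.add hK.comp.neg
    exact hKK.of_isClosed_subset (isClosed_le continuous_const hcont) hsub
  refine ⟨⟨hcomp, ?_, ?_, ?_⟩, ?_, hsub, ?_, ?_⟩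
  · -- convex
    intro m hm m' hm' a b ha hb hab
    have h3 : 1 - c ≤ cov μ K m := hm
    have h4 : 1 - c ≤ cov μ K m' := hm'
    exact (le_min h3 h4).trans (hAmin m m' a b ha hb hab)
  · -- symmetric
    intro m hm
    show 1 - c ≤ cov μ K (-m)
    rw [hAsymm]
    exact hm
  · -- interior
    refine ⟨0, mem_interior.2 ⟨{m | 1 - c < cov μ K m}, fun m hm => ?_,
      isOpen_lt continuous_const hcont, ?_⟩⟩
    · have h3 : 1 - c < cov μ K m := hm
      exact h3.le
    · show 1 - c < cov μ K 0
      rw [hA0]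
      linarith
  · -- differences
    intro a ha b hb
    have ht0 : 0 ≤ c / d := by positivity
    have ht1 : c / d ≤ 1 := (div_le_one hd0).2 (by linarith)
    have h3 := hApow (c / d) ht0 ht1 a ha b hb
    have h4 := hBer (c / d) ht0 ht1
    have h5 : (d : ℝ) * (c / d) = c := by field_simp
    rw [h5] at h4
    exact h4.trans h3
  · -- multiples
    intro k m hm
    have hm' : 1 - c ≤ cov μ K m := hm
    have h3 : ∀ k : ℕ, 1 - cov μ K ((k : ℝ) • m) ≤ k * (1 - cov μ K m) := by
      intro k
      induction k with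
      | zero =>
        rw [Nat.cast_zero, zero_smul, hA0]
        simp
      | succ k ih =>
        have h4 := hAsub ((k : ℝ) • m) m
        have h5 : ((k + 1 : ℕ) : ℝ) • m = (k : ℝ) • m + m := by
          push_cast
          rw [add_smul, one_smul]
        rw [h5]
        push_cast
        linarith
    have h4 := h3 k
    have h5 : (k : ℝ) * (1 - cov μ K m) ≤ k * c :=
      mul_le_mul_of_nonneg_left (by linarith) (Nat.cast_nonneg k)
    linarith
  · -- volume
    intro ε hε hε1
    set R := Real.log (1 / ε) with hR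
    have hR1 : 1 ≤ R := by
      rw [hR, one_div, Real.log_inv]
      have := Real.log_le_log hε hε1
      rw [Real.log_exp] at this
      linarith
    have hR0 : 0 < R := by linarith
    have hincl : {m | ε ≤ cov μ K m} ⊆ (R / c) • Dc μ K c := by
      intro m hm
      refine ⟨(c / R) • m, ?_, ?_⟩
      · have ht0 : 0 ≤ c / R := by positivity
        have ht1 : c / R ≤ 1 := (div_le_one hR0).2 (by linarith)
        have h3 := hAlog m ε (c / R) hε hm ht0 ht1
        have h4 : c / R * Real.log (1 / ε) = c := by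
          rw [← hR]
          field_simp
        rw [h4] at h3
        exact h3
      · show (R / c) • (c / R) • m = m
        rw [smul_smul]
        have : R / c * (c / R) = 1 := by field_simp
        rw [this, one_smul]
    have hfin : μ ((R / c) • Dc μ K c) ≠ ⊤ := (hcomp.smul _).measure_lt_top.ne
    have h3 := measureReal_mono hincl hfin
    rwa [Pool.Agent.K3h52.HR.vol_smul μ (by positivity)] at h3

end Pool.Agent.H777.LB
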