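import Pool.Graph.R_pool_sql_team_seeded_5cf16337.K3h52.LF.Main
import Pool.Graph.R_pool_sql_team_seeded_5cf16337.K3h76.UC.Mid

set_option autoImplicit false
set_option linter.unusedVariables false

/-!
# A linear factor for all convex bodies: definitions

`c(K) ≤ C d 2^d` for every convex body `K` in `ℝ^d`.

Conventions: `V` is a Euclidean space of dimension `d = finrank ℝ V`, `μ` is a Haar measure on `V`,
normalised such that `μ K = 1`; `K` is a convex body with `0` in the interior (`HR.Bd K`).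
-/

namespace Pool.Agent.H777.LB

open scoped RealInnerProductSpace Pointwise
open Module MeasureTheory
open Pool.Agent.H845R2 (SB pol)
open Pool.Agent.K3h52.HR (Bd Mac Mth dcap)

section defs

variable {V : Type} [NormedAddCommGroup V] [InnerProductSpace ℝ V] [FiniteDimensional ℝ V]
  [MeasurableSpace V] [BorelSpace V]

/-- The covariogram of `K`: the volume of `K ∩ (m + K)`. -/
noncomputable def cov (μ : Measure V) (K : Set V) (m : V) : ℝ := μ.real {x | x ∈ K ∧ x - m ∈ K}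

/-- The vectors `m` with `vol (K ∩ (m + K)) ≥ 1 - c`. -/
def Dc (μ : Measure V) (K : Set V) (c : ℝ) : Set V := {m | 1 - c ≤ cov μ K m}

/-- The set of all `t` with `y ∈ t + K`. -/
def Ref (K : Set V) (y : V) : Set V := {t | y - t ∈ K}

open scoped Classical in
/-- The part of `f` where `f ≤ β 4^i`. -/
noncomputable def lo (β : ℝ) (f : V → ℝ) (i : ℕ) (t : V) : ℝ := if f t ≤ β * 4 ^ i then f t else 0

/-- The part of `f` where `β 4^(i-1) < f ≤ β 4^i` (for `i = 0` the part where `f ≤ β`). -/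
noncomputable def lev (β : ℝ) (f : V → ℝ) : ℕ → V → ℝ
  | 0 => lo β f 0
  | i + 1 => fun t => lo β f (i + 1) t - lo β f i t

open scoped Classical in
/-- The density of translates that contain a random point: `f t = ∑ ν y 1[y ∈ t + K]`. -/
noncomputable def dens (K : Set V) (Y : Finset V) (ν : V → ℝ) (t : V) : ℝ :=
  ∑ y ∈ Y, ν y * (Ref K y).indicator (fun _ => (1 : ℝ)) t

/-- The union of the sets `Ref K y`, `y ∈ P`. -/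
def Qs (K : Set V) (P : Finset V) : Set V := {t | ∃ y ∈ P, y - t ∈ K}

/-- The convex set `(1/4) w + ((3 + l)/4) K`, which replaces the translate `w + K`. -/
def St (K : Set V) (l : ℝ) (w : V) : Set V := {z | z - (1 / 4 : ℝ) • w ∈ ((3 + l) / 4) • K}

open scoped Classical in
/-- `∑ (2 b_j - a_j)`: `a_j = 1` if `W j ∈ Q`, `b_j = 1` if moreover `z ∉ S (W j)`. -/
noncomputable def score {N : ℕ} (Q : Set V) (S : V → Set V) (W : Fin N → V) (z : V) : ℝ :=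
  ∑ j, (2 * (if W j ∈ Q ∧ z ∉ S (W j) then (1 : ℝ) else 0) - (if W j ∈ Q then (1 : ℝ) else 0))

end defs

/-! ## The lemmas -/

/-- **L1 (covariogram, elementary part).** Write `A m = cov μ K m = μ (K ∩ (m + K))`. `A 0 = μ K = 1`.
`A (-m) = A m`: translate `{x | x ∈ K ∧ x + m ∈ K}` by `m`. `0 ≤ A ≤ 1`: a subset of `K`.
`K \ (K + m + m') ⊆ (K \ (K + m)) ∪ ((K + m) \ (K + m + m'))` and the last set is the translate by `m`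
of `K \ (K + m')`; this is the subadditivity of `1 - A`. For `a, b ∈ K`, `0 ≤ t ≤ 1` the set
`t a + (1 - t) K` is in `K ∩ (K + t (a - b))` (`t a + (1-t) k - t (a - b) = t b + (1-t) k`), its volume
is `(1 - t)^d` (`HR.vol_smul`). If `A m > 0` there is an `x ∈ K` with `x - m ∈ K`. -/
def S_cov1 : Prop :=
  ∀ (V : Type) [NormedAddCommGroup V] [InnerProductSpace ℝ V] [FiniteDimensional ℝ V]
    [MeasurableSpace V] [BorelSpace V] (μ : Measure V) [μ.IsAddHaarMeasure] (K : Set V),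
    Bd K → μ.real K = 1 →
    cov μ K 0 = 1 ∧ (∀ m, cov μ K (-m) = cov μ K m) ∧ (∀ m, 0 ≤ cov μ K m ∧ cov μ K m ≤ 1) ∧
    (∀ m m', 1 - cov μ K (m + m') ≤ (1 - cov μ K m) + (1 - cov μ K m')) ∧
    (∀ t : ℝ, 0 ≤ t → t ≤ 1 → ∀ a ∈ K, ∀ b ∈ K,
      (1 - t) ^ finrank ℝ V ≤ cov μ K (t • (a - b))) ∧
    (∀ m, 0 < cov μ K m → m ∈ K - K)

/-- **L2 (covariogram, log-concavity).** With `S m = {x | x ∈ K ∧ x - m ∈ K}` (compact) one has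
`a S m + b S m' ⊆ S (a m + b m')` for `a + b = 1`, `a, b ≥ 0`, so the Prekopa-Leindler inequality
`Pool.Agent.H212R2.KLS.PL μ t _ _ (indicator) (indicator) (indicator)` (see the proof of
`Pool.Agent.K3h76.UC.bm` in `Pool/Graph/R_pool_sql_team_seeded_5cf16337/K3h76/UC/Mid.lean` for its use
with indicator functions) gives `A m ^ a * A m' ^ b ≤ A (a m + b m')` (the cases `a = 0` or `b = 0`
are trivial). The first claim follows as `min x y ≤ x^a y^b`; for the second take `m' = 0`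
(`A 0 = μ K = 1`): `A (t m) ≥ A m ^ t ≥ ε ^ t = exp (- t log (1/ε)) ≥ 1 - t log (1/ε)`. -/
def S_cov2 : Prop :=
  ∀ (V : Type) [NormedAddCommGroup V] [InnerProductSpace ℝ V] [FiniteDimensional ℝ V]
    [MeasurableSpace V] [BorelSpace V] (μ : Measure V) [μ.IsAddHaarMeasure] (K : Set V),
    Bd K → μ.real K = 1 →
    (∀ m m' : V, ∀ a b : ℝ, 0 ≤ a → 0 ≤ b → a + b = 1 →
      min (cov μ K m) (cov μ K m') ≤ cov μ K (a • m + b • m')) ∧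
    (∀ (m : V) (ε t : ℝ), 0 < ε → ε ≤ cov μ K m → 0 ≤ t → t ≤ 1 →
      1 - t * Real.log (1 / ε) ≤ cov μ K (t • m))

/-- **L3 (the bodies `D_c`).** To be proved from `S_cov1` and `S_cov2`. `A = cov μ K`.
`SB`: symmetric by `A (-m) = A m`; convex by the first part of `S_cov2`; bounded as a subset of
`K - K` (`A m ≥ 1 - c > 0`); closed because `A` is continuous:
`|A m - A m'| ≤ 1 - A (m - m')` and `A δ → 1` for `δ → 0`, as `A (t (a - 0)) ≥ (1 - t)^d` for `a` in a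
ball about `0` in `K`; the same bound shows that `0` is in the interior.
`(c/d) (a - b) ∈ D_c` by Bernoulli: `(1 - c/d)^d ≥ 1 - c`. `1 - A (k m) ≤ k (1 - A m) ≤ k c` by
induction. Volume: let `r = log (1/ε) ≥ 1` and `A m ≥ ε`; then `A ((c/r) m) ≥ 1 - (c/r) r = 1 - c` by
`S_cov2`, so `{ε ≤ A} ⊆ (r/c) D_c` (`HR.vol_smul`). -/
def S_D : Prop :=
  ∀ (V : Type) [NormedAddCommGroup V] [InnerProductSpace ℝ V] [FiniteDimensional ℝ V]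
    [MeasurableSpace V] [BorelSpace V] (μ : Measure V) [μ.IsAddHaarMeasure] (K : Set V),
    Bd K → μ.real K = 1 → 1 ≤ finrank ℝ V → ∀ c : ℝ, 0 < c → c < 1 →
    SB (Dc μ K c) ∧ (∀ a ∈ K, ∀ b ∈ K, (c / finrank ℝ V) • (a - b) ∈ Dc μ K c) ∧
    Dc μ K c ⊆ K - K ∧
    (∀ k : ℕ, ∀ m ∈ Dc μ K c, 1 - k * c ≤ cov μ K ((k : ℝ) • m)) ∧
    (∀ ε : ℝ, 0 < ε → ε ≤ Real.exp (-1) →
      μ.real {m | ε ≤ cov μ K m} ≤
        (Real.log (1 / ε) / c) ^ finrank ℝ V * μ.real (Dc μ K c))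

/-- **L4 (rich points).** To be proved from `S_cov1`, `S_D`. Write `D = D_c`, `A = cov μ K`,
`B = {m | ε ≤ A m}`, `μ B ≤ (log (1/ε)/c)^d μ D` by `S_D`. Choose `m_1, ..., m_n ∈ Mac (K + D) x` one
after the other with `A (m_j - m_i) < ε` for `i < j`: this is possible since the union of the
`m_i + B` (`i < j ≤ n`) has volume at most `n μ B < μ (Mac ..)`. As `x - m_k ∈ K + D` there is an
`m'_k ∈ D` with `x - m_k - m'_k ∈ K`; put `y_k = x + m_k + m'_k`. Then `2 x - y_k ∈ K` and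
`y_k ∈ (K + D) + D ⊆ K + 2 D` (`x + m_k ∈ K + D`, `D` convex). For `i ≠ j`:
`1 - A (m_i - m_j) ≤ (1 - A (y_i - y_j)) + (1 - A (m'_j - m'_i))` and
`1 - A (m'_j - m'_i) ≤ 2 c`, so `A (y_i - y_j) ≤ ε + 2 c < 1 = A 0`; in particular the `y_k` are
different, so `P = {y_k}` has `n` elements. -/
def S_rich : Prop :=
  ∀ (V : Type) [NormedAddCommGroup V] [InnerProductSpace ℝ V] [FiniteDimensional ℝ V]
    [MeasurableSpace V] [BorelSpace V] (μ : Measure V) [μ.IsAddHaarMeasure] (K : Set V),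
    Bd K → μ.real K = 1 → 1 ≤ finrank ℝ V → ∀ c ε : ℝ, 0 < c → c < 1 → 0 < ε →
    ε ≤ Real.exp (-1) → ε + 2 * c < 1 → ∀ (n : ℕ) (x : V),
    n * ((Real.log (1 / ε) / c) ^ finrank ℝ V * μ.real (Dc μ K c)) <
      μ.real (Mac (K + Dc μ K c) x) →
    ∃ P : Finset V, P.card = n ∧
      (∀ y ∈ P, (2 : ℝ) • x - y ∈ K ∧ y ∈ K + (2 : ℝ) • Dc μ K c) ∧
      ∀ y ∈ P, ∀ y' ∈ P, y ≠ y' → cov μ K (y - y') ≤ ε + 2 * c

/-- **L5 (energy).** To be proved from `S_cov1`, `S_D`. Let `h = ∑ ν y 1_{y + K}`. Then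
`∫ h² = ∑∑ ν y ν y' μ ((y + K) ∩ (y' + K)) = ∑∑ ν y ν y' cov (y - y')`. If `y = k + 2 δ`, `k ∈ K`,
`δ ∈ D_c`, then `k + K ⊆ 2 K` (convexity), so
`μ ((y + K) ∩ 2 K) ≥ μ ((k + 2δ + K) ∩ (k + K)) = cov (2 δ) ≥ 1 - 2 c` (`S_D` with `k = 2`). Hence
`∫_{2K} h ≥ 1 - 2 c`, and by Cauchy-Schwarz
`(1 - 2c)² ≤ (∫_{2K} h)² ≤ μ (2K) ∫ h² = 2^d ∫ h²`. -/
def S_energy : Prop :=
  ∀ (V : Type) [NormedAddCommGroup V] [InnerProductSpace ℝ V] [FiniteDimensional ℝ V]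
    [MeasurableSpace V] [BorelSpace V] (μ : Measure V) [μ.IsAddHaarMeasure] (K : Set V),
    Bd K → μ.real K = 1 → ∀ c : ℝ, 0 < c → c ≤ 1 / 4 → ∀ (Y : Finset V) (ν : V → ℝ),
    (∀ y, 0 ≤ ν y) → ∑ y ∈ Y, ν y = 1 → (∀ y ∈ Y, y ∈ K + (2 : ℝ) • Dc μ K c) →
    (1 - 2 * c) ^ 2 * (1 / 2) ^ finrank ℝ V ≤
      ∑ y ∈ Y, ∑ y' ∈ Y, ν y * ν y' * cov μ K (y - y')

/-- **L6 (energy minimiser).** The energy `E ν = ∑∑ ν a ν b k a b` is continuous on the compact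
standard simplex over `Y` (`isCompact_stdSimplex`), so it has a minimum at some `ν` (extended by `0`
outside `Y`). For `y ∈ Y` and `0 < s ≤ 1` the point `(1 - s) ν + s δ_y` is in the simplex, so
`E ν ≤ (1-s)² E ν + 2 s (1-s) U y + s² k y y` with `U y = ∑ ν b k y b`; divide by `s` and let `s → 0`:
`0 ≤ 2 (U y - E ν)`. -/
def S_min : Prop :=
  ∀ (α : Type) (Y : Finset α), Y.Nonempty → ∀ k : α → α → ℝ, (∀ a b, k a b = k b a) →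
    ∃ ν : α → ℝ, (∀ y, 0 ≤ ν y) ∧ ∑ y ∈ Y, ν y = 1 ∧
      ∀ y ∈ Y, ∑ a ∈ Y, ∑ b ∈ Y, ν a * ν b * k a b ≤ ∑ b ∈ Y, ν b * k y b

/-- **L7 (the density).** `Ref K y = y - K` is compact, of volume `μ K = 1`, and
`μ (Ref K y ∩ Ref K y') = cov μ K (y - y')` (substitute `t = y - x`); expand the finite sums. -/
def S_dens : Prop :=
  ∀ (V : Type) [NormedAddCommGroup V] [InnerProductSpace ℝ V] [FiniteDimensional ℝ V]
    [MeasurableSpace V] [BorelSpace V] (μ : Measure V) [μ.IsAddHaarMeasure] (K : Set V),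
    Bd K → μ.real K = 1 → ∀ (Y : Finset V) (ν : V → ℝ),
    (∀ y, 0 ≤ ν y) → ∑ y ∈ Y, ν y = 1 →
    Measurable (dens K Y ν) ∧ (∀ t, 0 ≤ dens K Y ν t ∧ dens K Y ν t ≤ 1) ∧
    Integrable (dens K Y ν) μ ∧ ∫ t, dens K Y ν t ∂μ = 1 ∧
    ∫ t, dens K Y ν t ^ 2 ∂μ = ∑ y ∈ Y, ∑ y' ∈ Y, ν y * ν y' * cov μ K (y - y') ∧
    ∀ y, ∫ t in Ref K y, dens K Y ν t ∂μ = ∑ y' ∈ Y, ν y' * cov μ K (y - y')

/-- **L8 (the two cases).** Note `lo β f J = f`, and `lo β f J = lo β f j + ∑_{i=j+1}^J lev β f i`,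
`lo β f J = ∑_{i=0}^J lev β f i`. Suppose the first alternative fails. Then for `y ∈ P` the sum over
`i₀ ≤ i ≤ J` of `∫_{Ref K y} lev β f i` is `< (α/2) ∑ (1/2)^(i+1) < α/2` (or `≤`, the sum of the powers is
`< 1`). As `α ≤ ∫_{Ref K y} f` (and `α > 0`) `i₀ ≠ 0`, `i₀ = j + 1`, and
`∫_{Ref K y} G ≥ α/2` for all `y ∈ P`, `G = lo β f j ≤ β 4^j`. Let `k t` be the number of `y ∈ P` with
`t ∈ Ref K y`; then `1[k ≥ 1] ≥ 2 k - k²= k - ∑_{y ≠ y'} 1[t ∈ Ref K y ∩ Ref K y']`, so with `n = 4^(j+1)`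
`∫_{Qs K P} G ≥ ∑_y ∫_{Ref K y} G - ∑_{y ≠ y'} β 4^j μ (Ref K y ∩ Ref K y')
 ≥ n α/2 - n² β 4^j (1/4)^(2 j + 3) ≥ n α/4` (`μ (Ref K y ∩ Ref K y') = cov μ K (y - y')`,
`n² 4^j (1/4)^(2j+3) = 4^j/4 = n/16`, `β ≤ 2 α`). All functions are bounded by the integrable
function `f`, the sets are compact. -/
def S_game : Prop :=
  ∀ (V : Type) [NormedAddCommGroup V] [InnerProductSpace ℝ V] [FiniteDimensional ℝ V]
    [MeasurableSpace V] [BorelSpace V] (μ : Measure V) [μ.IsAddHaarMeasure] (K : Set V),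
    Bd K → μ.real K = 1 → ∀ (f : V → ℝ) (α β : ℝ) (J : ℕ), Measurable f →
    (∀ t, 0 ≤ f t) → Integrable f μ → 0 < β → β / 2 ≤ α → (∀ t, f t ≤ β * 4 ^ J) →
    ∀ (P : Finset V) (i₀ : ℕ), i₀ ≤ J → P.Nonempty →
    (∀ y ∈ P, α ≤ ∫ t in Ref K y, f t ∂μ) →
    (i₀ = 0 ∨ (P.card = 4 ^ i₀ ∧
      ∀ y ∈ P, ∀ y' ∈ P, y ≠ y' → cov μ K (y - y') ≤ (1 / 4) ^ (2 * i₀ + 1))) →
    (∃ i, i₀ ≤ i ∧ i ≤ J ∧ ∃ y ∈ P,
      (1 / 2) ^ (i + 1) * α / 2 ≤ ∫ t in Ref K y, lev β f i t ∂μ) ∨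
    (∃ j, i₀ = j + 1 ∧ 4 ^ (j + 1) * α / 4 ≤ ∫ t in Qs K P, lo β f j t ∂μ)

/-- **L9 (mass of the levels).** Pointwise: `lo` is `0` or `f`, `lev` is `0` or `f`,
`lev β f (i+1) t ≠ 0` only if `β 4^i < f t`, so `β 4^i lev β f (i+1) ≤ f²`, and `f² ≤ f` is integrable. -/
def S_mass : Prop :=
  ∀ (V : Type) [NormedAddCommGroup V] [InnerProductSpace ℝ V] [FiniteDimensional ℝ V]
    [MeasurableSpace V] [BorelSpace V] (μ : Measure V) (f : V → ℝ) (β : ℝ), Measurable f →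
    (∀ t, 0 ≤ f t) → (∀ t, f t ≤ 1) → Integrable f μ → 0 < β →
    (∀ i, Measurable (lo β f i) ∧ Integrable (lo β f i) μ ∧
      (∀ t, 0 ≤ lo β f i t ∧ lo β f i t ≤ β * 4 ^ i) ∧ ∫ t, lo β f i t ∂μ ≤ ∫ t, f t ∂μ) ∧
    (∀ i, Measurable (lev β f i) ∧ Integrable (lev β f i) μ ∧
      (∀ t, 0 ≤ lev β f i t ∧ lev β f i t ≤ β * 4 ^ i) ∧
      ∫ t, lev β f i t ∂μ ≤ ∫ t, f t ∂μ) ∧
    ∀ i, β * 4 ^ i * ∫ t, lev β f (i + 1) t ∂μ ≤ ∫ t, f t ^ 2 ∂μ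

/-- **L10 (number of cells of one depth class).** Variant of the library theorem `HR.count`
(`Pool/Graph/R_pool_sql_team_seeded_5cf16337/K3h52/HR/Count.lean`), with the same proof.
For `p ∈ F`, `p = (1-η) x'`: `dcap L η p ⊆ dcap L ζ p`, so `HR.beta` (with `HR.support`, see
`HR.good_card` in `NetM.lean`) gives
`β := VL / ((2/ζ + 1) (16/ζ)^d) ≤ μ (dcap L ζ p) μ (Mac L p)`. Let `c p = μ (dcap L ζ p)`, and let
`U p ⊆ dcap L ζ p` be the sets of `HR.central`. Steps A and B of `HR.count` (for `L`) show: a point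
`u` is in at most `κ = 2^(d+1) (8 ζ)^d VU / β` of the sets `U p`. New: `dcap L ζ p ⊆ (2 ζ) • pol D`,
as for `u ∈ dcap L ζ p`, `δ ∈ D`: `p + δ ∈ L`, so `⟪p, u⟫ + ⟪δ, u⟫ ≤ 1`, `⟪p, u⟫ ≥ 1 - 2 ζ`. Hence
(`HR.mult` with the set `P = pol L ∩ (2 ζ) • pol D`)
`∑ c p ≤ 2^(d+1) ∑ μ (U p) ≤ 2^(d+1) κ (2 ζ)^d μ (pol D)`. On the other hand
`c p ≥ β / μ (Mac L p) ≥ β / (Λ μ D)`. So `|F| β ≤ Λ μ D μ (pol D) 2^(2d+2) (16 ζ²)^d VU / β`,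
and `μ D μ (pol D) ≤ VU` gives the claim. -/
def S_count : Prop :=
  ∀ (V : Type) [NormedAddCommGroup V] [InnerProductSpace ℝ V] [FiniteDimensional ℝ V]
    [MeasurableSpace V] [BorelSpace V] (μ : Measure V) [μ.IsAddHaarMeasure] (K L D : Set V),
    Bd L → SB D → (∀ k ∈ K, ∀ δ ∈ D, k + δ ∈ L) → ∀ ζ : ℝ, 0 < ζ → ζ ≤ 1 →
    ∀ (VL VU Λ : ℝ), 0 < VL → 0 < Λ →
    (∀ S : Set V, SB S → VL ≤ μ.real S * μ.real (pol S)) →
    (∀ S : Set V, SB S → μ.real S * μ.real (pol S) ≤ VU) →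
    ∀ F : Finset V,
    (∀ p ∈ F, p ∈ K ∧ μ.real (Mac L p) ≤ Λ * μ.real D ∧
      ∃ η : ℝ, ζ / 2 ≤ η ∧ η ≤ ζ ∧ η < 1 ∧ ∃ x' ∈ L, x' ∉ interior L ∧ p = (1 - η) • x') →
    (∀ p ∈ F, ∀ q ∈ F, p ≠ q → Disjoint (Mth L p) (Mth L q)) →
    (F.card : ℝ) ≤ 4 * (2 / ζ + 1) ^ 2 * 16384 ^ finrank ℝ V * (VU / VL) ^ 2 * Λ

/-- **L11 (the net of cells).** To be proved from `S_count`. Note `K ⊆ L` (`0 ∈ D`). For
`x ∈ X`, `x ≠ 0` the gauge `g` of `L` at `x` is in `(0, 1 - 2^(-k)]`; `x = g x'` with `x' ∈ L` a boundary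
point, `η = 1 - g ∈ [2^(-k), 1)`. Let `X_j` (`j = 0, ..., k`) be the set of the `x ∈ X \ {0}` with
`2^(-j-1) ≤ η ≤ 2^(-j)`, `F_j ⊆ X_j` a subset of maximal cardinality with disjoint `Mth L p`;
`S_count` with `ζ = 2^(-j)` (`2/ζ + 1 ≤ 2 2^k + 1`) bounds its cardinality. `F = ⋃ F_j`, together with
`0` if `0 ∈ X`. If `x ∈ X_j` there is a `p ∈ F_j` with `x = p` or `Mth L x ∩ Mth L p ≠ ∅`, and then
`HR.mth_meet` gives the claim (for `x = p`: `2 x - x = x ∈ K ⊆ L`). -/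
def S_net : Prop :=
  ∀ (V : Type) [NormedAddCommGroup V] [InnerProductSpace ℝ V] [FiniteDimensional ℝ V]
    [MeasurableSpace V] [BorelSpace V] (μ : Measure V) [μ.IsAddHaarMeasure] (K L D : Set V),
    Bd K → Bd L → SB D → (∀ k ∈ K, ∀ δ ∈ D, k + δ ∈ L) →
    ∀ (VL VU Λ : ℝ), 0 < VL → 0 < Λ →
    (∀ S : Set V, SB S → VL ≤ μ.real S * μ.real (pol S)) →
    (∀ S : Set V, SB S → μ.real S * μ.real (pol S) ≤ VU) →
    ∀ (k : ℕ) (X : Finset V),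
    (∀ x ∈ X, x ∈ (1 - (1 / 2 : ℝ) ^ k) • K ∧ μ.real (Mac L x) ≤ Λ * μ.real D) →
    ∃ F ⊆ X, (F.card : ℝ) ≤
        1 + (k + 1) * (4 * (2 * 2 ^ k + 1) ^ 2 * 16384 ^ finrank ℝ V * (VU / VL) ^ 2 * Λ) ∧
      ∀ x ∈ X, ∃ p ∈ F, (2 : ℝ) • x - p ∈ L ∧ (2 : ℝ) • p - x ∈ L

/-- **L12 (bad translates).** To be proved from `S_cov1`, `S_D`. With `u = y - w`, `e = 10 m` the set
has the volume of `{u ∈ K | u + e ∉ l K} ⊆ (K \ (K - e)) ∪ ((K - e) \ (l K - e))`, and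
`μ (K \ (K - e)) = 1 - cov (-e) = 1 - cov e ≤ 10 c` (`S_D` with `k = 10`),
`μ ((K - e) \ (l K - e)) = 1 - l^d` (`l K ⊆ K` as `0 ∈ K`). -/
def S_bad : Prop :=
  ∀ (V : Type) [NormedAddCommGroup V] [InnerProductSpace ℝ V] [FiniteDimensional ℝ V]
    [MeasurableSpace V] [BorelSpace V] (μ : Measure V) [μ.IsAddHaarMeasure] (K : Set V),
    Bd K → μ.real K = 1 → ∀ (c l : ℝ), 0 < c → c < 1 → 0 ≤ l → l ≤ 1 →
    ∀ m ∈ Dc μ K c, ∀ y : V,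
    μ.real {w | y - w ∈ K ∧ y - w + (10 : ℝ) • m ∉ l • K} ≤ 10 * c + (1 - l ^ finrank ℝ V)

/-- **L13 (greedy choice of the translates).** Induction on `N`. Let
`φ p z = exp (score (Q p) S W z)` for the first `N` choices (bounded by `exp N`, measurable in `z` as the
sections of `{q | q.2 ∈ S q.1}` are measurable). If `F = ∅` the claim is trivial. Otherwise
`m = ∫ s ≥ κ > 0` (`m ≤ M`). For fixed `p ∈ F`, `z ∈ R p` and `a w = 1[w ∈ Q p]`,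
`b w = 1[w ∈ Q p ∧ z ∉ S w]` one has
`exp (2 b - a) = 1 - (1 - e⁻¹) a + (e - e⁻¹) b`, so
`∫ exp (2 b w - a w) s w dw = m - (1 - e⁻¹) ∫_Q s + (e - e⁻¹) ∫_{bad} s ≤ m - (1/2) κ'`,
`κ' = ∫_Q s ≥ κ`, because `∫_{bad} s ≤ κ/20` and `(1 - e⁻¹) - (e - e⁻¹)/20 ≥ 1/2`. Hence
(Fubini / Tonelli) `∫ (∑_p ∫_{R p} φ p z exp (2 b - a) dz) s w dw ≤ (m - κ/2) ∑_p ∫_{R p} φ p z dz`,
so there is a `w` for which the inner sum is at most
`(1 - κ/(2 m)) ∑_p ∫ φ p ≤ (1 - κ/(2 M)) ∑_p ∫ φ p`. -/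
def S_greedy : Prop :=
  ∀ (V : Type) [NormedAddCommGroup V] [InnerProductSpace ℝ V] [FiniteDimensional ℝ V]
    [MeasurableSpace V] [BorelSpace V] (μ : Measure V) [SFinite μ] (s : V → ℝ), Measurable s →
    (∀ t, 0 ≤ s t) → Integrable s μ → ∀ (M κ : ℝ), ∫ t, s t ∂μ ≤ M → 0 < κ → 0 < M →
    ∀ (F : Finset V) (Q : V → Set V) (S : V → Set V) (R : V → Set V),
    (∀ p ∈ F, MeasurableSet (Q p) ∧ κ ≤ ∫ t in Q p, s t ∂μ) →
    (∀ p ∈ F, MeasurableSet (R p) ∧ μ (R p) ≠ ⊤) →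
    MeasurableSet {q : V × V | q.2 ∈ S q.1} →
    (∀ p ∈ F, ∀ z ∈ R p, ∫ t in {w | w ∈ Q p ∧ z ∉ S w}, s t ∂μ ≤ κ / 20) →
    ∀ N : ℕ, ∃ W : Fin N → V,
      ∑ p ∈ F, ∫ z in R p, Real.exp (score (Q p) S W z) ∂μ ≤
        (1 - κ / (2 * M)) ^ N * ∑ p ∈ F, μ.real (R p)

/-- **L14 (an uncovered point makes the potential large).** `score` is measurable and bounded by `N`.
Let `g δ = score Q S W (z + δ)`. For `δ ∈ D`: `g δ + g (-δ) ≥ 0`, because for each `j` with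
`W j ∈ Q` not both of `z + δ`, `z - δ` are in the convex set `S (W j)`, as `z` is not. So
`exp (g δ) + exp (g (-δ)) ≥ 2`. Integrate over `D = -D`:
`∫_D exp (g δ) = (1/2) ∫_D (exp (g δ) + exp (g (-δ))) ≥ μ D`, and the left side is the integral of
`exp (score ..)` over `z + D ⊆ R`. -/
def S_cell : Prop :=
  ∀ (V : Type) [NormedAddCommGroup V] [InnerProductSpace ℝ V] [FiniteDimensional ℝ V]
    [MeasurableSpace V] [BorelSpace V] (μ : Measure V) [μ.IsAddHaarMeasure] (D Q R : Set V)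
    (S : V → Set V) (N : ℕ) (W : Fin N → V) (z : V),
    IsCompact D → (∀ δ ∈ D, -δ ∈ D) → MeasurableSet Q → (∀ w, MeasurableSet (S w)) →
    (∀ w, Convex ℝ (S w)) → MeasurableSet R → μ R ≠ ⊤ →
    (∀ δ ∈ D, z + δ ∈ R) → (∀ j, z ∉ S (W j)) →
    μ.real D ≤ ∫ v in R, Real.exp (score Q S W v) ∂μ

/-- **L15 (covering the cells of one type).** To be proved from `S_D`, `S_net`, `S_bad`, `S_greedy`,
`S_cell`. Let `D = Dc μ K c`, `L = K + D` (`Bd L`), `F ⊆ X` from `S_net`,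
`Q p = Qs K (P p)`, `S = St K l`, and
`R p = {z | z - p ∈ 3 • Mac L p} ∩ {z | ∃ κ ∈ K, ∃ m ∈ D, z = (1/2) (p + κ) + (5/2) m}` (compact),
`μ (R p) ≤ 3^d μ (Mac L p) ≤ 3^d Λ μ D`.
*Bad translates.* Let `z = (p + κ₁)/2 + (5/2) m ∈ R p`, `w ∈ Q p`, `y ∈ P p` with `u = y - w ∈ K`,
`κ₂ = 2 p - y ∈ K`. Then `z - w/4 = (u + 10 m)/4 + κ₂/4 + κ₁/2`, so if `u + 10 m ∈ l K` then
`z ∈ St K l w`. So `{w ∈ Q p | z ∉ S w}` is in the union over `y ∈ P p` of the sets of `S_bad`, and the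
integral of `s` over it is at most `H n (10 c + 1 - l^d) ≤ κ/20`.
*Greedy choice.* `S_greedy` gives `W` with `∑_p ∫_{R p} exp (score ..) ≤ (1 - κ/(2M))^N |F| 3^d Λ μ D < μ D`
(if `F = ∅`, then `X = ∅`; if not, `κ ≤ ∫_Q s ≤ M`, so `0 ≤ 1 - κ/(2M)`). `T` = the set of the `W j`.
*Cells.* Let `x ∈ X`, `m ∈ D`, `z = x + m`, and let `p ∈ F` with `2 x - p, 2 p - x ∈ L`. For `δ ∈ D` the
point `z + δ` is in `R p`: `z + δ - p = (x - p) + (m + δ)`, `x - p ∈ Mac L p` (`p + (x - p) = x ∈ K`,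
`p - (x - p) = 2 p - x`), `m + δ ∈ 2 D ⊆ 2 Mac L p`; and `2 x - p = κ₁ + δ₁` gives
`z + δ = (p + κ₁)/2 + (δ₁/2 + m + δ)`, `δ₁/2 + m + δ ∈ (5/2) D`. If `z` is in no `S (W j)`, `S_cell`
gives `μ D ≤ ∫_{R p} exp (score ..) < μ D`. -/
def S_type : Prop :=
  ∀ (V : Type) [NormedAddCommGroup V] [InnerProductSpace ℝ V] [FiniteDimensional ℝ V]
    [MeasurableSpace V] [BorelSpace V] (μ : Measure V) [μ.IsAddHaarMeasure] (K : Set V),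
    Bd K → μ.real K = 1 → 1 ≤ finrank ℝ V → ∀ c : ℝ, 0 < c → c < 1 →
    ∀ (VL VU Λ : ℝ), 0 < VL → 0 < Λ →
    (∀ S : Set V, SB S → VL ≤ μ.real S * μ.real (pol S)) →
    (∀ S : Set V, SB S → μ.real S * μ.real (pol S) ≤ VU) →
    ∀ (k n : ℕ) (l H M κ : ℝ), 0 ≤ l → l ≤ 1 → 0 ≤ H → 0 < M → 0 < κ →
    ∀ s : V → ℝ, Measurable s → (∀ t, 0 ≤ s t ∧ s t ≤ H) → Integrable s μ →
    ∫ t, s t ∂μ ≤ M → H * n * (10 * c + (1 - l ^ finrank ℝ V)) ≤ κ / 20 →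
    ∀ (X : Finset V) (P : V → Finset V),
    (∀ x ∈ X, x ∈ (1 - (1 / 2 : ℝ) ^ k) • K ∧
      μ.real (Mac (K + Dc μ K c) x) ≤ Λ * μ.real (Dc μ K c) ∧
      (P x).card ≤ n ∧ (∀ y ∈ P x, (2 : ℝ) • x - y ∈ K) ∧ κ ≤ ∫ t in Qs K (P x), s t ∂μ) →
    ∀ N : ℕ, (1 + (k + 1) * (4 * (2 * 2 ^ k + 1) ^ 2 * 16384 ^ finrank ℝ V *
      (VU / VL) ^ 2 * Λ)) * (3 ^ finrank ℝ V * Λ) * (1 - κ / (2 * M)) ^ N < 1 →
    ∃ T : Finset V, T.card ≤ N ∧ ∀ x ∈ X, ∀ m ∈ Dc μ K c, ∃ w ∈ T, x + m ∈ St K l w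

/-- **L16 (every point is admissible on the highest level).** To be proved from `S_D` (`D = Dc μ K c`).
`Mac (K + D) x ⊆ {a | x + a ∈ K + D}`, of volume `μ (K + D)`. `D ⊆ K - K`, and for `k₀ ∈ K`
`K ⊆ k₀ + (K - K)`, so `K + D ⊆ k₀ + 2 (K - K)`, `μ (K + D) ≤ 2^d μ (K - K)`; and
`(c/d) (K - K) ⊆ D` gives `μ (K - K) ≤ (d/c)^d μ D`. -/
def S_top : Prop :=
  ∀ (V : Type) [NormedAddCommGroup V] [InnerProductSpace ℝ V] [FiniteDimensional ℝ V]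
    [MeasurableSpace V] [BorelSpace V] (μ : Measure V) [μ.IsAddHaarMeasure] (K : Set V),
    Bd K → μ.real K = 1 → 1 ≤ finrank ℝ V → ∀ c : ℝ, 0 < c → c < 1 → ∀ x : V,
    μ.real (Mac (K + Dc μ K c) x) ≤ (2 * finrank ℝ V / c) ^ finrank ℝ V * μ.real (Dc μ K c)

/-- **L17 (numerics).** Take `N i = ⌈80 d (i + 1) 2^(d+5) / 2^i⌉₊ + 1`. Since
`(1 - r/2)^N ≤ exp (- N r/2) ≤ exp (-80 d (i+1))` it suffices that the product of the first two factors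
is `< exp (80 d (i+1))`. Its logarithm is at most (`k = 15 + 5d`)
`log (2 (k + 1)) + log 4 + 2 (k + 2) log 2 + d log 16384 + 2 log ρ + 2 · 19 (i+1) d log 2 + d log 3`
and `log ρ ≤ 1 + log d + 0.5626 d`; this is at most `76 d (i+1)`
(`6.94 + 9.71 + 1.13 + 1.1 = 18.88`, `38 log 2 ≤ 26.35`, the rest is `≤ 31 d`).
Sums: `∑_{i≥0} (i+1)/2^i = 4`, `∑_{i≥1} (i+1)/2^i = 3`, so the total is at most
`80 · 32 · 7 d 2^d + 2 (2 d + 1) ≤ 17923 d 2^d`. -/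
def S_num : Prop :=
  ∀ (d : ℕ), 1 ≤ d → ∀ ρ : ℝ, 0 ≤ ρ → ρ ≤ Real.exp 1 * d * 1.7551 ^ d →
    ∃ N : ℕ → ℕ,
      (∀ i : ℕ, ∀ r : ℝ, (2 : ℝ) ^ i / (16 * 2 ^ d) ≤ r → r ≤ 2 →
        (1 + (((15 + 5 * d : ℕ) : ℝ) + 1) * (4 * (2 * 2 ^ (15 + 5 * d) + 1) ^ 2 * 16384 ^ d *
          ρ ^ 2 * (2 ^ (19 * (i + 1))) ^ d)) * (3 ^ d * (2 ^ (19 * (i + 1))) ^ d) *
          (1 - r / 2) ^ (N i) < 1) ∧
      (∑ i ∈ Finset.range (d + 1), (N i : ℝ)) + ∑ i ∈ Finset.range d, (N (i + 1) : ℝ) ≤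
        18000 * d * 2 ^ d

/-- The scales. -/
noncomputable def cc (i : ℕ) : ℝ := (1 / 2) ^ (12 + 4 * i)

/-- **L20 (levels).** To be proved from `S_D`, `S_rich`, `S_top`. Call `x` `j`-admissible if
`μ (Mac (K + Dc (cc j)) x) ≤ (2^(19 (j+1)))^d μ (Dc (cc j))`. By `S_top` `x` is `d`-admissible
(`2 d / cc d = 2 d 2^(12 + 4 d) ≤ 2^(19 (d+1))`, `d < 2^d`). Let `i₀ ≤ d` be minimal such that `x` is `j`-admissible for
all `i₀ ≤ j ≤ d`. If `i₀ = 0` take `P = {x}`. Otherwise `x` is not `(i₀ - 1)`-admissible; apply `S_rich`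
with `n = 4^i₀`, `c = cc (i₀ - 1)`, `ε = (1/16)^i₀ / 8`:
`log (1/ε) = log 8 + i₀ log 16 ≤ 2^(i₀ + 2)`, `1/c = 2^(8 + 4 i₀)`, so
`n (log (1/ε)/c)^d ≤ (2^(2 i₀))^d (2^(5 i₀ + 10))^d ≤ (2^(19 i₀))^d`; and
`ε + 2 c = (1/16)^i₀ (1/8 + 2^(-7)) ≤ (1/4)^(2 i₀ + 1)`. `Dc μ K (cc (i₀-1)) ⊆ Dc μ K (cc 0)` as
`cc (i₀ - 1) ≤ cc 0`. -/
def S_level : Prop :=
  ∀ (V : Type) [NormedAddCommGroup V] [InnerProductSpace ℝ V] [FiniteDimensional ℝ V]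
    [MeasurableSpace V] [BorelSpace V] (μ : Measure V) [μ.IsAddHaarMeasure] (K : Set V),
    Bd K → μ.real K = 1 → 1 ≤ finrank ℝ V → ∀ x ∈ K,
    ∃ i₀ ≤ finrank ℝ V, ∃ P : Finset V, P.Nonempty ∧ P.card ≤ 4 ^ i₀ ∧
      (∀ y ∈ P, (2 : ℝ) • x - y ∈ K ∧ y ∈ K + (2 : ℝ) • Dc μ K (cc 0)) ∧
      (i₀ = 0 ∨ (P.card = 4 ^ i₀ ∧
        ∀ y ∈ P, ∀ y' ∈ P, y ≠ y' → cov μ K (y - y') ≤ (1 / 4) ^ (2 * i₀ + 1))) ∧
      ∀ j, i₀ ≤ j → j ≤ finrank ℝ V →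
        μ.real (Mac (K + Dc μ K (cc j)) x) ≤
          (2 ^ (19 * (j + 1))) ^ finrank ℝ V * μ.real (Dc μ K (cc j))

/-- **L18 (covering a slightly smaller copy).** -/
def S_cover : Prop :=
  ∀ (V : Type) [NormedAddCommGroup V] [InnerProductSpace ℝ V] [FiniteDimensional ℝ V]
    [MeasurableSpace V] [BorelSpace V] (μ : Measure V) [μ.IsAddHaarMeasure] (K : Set V),
    Bd K → μ.real K = 1 → 1 ≤ finrank ℝ V → ∀ (VL VU : ℝ), 0 < VL →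
    (∀ S : Set V, SB S → VL ≤ μ.real S * μ.real (pol S)) →
    (∀ S : Set V, SB S → μ.real S * μ.real (pol S) ≤ VU) →
    VU / VL ≤ Real.exp 1 * finrank ℝ V * 1.7551 ^ finrank ℝ V →
    ∃ T : Finset V, (T.card : ℝ) ≤ 18000 * finrank ℝ V * 2 ^ finrank ℝ V ∧
      ∀ z ∈ (1 - (1 / 2 : ℝ) ^ (15 + 5 * finrank ℝ V)) • K, ∃ w ∈ T,
        z ∈ St K (1 - 8 * (1 / 2) ^ (15 + 5 * finrank ℝ V)) w

/-- **L19 (the theorem).** To be proved from `S_cover`. Choose a point of the interior of `K` as origin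
(`A = c + K`), `μ = (vol K)⁻¹ • volume` (a Haar measure), `VL = (vol K)⁻² 3.58^d/d!`,
`VU = (vol K)⁻² (2πe/d)^d` (`HR.vp_lower`, `Pool.Agent.H845R2.santalo_bound`, `HR.ratio` in
`Pool/Graph/R_pool_sql_team_seeded_5cf16337/K3h52/HR/Num.lean`). With `ζ = (1/2)^(15+5d)`:
`St K (1 - 8 ζ) w = w/4 + (1 - 2 ζ) K`. So
`(1 - ζ) K ⊆ ⋃ (w/4 + (1 - 2 ζ) K)`, `K ⊆ ⋃ (w/(4 (1-ζ)) + ((1 - 2ζ)/(1-ζ)) K)` and
`((1 - 2ζ)/(1-ζ)) K ⊆ interior K` since `0 ∈ interior K`. -/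
def S_main : Prop :=
  ∀ (d : ℕ), 1 ≤ d → ∀ K : Set (EuclideanSpace ℝ (Fin d)), Convex ℝ K → IsCompact K →
    (interior K).Nonempty →
    ∃ T : Finset (EuclideanSpace ℝ (Fin d)),
      K ⊆ ⋃ t ∈ T, (fun x => t + x) '' interior K ∧ (T.card : ℝ) ≤ 18000 * d * 2 ^ d

end Pool.Agent.H777.LB
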