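import Pool.Agent.H777.LB.Defs

set_option autoImplicit false
set_option linter.unusedSectionVars false

/-! L7: the density (helper52). -/

namespace Pool.Agent.H777.LB

open scoped RealInnerProductSpace Pointwise
open Module MeasureTheory
open Pool.Agent.K3h52.HR (Bd)

section dens

variable {V : Type} [NormedAddCommGroup V] [InnerProductSpace ℝ V] [FiniteDimensional ℝ V]
  [MeasurableSpace V] [BorelSpace V]

theorem dens_meas_ref {K : Set V} (hK : Bd K) (y : V) : MeasurableSet (Ref K y) :=
  (hK.comp.isClosed.preimage (continuous_const.sub continuous_id)).measurableSet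

theorem dens_vol_pre (μ : Measure V) [μ.IsAddHaarMeasure] (y : V) {S : Set V}
    (hS : MeasurableSet S) : μ.real {t | y - t ∈ S} = μ.real S := by
  have h := (Measure.measurePreserving_sub_left μ y).measure_preimage hS.nullMeasurableSet
  unfold Measure.real
  rw [← h]
  rfl

theorem dens_inter (μ : Measure V) [μ.IsAddHaarMeasure] {K : Set V} (hK : Bd K) (y y' : V) :
    μ.real (Ref K y ∩ Ref K y') = cov μ K (y - y') := by
  have hS : MeasurableSet {x | x ∈ K ∧ x - (y - y') ∈ K} :=
    hK.comp.isClosed.measurableSet.inter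
      (hK.comp.isClosed.preimage (continuous_id.sub continuous_const)).measurableSet
  have h := dens_vol_pre μ y hS
  unfold cov
  rw [← h]
  congr 1
  ext t
  simp only [Ref, Set.mem_inter_iff, Set.mem_ofPred_eq]
  rw [show y - t - (y - y') = y' - t by abel]

theorem dens_vol (μ : Measure V) [μ.IsAddHaarMeasure] {K : Set V} (hK : Bd K) (y : V) :
    μ.real (Ref K y) = μ.real K :=
  dens_vol_pre μ y hK.comp.isClosed.measurableSet

theorem dens_ne_top (μ : Measure V) [μ.IsAddHaarMeasure] {K : Set V} (hK : Bd K) (y : V) :
    μ (Ref K y) ≠ ⊤ := by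
  have h := (Measure.measurePreserving_sub_left μ y).measure_preimage
    hK.comp.isClosed.measurableSet.nullMeasurableSet
  have e : (fun t => y - t) ⁻¹' K = Ref K y := rfl
  rw [← e, h]
  exact hK.comp.measure_ne_top

theorem dens_int_ind (μ : Measure V) {S : Set V} (hS : MeasurableSet S) :
    ∫ t, S.indicator (fun _ => (1 : ℝ)) t ∂μ = μ.real S := by
  rw [integral_indicator hS, setIntegral_const, smul_eq_mul, mul_one]

theorem dens_integrable_ind (μ : Measure V) {S : Set V} (hS : MeasurableSet S) (h : μ S ≠ ⊤) :
    Integrable (S.indicator (fun _ => (1 : ℝ))) μ :=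
  (integrable_indicator_iff hS).2 (integrableOn_const h)

end dens

theorem pf_dens : S_dens := by
  intro V _ _ _ _ _ μ _ K hK hvol Y ν hν hsum
  have hm := fun y => dens_meas_ref (K := K) hK y
  have hfin := fun y => dens_ne_top μ hK y
  have hmeas : Measurable (dens K Y ν) := by
    unfold dens
    exact Finset.measurable_sum _ fun y _ => (measurable_const.indicator (hm y)).const_mul _
  have hii := fun y => dens_integrable_ind μ (hm y) (hfin y)
  have hind0 : ∀ (S : Set V) (t : V), 0 ≤ S.indicator (fun _ => (1 : ℝ)) t := fun S t =>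
    Set.indicator_nonneg (fun _ _ => zero_le_one) t
  have hind1 : ∀ (S : Set V) (t : V), S.indicator (fun _ => (1 : ℝ)) t ≤ 1 := fun S t =>
    Set.indicator_le_self' (fun _ _ => zero_le_one) t
  have hmul : ∀ (S T : Set V) (t : V), S.indicator (fun _ => (1 : ℝ)) t *
      T.indicator (fun _ => (1 : ℝ)) t = (S ∩ T).indicator (fun _ => (1 : ℝ)) t := by
    intro S T t
    rw [← Set.indicator_indicator]
    by_cases h : t ∈ S
    · rw [Set.indicator_of_mem h, Set.indicator_of_mem h, one_mul]
    · rw [Set.indicator_of_notMem h, Set.indicator_of_notMem h, zero_mul]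
  have hint : Integrable (dens K Y ν) μ := by
    unfold dens
    exact integrable_finsetSum _ fun y _ => (hii y).const_mul _
  refine ⟨hmeas, fun t => ⟨?_, ?_⟩, hint, ?_, ?_, fun y => ?_⟩
  · exact Finset.sum_nonneg fun y _ => mul_nonneg (hν y) (hind0 _ _)
  · rw [← hsum]
    refine Finset.sum_le_sum fun y _ => ?_
    exact mul_le_of_le_one_right (hν y) (hind1 _ _)
  · unfold dens
    rw [integral_finsetSum _ fun y _ => (hii y).const_mul _]
    refine Eq.trans (Finset.sum_congr rfl fun y _ => ?_) hsum
    rw [integral_const_mul, dens_int_ind μ (hm y), dens_vol μ hK, hvol, mul_one]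
  · have e : ∀ t, dens K Y ν t ^ 2 = ∑ y ∈ Y, ∑ y' ∈ Y,
        ν y * ν y' * (Ref K y ∩ Ref K y').indicator (fun _ => (1 : ℝ)) t := by
      intro t
      unfold dens
      rw [sq, Finset.sum_mul_sum]
      refine Finset.sum_congr rfl fun y _ => Finset.sum_congr rfl fun y' _ => ?_
      rw [← hmul]
      ring
    simp_rw [e]
    have hi2 : ∀ y y', Integrable (fun t => ν y * ν y' *
        (Ref K y ∩ Ref K y').indicator (fun _ => (1 : ℝ)) t) μ := fun y y' =>
      (dens_integrable_ind μ ((hm y).inter (hm y')) (ne_top_of_le_ne_top (hfin y)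
        (measure_mono Set.inter_subset_left))).const_mul _
    rw [integral_finsetSum _ fun y _ => integrable_finsetSum _ fun y' _ => hi2 y y']
    refine Finset.sum_congr rfl fun y _ => ?_
    rw [integral_finsetSum _ fun y' _ => hi2 y y']
    refine Finset.sum_congr rfl fun y' _ => ?_
    rw [integral_const_mul, dens_int_ind μ ((hm y).inter (hm y')), dens_inter μ hK]
  · rw [← integral_indicator (hm y)]
    have e : ∀ t, (Ref K y).indicator (dens K Y ν) t = ∑ y' ∈ Y,
        ν y' * (Ref K y ∩ Ref K y').indicator (fun _ => (1 : ℝ)) t := by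
      intro t
      have h1 : (Ref K y).indicator (dens K Y ν) t =
          (Ref K y).indicator (fun _ => (1 : ℝ)) t * dens K Y ν t := by
        by_cases h : t ∈ Ref K y
        · rw [Set.indicator_of_mem h, Set.indicator_of_mem h, one_mul]
        · rw [Set.indicator_of_notMem h, Set.indicator_of_notMem h, zero_mul]
      rw [h1]
      unfold dens
      rw [Finset.mul_sum]
      refine Finset.sum_congr rfl fun y' _ => ?_
      rw [← hmul]
      ring
    simp_rw [e]
    have hi2 : ∀ y', Integrable (fun t => ν y' *
        (Ref K y ∩ Ref K y').indicator (fun _ => (1 : ℝ)) t) μ := fun y' =>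
      (dens_integrable_ind μ ((hm y).inter (hm y')) (ne_top_of_le_ne_top (hfin y)
        (measure_mono Set.inter_subset_left))).const_mul _
    rw [integral_finsetSum _ fun y' _ => hi2 y']
    refine Finset.sum_congr rfl fun y' _ => ?_
    rw [integral_const_mul, dens_int_ind μ ((hm y).inter (hm y')), dens_inter μ hK]

end Pool.Agent.H777.LB
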