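import Pool.Agent.H777.LB.Defs

set_option autoImplicit false
set_option linter.unusedVariables false

namespace Pool.Agent.H777.LB

open scoped RealInnerProductSpace Pointwise
open Module MeasureTheory
open Pool.Agent.H845R2 (SB pol)
open Pool.Agent.K3h52.HR (Bd Mac Mth dcap)

/-- The Gram matrix of indicator functions is positive semidefinite. -/
theorem en_psd {V ι : Type} [MeasurableSpace V] (μ : Measure V) (s : Finset ι) (a : ι → ℝ)
    (A : ι → Set V) (hA : ∀ i ∈ s, MeasurableSet (A i)) (hf : ∀ i ∈ s, μ (A i) ≠ ⊤) :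
    0 ≤ ∑ i ∈ s, ∑ j ∈ s, a i * a j * μ.real (A i ∩ A j) := by
  have key : ∫ t, (∑ i ∈ s, a i * (A i).indicator (fun _ => (1 : ℝ)) t) ^ 2 ∂μ =
      ∑ i ∈ s, ∑ j ∈ s, a i * a j * μ.real (A i ∩ A j) := by
    have h1 : ∀ t, (∑ i ∈ s, a i * (A i).indicator (fun _ => (1 : ℝ)) t) ^ 2 =
        ∑ i ∈ s, ∑ j ∈ s, a i * a j * (A i ∩ A j).indicator (fun _ => (1 : ℝ)) t := by
      intro t
      rw [sq, Finset.sum_mul_sum]
      refine Finset.sum_congr rfl fun i _ => Finset.sum_congr rfl fun j _ => ?_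
      have : (A i ∩ A j).indicator (fun _ => (1 : ℝ)) t =
          (A i).indicator (fun _ => (1 : ℝ)) t * (A j).indicator (fun _ => (1 : ℝ)) t := by
        by_cases hi : t ∈ A i <;> by_cases hj : t ∈ A j <;> simp [Set.indicator, hi, hj]
      rw [this]
      ring
    simp only [h1]
    have hint : ∀ i ∈ s, ∀ j ∈ s,
        Integrable (fun t => a i * a j * (A i ∩ A j).indicator (fun _ => (1 : ℝ)) t) μ := by
      intro i hi j hj
      refine Integrable.const_mul ?_ _
      refine (integrable_indicator_iff ((hA i hi).inter (hA j hj))).2 ?_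
      exact integrableOn_const ((measure_mono Set.inter_subset_left).trans_lt
        (hf i hi).lt_top).ne
    rw [integral_finsetSum _ (fun i hi => integrable_finsetSum _ (fun j hj => hint i hi j hj))]
    refine Finset.sum_congr rfl fun i hi => ?_
    rw [integral_finsetSum _ (fun j hj => hint i hi j hj)]
    refine Finset.sum_congr rfl fun j hj => ?_
    rw [integral_const_mul, integral_indicator_const _ ((hA i hi).inter (hA j hj)), smul_eq_mul,
      mul_one]
  rw [← key]
  exact integral_nonneg fun t => sq_nonneg _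

section

variable {V : Type} [NormedAddCommGroup V] [InnerProductSpace ℝ V] [FiniteDimensional ℝ V]
  [MeasurableSpace V] [BorelSpace V]

theorem en_inter (μ : Measure V) [μ.IsAddHaarMeasure] (K : Set V) (y y' : V) :
    μ.real ({x | x - y ∈ K} ∩ {x | x - y' ∈ K}) = cov μ K (y - y') := by
  have h1 : {x | x - y ∈ K} ∩ {x | x - y' ∈ K} =
      (fun t => t + (-y')) ⁻¹' {x | x ∈ K ∧ x - (y - y') ∈ K} := by
    ext t
    simp only [Set.mem_inter_iff, Set.mem_ofPred_eq, Set.mem_preimage]
    have e1 : t + -y' = t - y' := by abel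
    have e2 : t + -y' - (y - y') = t - y := by abel
    rw [e1] at *
    rw [e2]
    exact And.comm
  rw [h1, measureReal_def, measure_preimage_add_right]
  rfl

theorem en_low (μ : Measure V) [μ.IsAddHaarMeasure] {K : Set V} (hK : Bd K) (y k e : V)
    (hk : k ∈ K) (hy : k + e = y) :
    cov μ K e ≤ μ.real ({x | x - y ∈ K} ∩ (2 : ℝ) • K) := by
  have h1 : cov μ K e = μ.real ((fun t => t + (-k)) ⁻¹' {x | x ∈ K ∧ x - e ∈ K}) := by
    rw [measureReal_def, measure_preimage_add_right]
    rfl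
  rw [h1]
  refine measureReal_mono ?_ ?_
  · intro t ht
    simp only [Set.mem_preimage, Set.mem_ofPred_eq] at ht
    obtain ⟨h2, h3⟩ := ht
    refine ⟨?_, ?_⟩
    · simp only [Set.mem_ofPred_eq]
      have : t - y = t + -k - e := by rw [← hy]; abel
      rw [this]
      exact h3
    · refine ⟨(1 / 2 : ℝ) • k + (1 / 2 : ℝ) • (t + -k), ?_, ?_⟩
      · exact hK.conv hk h2 (by norm_num) (by norm_num) (by norm_num)
      · simp only []
        rw [← smul_add, smul_smul]
        norm_num
  · refine (lt_of_le_of_lt (measure_mono Set.inter_subset_right) ?_).ne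
    exact (hK.comp.smul (2 : ℝ)).measure_lt_top

end

theorem pf_energy (h1 : S_cov1) (h3 : S_D) : S_energy := by
  intro V _ _ _ _ _ μ _ K hK hμ c hc hc4 Y ν hν hsum hY
  classical
  obtain ⟨hcov0, -, -, -, -, -⟩ := h1 V μ K hK hμ
  -- lower bound for the mass in `2 K`
  have hlow : ∀ y ∈ Y, 1 - 2 * c ≤ μ.real ({x | x - y ∈ K} ∩ (2 : ℝ) • K) := by
    intro y hy
    obtain ⟨k, hk, e, ⟨m, hm, hme⟩, hke⟩ := Set.mem_add.1 (hY y hy)
    refine le_trans ?_ (en_low μ hK y k e hk hke)
    rcases Nat.eq_zero_or_pos (finrank ℝ V) with h0 | h0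
    · have : Subsingleton V := finrank_zero_iff.1 h0
      have he : e = 0 := Subsingleton.elim _ _
      rw [he, hcov0]
      linarith
    · have h4 := (h3 V μ K hK hμ h0 c hc (by linarith)).2.2.2.1 2 m hm
      simp only at hme
      push_cast at h4
      rw [← hme]
      exact h4
  set L : ℝ := (1 / 2) ^ finrank ℝ V * (1 - 2 * c) with hL
  have hvol : μ.real ((2 : ℝ) • K) = 2 ^ finrank ℝ V := by
    rw [Pool.Agent.K3h52.HR.vol_smul μ (by norm_num), hμ, mul_one]
  have hpsd := en_psd μ (Finset.insertNone Y) (fun o => o.elim (-L) ν)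
    (fun o => o.elim ((2 : ℝ) • K) (fun y => {x | x - y ∈ K})) ?_ ?_
  · rw [Finset.sum_insertNone] at hpsd
    simp only [Finset.sum_insertNone, Option.elim] at hpsd
    simp only [Set.inter_self, hvol, en_inter] at hpsd
    have e1 : ∑ x ∈ Y, -L * ν x * μ.real ((2 : ℝ) • K ∩ {x_1 | x_1 - x ∈ K}) =
        -(L * ∑ x ∈ Y, ν x * μ.real ({x_1 | x_1 - x ∈ K} ∩ (2 : ℝ) • K)) := by
      rw [Finset.mul_sum, ← Finset.sum_neg_distrib]
      refine Finset.sum_congr rfl fun x _ => ?_
      rw [Set.inter_comm]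
      ring
    rw [Finset.sum_add_distrib] at hpsd
    have e2 : ∑ x ∈ Y, ν x * -L * μ.real ({x_1 | x_1 - x ∈ K} ∩ (2 : ℝ) • K) =
        -(L * ∑ x ∈ Y, ν x * μ.real ({x_1 | x_1 - x ∈ K} ∩ (2 : ℝ) • K)) := by
      rw [Finset.mul_sum, ← Finset.sum_neg_distrib]
      refine Finset.sum_congr rfl fun x _ => ?_
      ring
    rw [e1, e2] at hpsd
    have e3 : 1 - 2 * c ≤ ∑ x ∈ Y, ν x * μ.real ({x_1 | x_1 - x ∈ K} ∩ (2 : ℝ) • K) := by
      calc 1 - 2 * c = ∑ x ∈ Y, ν x * (1 - 2 * c) := by rw [← Finset.sum_mul, hsum, one_mul]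
        _ ≤ _ := Finset.sum_le_sum fun x hx => mul_le_mul_of_nonneg_left (hlow x hx) (hν x)
    have hL0 : 0 ≤ L := by
      rw [hL]
      have : 0 ≤ 1 - 2 * c := by linarith
      positivity
    have e4 := mul_le_mul_of_nonneg_left e3 hL0
    have e5 : (1 / 2 : ℝ) ^ finrank ℝ V * 2 ^ finrank ℝ V = 1 := by
      rw [← mul_pow]; norm_num
    have e6 : -L * -L * 2 ^ finrank ℝ V = (1 / 2) ^ finrank ℝ V * (1 - 2 * c) ^ 2 := by
      calc -L * -L * 2 ^ finrank ℝ V =
          ((1 / 2 : ℝ) ^ finrank ℝ V * 2 ^ finrank ℝ V) *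
            ((1 / 2) ^ finrank ℝ V * (1 - 2 * c) ^ 2) := by rw [hL]; ring
        _ = _ := by rw [e5, one_mul]
    have e7 : L * (1 - 2 * c) = (1 / 2) ^ finrank ℝ V * (1 - 2 * c) ^ 2 := by
      rw [hL]; ring
    rw [e6] at hpsd
    rw [e7] at e4
    nlinarith [hpsd, e4]
  · intro o ho
    cases o with
    | none => exact (hK.comp.smul (2 : ℝ)).isClosed.measurableSet
    | some y => exact (hK.comp.isClosed.preimage (by fun_prop)).measurableSet
  · intro o ho
    cases o with
    | none => exact (hK.comp.smul (2 : ℝ)).measure_lt_top.ne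
    | some y =>
      simp only [Option.elim]
      have : {x | x - y ∈ K} = (fun t => t + (-y)) ⁻¹' K := by
        ext t
        simp [sub_eq_add_neg]
      rw [this, measure_preimage_add_right]
      exact hK.comp.measure_lt_top.ne

end Pool.Agent.H777.LB
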