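import Pool.Agent.H777.LB.Defs

set_option autoImplicit false
set_option linter.unusedSectionVars false

namespace Pool.Agent.H777.LB

open scoped RealInnerProductSpace Pointwise
open Module MeasureTheory
open Pool.Agent.H845R2 (SB pol)
open Pool.Agent.K3h52.HR (Bd Mac Mth dcap)

section game

variable {V : Type} [NormedAddCommGroup V] [InnerProductSpace ℝ V] [FiniteDimensional ℝ V]
  [MeasurableSpace V] [BorelSpace V]

theorem game_refl (μ : Measure V) [μ.IsAddHaarMeasure] (c : V) (A : Set V) :
    μ.real {t | c - t ∈ A} = μ.real A := by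
  have h1 : {t | c - t ∈ A} = (fun v => (-1 : ℝ) • v) ⁻¹' ((fun v => c + v) ⁻¹' A) := by
    ext t
    simp [sub_eq_add_neg]
  rw [h1, measureReal_def, Measure.addHaar_preimage_smul μ (by norm_num), measure_preimage_add]
  simp [measureReal_def]

theorem game_ref_closed {K : Set V} (hK : IsClosed K) (y : V) : IsClosed (Ref K y) :=
  hK.preimage (by fun_prop : Continuous fun t : V => y - t)

theorem game_cov (μ : Measure V) [μ.IsAddHaarMeasure] (K : Set V) (y y' : V) :
    μ.real (Ref K y ∩ Ref K y') = cov μ K (y - y') := by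
  unfold cov
  rw [← game_refl μ y {x | x ∈ K ∧ x - (y - y') ∈ K}]
  congr 1
  ext t
  simp only [Ref, Set.mem_inter_iff, Set.mem_ofPred_eq]
  have : y - t - (y - y') = y' - t := by abel
  rw [this]

theorem game_lo_nonneg {β : ℝ} {f : V → ℝ} (hf : ∀ t, 0 ≤ f t) (i : ℕ) (t : V) :
    0 ≤ lo β f i t := by
  unfold lo
  split_ifs
  · exact hf t
  · exact le_rfl

theorem game_lo_le {β : ℝ} (hβ : 0 < β) {f : V → ℝ} (i : ℕ) (t : V) :
    lo β f i t ≤ β * 4 ^ i := by
  unfold lo
  split_ifs with h
  · exact h
  · positivity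

theorem game_lo_le_f {β : ℝ} {f : V → ℝ} (hf : ∀ t, 0 ≤ f t) (i : ℕ) (t : V) :
    lo β f i t ≤ f t := by
  unfold lo
  split_ifs with h
  · exact le_rfl
  · exact hf t

theorem game_lo_meas {β : ℝ} {f : V → ℝ} (hf : Measurable f) (i : ℕ) : Measurable (lo β f i) := by
  unfold lo
  exact Measurable.ite (measurableSet_le hf measurable_const) hf measurable_const

theorem game_lo_int {μ : Measure V} {β : ℝ} {f : V → ℝ} (hf : Measurable f) (h0 : ∀ t, 0 ≤ f t)
    (hi : Integrable f μ) (i : ℕ) : Integrable (lo β f i) μ := by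
  refine hi.mono' (game_lo_meas hf i).aestronglyMeasurable (Filter.Eventually.of_forall fun t => ?_)
  rw [Real.norm_of_nonneg (game_lo_nonneg h0 i t)]
  exact game_lo_le_f h0 i t

open scoped Classical in
/-- Bonferroni -/
theorem game_bonf (K : Set V) (P : Finset V) (G B : ℝ) (h0 : 0 ≤ G) (hB : G ≤ B) (t : V) :
    ∑ y ∈ P, (Ref K y).indicator (fun _ => G) t -
      B * ∑ y ∈ P, ∑ y' ∈ P.erase y, (Ref K y ∩ Ref K y').indicator (fun _ => (1 : ℝ)) t ≤
      (Qs K P).indicator (fun _ => G) t := by
  classical
  obtain ⟨k, hk⟩ : ∃ k : ℕ, k = (P.filter fun y => t ∈ Ref K y).card := ⟨_, rfl⟩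
  have e1 : ∑ y ∈ P, (Ref K y).indicator (fun _ => G) t = k * G := by
    rw [hk, ← nsmul_eq_mul, ← Finset.sum_const, Finset.sum_filter]
    refine Finset.sum_congr rfl fun y _ => ?_
    rw [Set.indicator_apply]
  have e2 : ∑ y ∈ P, ∑ y' ∈ P.erase y, (Ref K y ∩ Ref K y').indicator (fun _ => (1 : ℝ)) t =
      (k : ℝ) * k - k := by
    have e3 : ∀ y ∈ P, ∑ y' ∈ P.erase y, (Ref K y ∩ Ref K y').indicator (fun _ => (1 : ℝ)) t =
        if t ∈ Ref K y then (k : ℝ) - 1 else 0 := by
      intro y hy
      by_cases h : t ∈ Ref K y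
      · rw [if_pos h]
        have e4 : ∑ y' ∈ P.erase y, (Ref K y ∩ Ref K y').indicator (fun _ => (1 : ℝ)) t =
            ∑ y' ∈ P.erase y, if t ∈ Ref K y' then (1 : ℝ) else 0 := by
          refine Finset.sum_congr rfl fun y' _ => ?_
          rw [Set.indicator_apply]
          by_cases h' : t ∈ Ref K y'
          · rw [if_pos ⟨h, h'⟩, if_pos h']
          · rw [if_neg (fun h2 => h' h2.2), if_neg h']
        rw [e4]
        have e5 : ∑ y' ∈ P, (if t ∈ Ref K y' then (1 : ℝ) else 0) = k := by
          rw [hk, Finset.card_filter]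
          push_cast
          rfl
        have e6 := Finset.add_sum_erase P (fun y' => if t ∈ Ref K y' then (1 : ℝ) else 0) hy
        simp only [if_pos h] at e6
        linarith
      · rw [if_neg h]
        apply Finset.sum_eq_zero
        intro y' _
        rw [Set.indicator_apply, if_neg (fun h2 => h h2.1)]
    rw [Finset.sum_congr rfl e3, ← Finset.sum_filter, Finset.sum_const, nsmul_eq_mul, ← hk]
    ring
  rw [e1, e2]
  rcases Nat.eq_zero_or_pos k with hk0 | hk0
  · rw [hk0]
    have : 0 ≤ (Qs K P).indicator (fun _ => G) t := Set.indicator_nonneg (fun _ _ => h0) _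
    simpa using this
  · have hne : (P.filter fun y => t ∈ Ref K y).Nonempty := by
      rw [← Finset.card_pos, ← hk]
      exact hk0
    obtain ⟨y, hy⟩ := hne
    rw [Finset.mem_filter] at hy
    have hQ : t ∈ Qs K P := ⟨y, hy.1, hy.2⟩
    rw [Set.indicator_of_mem hQ]
    have hk1 : (1 : ℝ) ≤ k := by exact_mod_cast hk0
    have h1 : 0 ≤ (k : ℝ) * k - k := by nlinarith
    have h2 : G * ((k : ℝ) * k - k) ≤ B * ((k : ℝ) * k - k) := by gcongr
    nlinarith [mul_nonneg h0 (sq_nonneg ((k : ℝ) - 1))]

theorem pf_game : S_game := by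
  classical
  intro V _ _ _ _ _ μ _ K hK hμ f α β J hfm hf0 hfi hβ hαβ hfJ P i₀ hi₀ hP hPα hcase
  by_contra hcon
  push Not at hcon
  obtain ⟨hc1, hc2⟩ := hcon
  have hα : 0 < α := by linarith
  have hKc : IsClosed K := hK.comp.isClosed
  have hRm : ∀ y, MeasurableSet (Ref K y) := fun y => (game_ref_closed hKc y).measurableSet
  have hli : ∀ i, Integrable (lo β f i) μ := fun i => game_lo_int hfm hf0 hfi i
  -- the integrals
  have hJ : lo β f J = f := by
    funext t
    unfold lo
    rw [if_pos (hfJ t)]
  have hstep : ∀ y i, ∫ t in Ref K y, lev β f (i + 1) t ∂μ =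
      ∫ t in Ref K y, lo β f (i + 1) t ∂μ - ∫ t in Ref K y, lo β f i t ∂μ := by
    intro y i
    exact integral_sub (hli (i + 1)).integrableOn (hli i).integrableOn
  rcases hcase with h0 | ⟨hcard, hcov⟩
  · obtain ⟨y, hy⟩ := hP
    have key : ∀ i, i ≤ J → ∫ t in Ref K y, lo β f i t ∂μ < (1 - (1 / 2) ^ (i + 1)) * α / 2 := by
      intro i
      induction i with
      | zero =>
        intro _
        have := hc1 0 (by omega) (by omega) y hy
        have h3 : ∫ t in Ref K y, lev β f 0 t ∂μ = ∫ t in Ref K y, lo β f 0 t ∂μ := rfl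
        rw [h3] at this
        norm_num at this ⊢
        linarith
      | succ i ih =>
        intro hi
        have h4 := ih (by omega)
        have h5 := hc1 (i + 1) (by omega) hi y hy
        rw [hstep] at h5
        have e : ((1 : ℝ) / 2) ^ (i + 1) = 2 * (1 / 2) ^ (i + 1 + 1) := by ring
        rw [e] at h4
        linarith
    have h6 := key J le_rfl
    rw [hJ] at h6
    have h7 := hPα y hy
    have h8 : 0 < ((1 : ℝ) / 2) ^ (J + 1) := by positivity
    nlinarith
  · rcases Nat.eq_zero_or_pos i₀ with h0 | hpos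
    · -- again the case zero
      subst h0
      obtain ⟨y, hy⟩ := hP
      have key : ∀ i, i ≤ J → ∫ t in Ref K y, lo β f i t ∂μ < (1 - (1 / 2) ^ (i + 1)) * α / 2 := by
        intro i
        induction i with
        | zero =>
          intro _
          have := hc1 0 (by omega) (by omega) y hy
          have h3 : ∫ t in Ref K y, lev β f 0 t ∂μ = ∫ t in Ref K y, lo β f 0 t ∂μ := rfl
          rw [h3] at this
          norm_num at this ⊢
          linarith
        | succ i ih =>
          intro hi
          have h4 := ih (by omega)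
          have h5 := hc1 (i + 1) (by omega) hi y hy
          rw [hstep] at h5
          have e : ((1 : ℝ) / 2) ^ (i + 1) = 2 * (1 / 2) ^ (i + 1 + 1) := by ring
          rw [e] at h4
          linarith
      have h6 := key J le_rfl
      rw [hJ] at h6
      have h7 := hPα y hy
      have h8 : 0 < ((1 : ℝ) / 2) ^ (J + 1) := by positivity
      nlinarith
    · obtain ⟨j, rfl⟩ : ∃ j, i₀ = j + 1 := ⟨i₀ - 1, by omega⟩
      have h9 := hc2 j rfl
      have hlow : ∀ y ∈ P, α / 2 ≤ ∫ t in Ref K y, lo β f j t ∂μ := by
        intro y hy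
        have key : ∀ i, j ≤ i → i ≤ J → ∫ t in Ref K y, lo β f i t ∂μ ≤
            ∫ t in Ref K y, lo β f j t ∂μ + ((1 / 2) ^ (j + 1) - (1 / 2) ^ (i + 1)) * α / 2 := by
          intro i hji
          induction i, hji using Nat.le_induction with
          | base => intro _; simp
          | succ i hi ih =>
            intro hiJ
            have h4 := ih (by omega)
            have h5 := hc1 (i + 1) (by omega) hiJ y hy
            rw [hstep] at h5
            have e : ((1 : ℝ) / 2) ^ (i + 1) = 2 * (1 / 2) ^ (i + 1 + 1) := by ring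
            rw [e] at h4
            linarith
        have h6 := key J (by omega) le_rfl
        rw [hJ] at h6
        have h7 := hPα y hy
        have h8 : 0 < ((1 : ℝ) / 2) ^ (J + 1) := by positivity
        have h10 : ((1 : ℝ) / 2) ^ (j + 1) ≤ 1 := pow_le_one₀ (by norm_num) (by norm_num)
        nlinarith
      -- Bonferroni
      have hQm : MeasurableSet (Qs K P) := by
        have : Qs K P = ⋃ y ∈ P, Ref K y := by
          ext t
          simp [Qs, Ref]
        rw [this]
        exact Finset.measurableSet_biUnion P fun y _ => hRm y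
      have hRfin : ∀ y, μ (Ref K y) ≠ ⊤ := by
        intro y
        have hc : IsCompact (Ref K y) := by
          have : Ref K y = (fun x => y - x) '' K := by
            ext t
            simp only [Ref, Set.mem_ofPred_eq, Set.mem_image]
            constructor
            · intro h
              exact ⟨y - t, h, by abel⟩
            · rintro ⟨x, hx, rfl⟩
              simpa using hx
          rw [this]
          exact hK.comp.image (by fun_prop)
        exact hc.measure_lt_top.ne
      have hIR : ∀ y, ∀ g : V → ℝ, ∫ t in Ref K y, g t ∂μ =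
          ∫ t, (Ref K y).indicator g t ∂μ := fun y g => (integral_indicator (hRm y)).symm
      have hb : ∀ t, ∑ y ∈ P, (Ref K y).indicator (lo β f j) t - (β * 4 ^ j) *
          ∑ y ∈ P, ∑ y' ∈ P.erase y, (Ref K y ∩ Ref K y').indicator (fun _ => (1 : ℝ)) t ≤
          (Qs K P).indicator (lo β f j) t := by
        intro t
        have := game_bonf K P (lo β f j t) (β * 4 ^ j) (game_lo_nonneg hf0 j t)
          (game_lo_le hβ j t) t
        have e3 : ∀ S : Set V, S.indicator (fun _ => lo β f j t) t = S.indicator (lo β f j) t := by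
          intro S
          by_cases h : t ∈ S
          · rw [Set.indicator_of_mem h, Set.indicator_of_mem h]
          · rw [Set.indicator_of_notMem h, Set.indicator_of_notMem h]
        simpa only [e3] using this
      have i1 : ∀ y ∈ P, Integrable ((Ref K y).indicator (lo β f j)) μ := fun y _ =>
        (hli j).indicator (hRm y)
      have i2 : ∀ y y', Integrable ((Ref K y ∩ Ref K y').indicator (fun _ => (1 : ℝ))) μ := by
        intro y y'
        rw [integrable_indicator_iff ((hRm y).inter (hRm y'))]
        exact integrableOn_const (ne_top_of_le_ne_top (hRfin y) (measure_mono Set.inter_subset_left))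
      have i3 : Integrable (fun t => ∑ y ∈ P, (Ref K y).indicator (lo β f j) t) μ :=
        integrable_finsetSum P i1
      have i4 : Integrable (fun t => ∑ y ∈ P, ∑ y' ∈ P.erase y,
          (Ref K y ∩ Ref K y').indicator (fun _ => (1 : ℝ)) t) μ :=
        integrable_finsetSum P fun y _ => integrable_finsetSum _ fun y' _ => i2 y y'
      have h11 : ∫ t, (∑ y ∈ P, (Ref K y).indicator (lo β f j) t - (β * 4 ^ j) *
          ∑ y ∈ P, ∑ y' ∈ P.erase y, (Ref K y ∩ Ref K y').indicator (fun _ => (1 : ℝ)) t) ∂μ ≤
          ∫ t in Qs K P, lo β f j t ∂μ := by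
        rw [← integral_indicator hQm]
        exact integral_mono (i3.sub (i4.const_mul _)) ((hli j).indicator hQm) hb
      rw [integral_sub i3 (i4.const_mul _), integral_const_mul, integral_finsetSum P i1,
        integral_finsetSum P (fun y _ => integrable_finsetSum _ fun y' _ => i2 y y')] at h11
      have h12 : (P.card : ℝ) * (α / 2) ≤ ∑ y ∈ P, ∫ t, (Ref K y).indicator (lo β f j) t ∂μ := by
        rw [← nsmul_eq_mul]
        apply Finset.card_nsmul_le_sum
        intro y hy
        rw [← hIR]
        exact hlow y hy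
      have h13 : ∑ y ∈ P, ∫ t, ∑ y' ∈ P.erase y,
          (Ref K y ∩ Ref K y').indicator (fun _ => (1 : ℝ)) t ∂μ ≤
          (P.card : ℝ) * (P.card * (1 / 4) ^ (2 * (j + 1) + 1)) := by
        rw [← nsmul_eq_mul]
        apply Finset.sum_le_card_nsmul
        intro y hy
        rw [integral_finsetSum _ (fun y' _ => i2 y y')]
        calc ∑ y' ∈ P.erase y, ∫ t, (Ref K y ∩ Ref K y').indicator (fun _ => (1 : ℝ)) t ∂μ ≤
            ∑ y' ∈ P.erase y, (1 / 4) ^ (2 * (j + 1) + 1) := by
              refine Finset.sum_le_sum fun y' hy' => ?_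
              rw [integral_indicator ((hRm y).inter (hRm y')), setIntegral_const, smul_eq_mul,
                mul_one, game_cov]
              exact hcov y hy y' (Finset.mem_of_mem_erase hy') (Finset.ne_of_mem_erase hy').symm
          _ = ((P.erase y).card : ℝ) * (1 / 4) ^ (2 * (j + 1) + 1) := by
              rw [Finset.sum_const, nsmul_eq_mul]
          _ ≤ _ := by
              gcongr
              exact Finset.erase_subset _ _
      have hcard' : (P.card : ℝ) = 4 ^ (j + 1) := by
        rw [hcard]
        push_cast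
        ring
      rw [hcard'] at h12 h13
      have e7 : (4 : ℝ) ^ (j + 1) * (4 ^ (j + 1) * (1 / 4) ^ (2 * (j + 1) + 1)) = 1 / 4 := by
        have : ((1 : ℝ) / 4) ^ (2 * (j + 1) + 1) = 1 / (4 ^ (j + 1) * 4 ^ (j + 1) * 4) := by
          rw [div_pow, one_pow]
          congr 1
          ring
        rw [this]
        field_simp
      rw [e7] at h13
      have h14 : (β * 4 ^ j) * ∑ y ∈ P, ∫ t, ∑ y' ∈ P.erase y,
          (Ref K y ∩ Ref K y').indicator (fun _ => (1 : ℝ)) t ∂μ ≤ (β * 4 ^ j) * (1 / 4) :=
        mul_le_mul_of_nonneg_left h13 (by positivity)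
      have e8 : (4 : ℝ) ^ (j + 1) = 4 * 4 ^ j := by ring
      rw [e8] at h9 h12
      have h15 : 0 < (4 : ℝ) ^ j := by positivity
      nlinarith

end game

end Pool.Agent.H777.LB
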