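import Pool.Agent.H777.LB.Defs

set_option autoImplicit false

/-!
# L20: the levels
-/

namespace Pool.Agent.H777.LB

open scoped RealInnerProductSpace Pointwise
open Module MeasureTheory
open Pool.Agent.H845R2 (SB pol)
open Pool.Agent.K3h52.HR (Bd Mac Mth dcap)

theorem level_cc_pos (i : ℕ) : 0 < cc i := by unfold cc; positivity

theorem level_cc_le (i : ℕ) : cc i ≤ cc 0 := by
  unfold cc
  exact pow_le_pow_of_le_one (by norm_num) (by norm_num) (by omega)

theorem level_cc0 : cc 0 < 1 / 4 := by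
  unfold cc
  norm_num

theorem level_cc_lt (i : ℕ) : cc i < 1 := by
  have h1 := level_cc_le i
  have h2 := level_cc0
  linarith

theorem level_top (d : ℕ) : 2 * (d : ℝ) / cc d ≤ 2 ^ (19 * (d + 1)) := by
  have h1 : (d : ℝ) ≤ 2 ^ d := by
    have : d < 2 ^ d := Nat.lt_two_pow_self
    exact_mod_cast this.le
  have h2 : (1 : ℝ) / cc d = 2 ^ (12 + 4 * d) := by
    unfold cc
    rw [one_div, one_div, inv_pow, inv_inv]
  calc 2 * (d : ℝ) / cc d = 2 * d * (1 / cc d) := by ring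
    _ = 2 * d * 2 ^ (12 + 4 * d) := by rw [h2]
    _ ≤ 2 * 2 ^ d * 2 ^ (12 + 4 * d) := by gcongr
    _ = 2 ^ (1 + d + (12 + 4 * d)) := by rw [pow_add _ (1 + d), pow_add _ 1 d, pow_one]
    _ ≤ 2 ^ (19 * (d + 1)) := pow_le_pow_right₀ (by norm_num) (by omega)

theorem level_lin (i : ℕ) : 4 * (i : ℝ) + 7 ≤ 2 ^ (i + 3) := by
  induction i with
  | zero => norm_num
  | succ i ih =>
    have h1 : (1 : ℝ) ≤ 2 ^ i := one_le_pow₀ (by norm_num)
    have h2 : (2 : ℝ) ^ (i + 1 + 3) = 16 * 2 ^ i := by rw [pow_add, pow_add]; ring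
    have h3 : (2 : ℝ) ^ (i + 3) = 8 * 2 ^ i := by rw [pow_add]; ring
    push_cast
    rw [h2]
    rw [h3] at ih
    linarith

/-- the small number -/
noncomputable def level_e (i : ℕ) : ℝ := (1 / 16) ^ (i + 1) / 8

theorem level_e_pos (i : ℕ) : 0 < level_e i := by unfold level_e; positivity

theorem level_e_log (i : ℕ) : Real.log (1 / level_e i) ≤ 2 ^ (i + 3) := by
  have h1 : 1 / level_e i = 2 ^ (4 * i + 7) := by
    unfold level_e
    rw [one_div_div, one_div, inv_pow, div_inv_eq_mul]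
    have : (16 : ℝ) = 2 ^ 4 := by norm_num
    rw [this, ← pow_mul, pow_add]
    have : (2 : ℝ) ^ (4 * (i + 1)) = 2 ^ (4 * i) * 16 := by
      rw [mul_add, pow_add]
      norm_num
    rw [this]
    ring
  rw [h1, Real.log_pow]
  have h2 : Real.log 2 ≤ 1 := by
    have := Real.log_two_lt_d9
    linarith
  have h3 := level_lin i
  have h4 : (0 : ℝ) ≤ ((4 * i + 7 : ℕ) : ℝ) := Nat.cast_nonneg _
  calc ((4 * i + 7 : ℕ) : ℝ) * Real.log 2 ≤ ((4 * i + 7 : ℕ) : ℝ) * 1 :=
        mul_le_mul_of_nonneg_left h2 h4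
    _ = 4 * (i : ℝ) + 7 := by push_cast; ring
    _ ≤ _ := h3

theorem level_e_small (i : ℕ) : level_e i ≤ 1 / 128 := by
  unfold level_e
  have h : ((1 : ℝ) / 16) ^ (i + 1) ≤ (1 / 16) ^ 1 :=
    pow_le_pow_of_le_one (by norm_num) (by norm_num) (by omega)
  linarith

theorem level_e_exp (i : ℕ) : level_e i ≤ Real.exp (-1) := by
  have h1 := level_e_small i
  have h2 : Real.exp (-1) ≥ 1 / 3 := by
    rw [Real.exp_neg, ge_iff_le, one_div]
    have := Real.exp_one_lt_d9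
    exact inv_anti₀ (Real.exp_pos 1) (by linarith)
  linarith

theorem level_sum (i : ℕ) : level_e i + 2 * cc i ≤ (1 / 4) ^ (2 * (i + 1) + 1) := by
  unfold level_e cc
  have h1 : ((1 : ℝ) / 4) ^ (2 * (i + 1) + 1) = (1 / 16) ^ (i + 1) / 4 := by
    rw [pow_succ, pow_mul]
    norm_num
    ring
  have h2 : ((1 : ℝ) / 2) ^ (12 + 4 * i) = (1 / 16) ^ (i + 1) / 256 := by
    have : 12 + 4 * i = 4 * (i + 1) + 8 := by ring
    rw [this, pow_add, pow_mul]
    norm_num
    ring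
  rw [h1, h2]
  have h3 : (0 : ℝ) < (1 / 16) ^ (i + 1) := by positivity
  linarith

theorem level_num (i d : ℕ) (hd : 1 ≤ d) :
    ((4 ^ (i + 1) : ℕ) : ℝ) * (Real.log (1 / level_e i) / cc i) ^ d ≤ (2 ^ (19 * (i + 1))) ^ d := by
  have h2 : (1 : ℝ) / cc i = 2 ^ (12 + 4 * i) := by
    unfold cc
    rw [one_div, one_div, inv_pow, inv_inv]
  have h0 : 0 ≤ Real.log (1 / level_e i) := by
    apply Real.log_nonneg
    rw [le_div_iff₀ (level_e_pos i), one_mul]
    have := level_e_small i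
    linarith
  have h3 : Real.log (1 / level_e i) / cc i ≤ 2 ^ (5 * i + 15) := by
    calc Real.log (1 / level_e i) / cc i = Real.log (1 / level_e i) * (1 / cc i) := by ring
      _ = Real.log (1 / level_e i) * 2 ^ (12 + 4 * i) := by rw [h2]
      _ ≤ 2 ^ (i + 3) * 2 ^ (12 + 4 * i) := by
          gcongr
          exact level_e_log i
      _ = 2 ^ (5 * i + 15) := by
          rw [← pow_add]
          congr 1
          ring
  have h4 : ((4 ^ (i + 1) : ℕ) : ℝ) ≤ (2 ^ (2 * (i + 1))) ^ d := by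
    have e : ((4 ^ (i + 1) : ℕ) : ℝ) = 2 ^ (2 * (i + 1)) := by
      rw [pow_mul]
      norm_num
    rw [e]
    exact le_self_pow₀ (one_le_pow₀ (by norm_num)) (by omega)
  have h5 : (Real.log (1 / level_e i) / cc i) ^ d ≤ (2 ^ (5 * i + 15)) ^ d :=
    pow_le_pow_left₀ (div_nonneg h0 (level_cc_pos i).le) h3 d
  calc _ ≤ ((2 : ℝ) ^ (2 * (i + 1))) ^ d * (2 ^ (5 * i + 15)) ^ d :=
        mul_le_mul h4 h5 (pow_nonneg (div_nonneg h0 (level_cc_pos i).le) d) (by positivity)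
    _ = ((2 : ℝ) ^ (2 * (i + 1) + (5 * i + 15))) ^ d := by rw [← mul_pow, ← pow_add]
    _ ≤ _ := pow_le_pow_left₀ (by positivity) (pow_le_pow_right₀ (by norm_num) (by omega)) d

theorem pf_level (h3 : S_D) (h4 : S_rich) (h16 : S_top) : S_level := by
  intro V _ _ _ _ _ μ _ K hK hμ hd x hx
  classical
  let Adm : ℕ → Prop := fun j => μ.real (Mac (K + Dc μ K (cc j)) x) ≤
    (2 ^ (19 * (j + 1))) ^ finrank ℝ V * μ.real (Dc μ K (cc j))
  have htop : Adm (finrank ℝ V) := by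
    refine (h16 V μ K hK hμ hd (cc (finrank ℝ V)) (level_cc_pos _) (level_cc_lt _) x).trans ?_
    refine mul_le_mul_of_nonneg_right ?_ measureReal_nonneg
    exact pow_le_pow_left₀ (div_nonneg (by positivity) (level_cc_pos _).le) (level_top _) _
  have hex : ∃ i, i ≤ finrank ℝ V ∧ ∀ j, i ≤ j → j ≤ finrank ℝ V → Adm j :=
    ⟨finrank ℝ V, le_rfl, fun j h1 h2 => by
      rw [le_antisymm h2 h1]
      exact htop⟩
  obtain ⟨i₀, ⟨hi1, hi2⟩, hmin⟩ : ∃ i₀, (i₀ ≤ finrank ℝ V ∧ ∀ j, i₀ ≤ j → j ≤ finrank ℝ V → Adm j) ∧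
      ∀ i, i < i₀ → ¬ (i ≤ finrank ℝ V ∧ ∀ j, i ≤ j → j ≤ finrank ℝ V → Adm j) :=
    ⟨Nat.find hex, Nat.find_spec hex, fun i h => Nat.find_min hex h⟩
  refine ⟨i₀, hi1, ?_⟩
  rcases Nat.eq_zero_or_pos i₀ with h0 | h0
  · refine ⟨{x}, Finset.singleton_nonempty x, by simp [h0], ?_, Or.inl h0, hi2⟩
    intro y hy
    rw [Finset.mem_singleton] at hy
    subst hy
    refine ⟨by rw [two_smul, add_sub_cancel_right]; exact hx, ?_⟩
    have hz := (h3 V μ K hK hμ hd (cc 0) (level_cc_pos 0) (level_cc_lt 0)).2.1 y hx y hx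
    rw [sub_self, smul_zero] at hz
    refine Set.mem_add.2 ⟨y, hx, 0, ?_, add_zero y⟩
    exact Set.mem_smul_set.2 ⟨0, hz, smul_zero _⟩
  · obtain ⟨i, rfl⟩ : ∃ i, i₀ = i + 1 := ⟨i₀ - 1, by omega⟩
    have hnot : ¬ Adm i := by
      intro hA
      refine hmin i (by omega) ⟨by omega, fun j h1 h2 => ?_⟩
      rcases h1.lt_or_eq with h | h
      · exact hi2 j (by omega) h2
      · rw [← h]
        exact hA
    have hlt : (2 ^ (19 * (i + 1))) ^ finrank ℝ V * μ.real (Dc μ K (cc i)) <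
        μ.real (Mac (K + Dc μ K (cc i)) x) := not_le.1 hnot
    have hsum := level_sum i
    have hs1 : ((1 : ℝ) / 4) ^ (2 * (i + 1) + 1) < 1 :=
      pow_lt_one₀ (by norm_num) (by norm_num) (by omega)
    obtain ⟨P, hP1, hP2, hP3⟩ := h4 V μ K hK hμ hd (cc i) (level_e i) (level_cc_pos i)
      (level_cc_lt i) (level_e_pos i) (level_e_exp i) (by linarith) (4 ^ (i + 1)) x (by
        refine lt_of_le_of_lt ?_ hlt
        rw [← mul_assoc]
        exact mul_le_mul_of_nonneg_right (level_num i _ hd) measureReal_nonneg)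
    refine ⟨P, ?_, hP1.le, ?_, Or.inr ⟨hP1, fun y hy y' hy' hne => (hP3 y hy y' hy' hne).trans
      hsum⟩, hi2⟩
    · rw [← Finset.card_pos, hP1]
      positivity
    · intro y hy
      refine ⟨(hP2 y hy).1, ?_⟩
      have hsub : Dc μ K (cc i) ⊆ Dc μ K (cc 0) := by
        intro m hm
        have h1 : 1 - cc i ≤ cov μ K m := hm
        have h2 := level_cc_le i
        show 1 - cc 0 ≤ cov μ K m
        linarith
      exact Set.add_subset_add_left (Set.smul_set_mono hsub) (hP2 y hy).2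

end Pool.Agent.H777.LB
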