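import Pool.Agent.H777.LB.Defs
import Pool.Graph.R_pool_sql_team_seeded_5cf16337.K3h52.HR.Num

set_option autoImplicit false

/-!
`pf_main : S_cover → S_main` for helper777's project LB.
-/

namespace Pool.Agent.H777.LB

open scoped RealInnerProductSpace Pointwise
open Module MeasureTheory
open Pool.Agent.H845R2 (SB pol)
open Pool.Agent.K3h52.HR (Bd Mac Mth dcap)

theorem main_sub_int {E : Type*} [NormedAddCommGroup E] [InnerProductSpace ℝ E]
    {K : Set E} (hK : Bd K) {s : ℝ} (hs0 : 0 ≤ s) (hs1 : s < 1) {x : E} (hx : x ∈ s • K) :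
    x ∈ interior K := by
  obtain ⟨k, hk, rfl⟩ := hx
  have h := hK.conv.combo_interior_self_mem_interior hK.i0 hk (a := 1 - s) (b := s)
    (by linarith) hs0 (by ring)
  simpa using h

theorem pf_main (h : S_cover) : S_main := by
  intro d hd A hA hAc hAi
  obtain ⟨c, hc⟩ := hAi
  have hfr : finrank ℝ (EuclideanSpace ℝ (Fin d)) = d := by simp
  set K : Set (EuclideanSpace ℝ (Fin d)) := (fun x => c + x) ⁻¹' A with hKdef
  have hKB : Bd K := by
    refine ⟨?_, ?_, ?_⟩
    · exact (Homeomorph.addLeft c).isCompact_preimage.2 hAc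
    · exact hA.translate_preimage_right c
    · have h1 := (Homeomorph.addLeft c).preimage_interior A
      have h2 : (0 : EuclideanSpace ℝ (Fin d)) ∈ (Homeomorph.addLeft c) ⁻¹' interior A := by
        simpa using hc
      rw [h1] at h2
      exact h2
  have hvolK : (volume : Measure (EuclideanSpace ℝ (Fin d))) K = volume A := by
    rw [hKdef]; exact measure_preimage_add _ c A
  have hApos : 0 < (volume : Measure (EuclideanSpace ℝ (Fin d))) A :=
    lt_of_lt_of_le (isOpen_interior.measure_pos volume ⟨c, hc⟩) (measure_mono interior_subset)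
  have hAfin : (volume : Measure (EuclideanSpace ℝ (Fin d))) A ≠ ⊤ := hAc.measure_lt_top.ne
  set a : ENNReal := ((volume : Measure (EuclideanSpace ℝ (Fin d))) A)⁻¹ with ha
  have ha0 : a ≠ 0 := by rw [ha]; exact ENNReal.inv_ne_zero.2 hAfin
  have hat : a ≠ ⊤ := by rw [ha]; exact ENNReal.inv_ne_top.2 hApos.ne'
  have har : 0 < a.toReal := ENNReal.toReal_pos ha0 hat
  set μ : Measure (EuclideanSpace ℝ (Fin d)) := a • volume with hμ
  have : μ.IsAddHaarMeasure := Measure.IsAddHaarMeasure.smul volume ha0 hat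
  have hμr : ∀ S : Set (EuclideanSpace ℝ (Fin d)), μ.real S =
      a.toReal * (volume : Measure (EuclideanSpace ℝ (Fin d))).real S := by
    intro S
    rw [hμ, measureReal_ennreal_smul_apply]
  have hμK : μ.real K = 1 := by
    rw [Measure.real, hμ, Measure.smul_apply, hvolK, smul_eq_mul, ha,
      ENNReal.inv_mul_cancel hApos.ne' hAfin]
    simp
  set vl : ℝ := 3.58 ^ d / (d.factorial : ℝ) with hvl
  have hvl0 : 0 < vl := by
    have : (0 : ℝ) < d.factorial := by exact_mod_cast Nat.factorial_pos d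
    positivity
  set vu : ℝ := (2 * Real.pi * Real.exp 1 / d) ^ d with hvu
  have hcov := h (EuclideanSpace ℝ (Fin d)) μ K hKB hμK (by rw [hfr]; exact hd)
    (a.toReal ^ 2 * vl) (a.toReal ^ 2 * vu) (by positivity)
    (by
      intro S hS
      rw [hμr, hμr]
      have h1 := Pool.Agent.K3h52.HR.vp_lower d S hS
      calc a.toReal ^ 2 * vl ≤ a.toReal ^ 2 *
          ((volume : Measure (EuclideanSpace ℝ (Fin d))).real S *
            (volume : Measure (EuclideanSpace ℝ (Fin d))).real (pol S)) :=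
            mul_le_mul_of_nonneg_left h1 (by positivity)
        _ = _ := by ring)
    (by
      intro S hS
      rw [hμr, hμr]
      have h1 : (volume : Measure (EuclideanSpace ℝ (Fin d))).real S *
          (volume : Measure (EuclideanSpace ℝ (Fin d))).real (pol S) ≤ vu :=
        Pool.Agent.H845R2.santalo_bound (by omega) hS
      calc _ = a.toReal ^ 2 *
          ((volume : Measure (EuclideanSpace ℝ (Fin d))).real S *
            (volume : Measure (EuclideanSpace ℝ (Fin d))).real (pol S)) := by ring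
        _ ≤ _ := mul_le_mul_of_nonneg_left h1 (by positivity))
    (by
      rw [hfr, mul_div_mul_left _ _ (by positivity)]
      exact Pool.Agent.K3h52.HR.ratio d hd)
  rw [hfr] at hcov
  obtain ⟨T₀, hT₀, hcov⟩ := hcov
  classical
  set ζ : ℝ := (1 / 2 : ℝ) ^ (15 + 5 * d) with hζ
  have hζ0 : 0 < ζ := by positivity
  have hζ1 : ζ ≤ 1 / 8 := by
    calc ζ ≤ (1 / 2 : ℝ) ^ 3 := pow_le_pow_of_le_one (by norm_num) (by norm_num) (by omega)
      _ = 1 / 8 := by norm_num
  have h1ζ : 0 < 1 - ζ := by linarith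
  refine ⟨T₀.image (fun w => (1 / (4 * (1 - ζ)) : ℝ) • w), ?_, ?_⟩
  · intro x hx
    have hxK : x - c ∈ K := by
      rw [hKdef, Set.mem_preimage]
      simpa using hx
    obtain ⟨w, hw, hz⟩ := hcov ((1 - ζ) • (x - c)) (Set.smul_mem_smul_set hxK)
    simp only [St, Set.mem_ofPred_eq] at hz
    have e1 : (3 + (1 - 8 * ζ)) / 4 = 1 - 2 * ζ := by ring
    rw [e1] at hz
    obtain ⟨k, hk, hkz⟩ := hz
    have hkz' : (1 - 2 * ζ) • k = (1 - ζ) • (x - c) - (1 / 4 : ℝ) • w := hkz
    have hint : ((1 - 2 * ζ) / (1 - ζ)) • k ∈ interior K :=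
      main_sub_int hKB (s := (1 - 2 * ζ) / (1 - ζ)) (div_nonneg (by linarith) h1ζ.le)
        ((div_lt_one h1ζ).2 (by linarith)) (Set.smul_mem_smul_set hk)
    have hintA : c + ((1 - 2 * ζ) / (1 - ζ)) • k ∈ interior A := by
      have h1 := (Homeomorph.addLeft c).preimage_interior A
      have h2 : ((1 - 2 * ζ) / (1 - ζ)) • k ∈ (Homeomorph.addLeft c) ⁻¹' interior A := by
        rw [h1]; exact hint
      simpa using h2
    simp only [Set.mem_iUnion]
    refine ⟨(1 / (4 * (1 - ζ)) : ℝ) • w, Finset.mem_image_of_mem _ hw,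
      c + ((1 - 2 * ζ) / (1 - ζ)) • k, hintA, ?_⟩
    have e2 : ((1 - 2 * ζ) / (1 - ζ)) • k = (1 / (1 - ζ)) • ((1 - 2 * ζ) • k) := by
      rw [smul_smul]; congr 1; field_simp
    simp only
    rw [e2, hkz', smul_sub, smul_smul, smul_smul]
    have e3 : 1 / (1 - ζ) * (1 - ζ) = 1 := by field_simp
    have e4 : 1 / (1 - ζ) * (1 / 4) = 1 / (4 * (1 - ζ)) := by field_simp
    rw [e3, e4, one_smul]
    abel
  · refine le_trans ?_ hT₀
    exact_mod_cast Finset.card_image_le

end Pool.Agent.H777.LB
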