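import Pool.Agent.H777.LB.Defs

set_option autoImplicit false

namespace Pool.Agent.H777.LB

open MeasureTheory

section mass

variable {V : Type}

theorem mass_lo_nonneg (β : ℝ) (f : V → ℝ) (hf : ∀ t, 0 ≤ f t) (i : ℕ) (t : V) :
    0 ≤ lo β f i t := by
  unfold lo
  split_ifs
  · exact hf t
  · exact le_refl _

theorem mass_lo_le (β : ℝ) (f : V → ℝ) (hf : ∀ t, 0 ≤ f t) (i : ℕ) (t : V) :
    lo β f i t ≤ f t := by
  unfold lo
  split_ifs
  · exact le_refl _
  · exact hf t

theorem mass_lo_le' (β : ℝ) (hβ : 0 < β) (f : V → ℝ) (i : ℕ) (t : V) :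
    lo β f i t ≤ β * 4 ^ i := by
  unfold lo
  split_ifs with h
  · exact h
  · positivity

/-- The next level is `f` on a set where `β 4^i < f ≤ β 4^(i+1)` and `0` elsewhere. -/
theorem mass_lev_cases (β : ℝ) (hβ : 0 < β) (f : V → ℝ) (i : ℕ) (t : V) :
    lev β f (i + 1) t = 0 ∨
      (lev β f (i + 1) t = f t ∧ β * 4 ^ i < f t ∧ f t ≤ β * 4 ^ (i + 1)) := by
  have h4 : β * 4 ^ i ≤ β * 4 ^ (i + 1) := by
    have : (4 : ℝ) ^ i ≤ 4 ^ (i + 1) := pow_le_pow_right₀ (by norm_num) (Nat.le_succ i)
    exact mul_le_mul_of_nonneg_left this hβ.le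
  show lo β f (i + 1) t - lo β f i t = 0 ∨
      (lo β f (i + 1) t - lo β f i t = f t ∧ β * 4 ^ i < f t ∧ f t ≤ β * 4 ^ (i + 1))
  unfold lo
  by_cases h1 : f t ≤ β * 4 ^ i
  · left
    rw [if_pos h1, if_pos (h1.trans h4)]
    ring
  · by_cases h2 : f t ≤ β * 4 ^ (i + 1)
    · right
      rw [if_neg h1, if_pos h2]
      exact ⟨by ring, not_le.mp h1, h2⟩
    · left
      rw [if_neg h1, if_neg h2]
      ring

end mass

theorem pf_mass : S_mass := by
  intro V _ _ _ _ _ μ f β hfm hf0 hf1 hfi hβ
  have mlo : ∀ i, Measurable (lo β f i) := by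
    intro i
    unfold lo
    exact Measurable.ite (measurableSet_le hfm measurable_const) hfm measurable_const
  have mlev : ∀ i, Measurable (lev β f i) := by
    intro i
    cases i with
    | zero => exact mlo 0
    | succ i => exact (mlo (i + 1)).sub (mlo i)
  have levnn : ∀ i t, 0 ≤ lev β f i t := by
    intro i t
    cases i with
    | zero => exact mass_lo_nonneg β f hf0 0 t
    | succ i =>
      rcases mass_lev_cases β hβ f i t with h | ⟨h, _, _⟩
      · exact h.ge
      · rw [h]; exact hf0 t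
  have levle : ∀ i t, lev β f i t ≤ f t := by
    intro i t
    cases i with
    | zero => exact mass_lo_le β f hf0 0 t
    | succ i =>
      rcases mass_lev_cases β hβ f i t with h | ⟨h, _, _⟩
      · rw [h]; exact hf0 t
      · rw [h]
  have levle' : ∀ i t, lev β f i t ≤ β * 4 ^ i := by
    intro i t
    cases i with
    | zero => exact mass_lo_le' β hβ f 0 t
    | succ i =>
      rcases mass_lev_cases β hβ f i t with h | ⟨h, _, h2⟩
      · rw [h]; positivity
      · rw [h]; exact h2
  have ilo : ∀ i, Integrable (lo β f i) μ := by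
    intro i
    refine Integrable.mono' hfi (mlo i).aestronglyMeasurable (Filter.Eventually.of_forall ?_)
    intro t
    rw [Real.norm_eq_abs, abs_of_nonneg (mass_lo_nonneg β f hf0 i t)]
    exact mass_lo_le β f hf0 i t
  have ilev : ∀ i, Integrable (lev β f i) μ := by
    intro i
    refine Integrable.mono' hfi (mlev i).aestronglyMeasurable (Filter.Eventually.of_forall ?_)
    intro t
    rw [Real.norm_eq_abs, abs_of_nonneg (levnn i t)]
    exact levle i t
  have isq : Integrable (fun t => f t ^ 2) μ := by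
    refine Integrable.mono' hfi (hfm.pow_const 2).aestronglyMeasurable
      (Filter.Eventually.of_forall ?_)
    intro t
    rw [Real.norm_eq_abs, abs_of_nonneg (sq_nonneg _)]
    nlinarith [hf0 t, hf1 t]
  refine ⟨?_, ?_, ?_⟩
  · intro i
    exact ⟨mlo i, ilo i, fun t => ⟨mass_lo_nonneg β f hf0 i t, mass_lo_le' β hβ f i t⟩,
      integral_mono (ilo i) hfi (fun t => mass_lo_le β f hf0 i t)⟩
  · intro i
    exact ⟨mlev i, ilev i, fun t => ⟨levnn i t, levle' i t⟩,
      integral_mono (ilev i) hfi (fun t => levle i t)⟩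
  · intro i
    rw [← integral_const_mul]
    refine integral_mono ((ilev (i + 1)).const_mul _) isq (fun t => ?_)
    show β * 4 ^ i * lev β f (i + 1) t ≤ f t ^ 2
    rcases mass_lev_cases β hβ f i t with h | ⟨h, h1, _⟩
    · rw [h, mul_zero]; positivity
    · rw [h, sq]
      exact mul_le_mul_of_nonneg_right h1.le (hf0 t)

end Pool.Agent.H777.LB
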