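import Pool.Agent.H777.LB.Defs

set_option autoImplicit false

namespace Pool.Agent.H777.LB

open scoped Classical in
/-- Expansion of the energy of `(1 - t) ν + t δ_y`. -/
theorem min_expand {α : Type} (Y : Finset α) (k : α → α → ℝ) (hk : ∀ a b, k a b = k b a)
    (ν : α → ℝ) (y : α) (hy : y ∈ Y) (t : ℝ) :
    ∑ a ∈ Y, ∑ b ∈ Y, ((1 - t) * ν a + t * (if a = y then 1 else 0)) *
        ((1 - t) * ν b + t * (if b = y then 1 else 0)) * k a b =
      (1 - t) ^ 2 * (∑ a ∈ Y, ∑ b ∈ Y, ν a * ν b * k a b) +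
        2 * (t * (1 - t)) * (∑ b ∈ Y, ν b * k y b) + t ^ 2 * k y y := by
  have h1 : ∀ a ∈ Y, ∑ b ∈ Y, ((1 - t) * ν a + t * (if a = y then 1 else 0)) *
        ((1 - t) * ν b + t * (if b = y then 1 else 0)) * k a b =
      (1 - t) ^ 2 * (∑ b ∈ Y, ν a * ν b * k a b) +
        (t * (1 - t)) * ((if a = y then 1 else 0) * (∑ b ∈ Y, ν b * k a b)) +
        (t * (1 - t)) * (ν a * k a y) + t ^ 2 * ((if a = y then 1 else 0) * k a y) := by
    intro a _
    have e1 : ∀ b ∈ Y, ((1 - t) * ν a + t * (if a = y then 1 else 0)) *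
        ((1 - t) * ν b + t * (if b = y then 1 else 0)) * k a b =
        (1 - t) ^ 2 * (ν a * ν b * k a b) +
        (t * (1 - t)) * ((if a = y then 1 else 0) * (ν b * k a b)) +
        (t * (1 - t)) * (if b = y then ν a * k a b else 0) +
        t ^ 2 * ((if a = y then 1 else 0) * (if b = y then k a b else 0)) := by
      intro b _
      split_ifs <;> ring
    rw [Finset.sum_congr rfl e1, Finset.sum_add_distrib, Finset.sum_add_distrib,
      Finset.sum_add_distrib, ← Finset.mul_sum, ← Finset.mul_sum, ← Finset.mul_sum,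
      ← Finset.mul_sum, ← Finset.mul_sum, ← Finset.mul_sum,
      Finset.sum_ite_eq' Y y (fun b => ν a * k a b), Finset.sum_ite_eq' Y y (fun b => k a b)]
    simp only [hy, if_true]
  rw [Finset.sum_congr rfl h1, Finset.sum_add_distrib, Finset.sum_add_distrib,
    Finset.sum_add_distrib, ← Finset.mul_sum, ← Finset.mul_sum, ← Finset.mul_sum,
    ← Finset.mul_sum]
  have e2 : ∑ a ∈ Y, (if a = y then (1 : ℝ) else 0) * (∑ b ∈ Y, ν b * k a b) =
      ∑ b ∈ Y, ν b * k y b := by
    simp only [ite_mul, one_mul, zero_mul]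
    rw [Finset.sum_ite_eq' Y y (fun a => ∑ b ∈ Y, ν b * k a b)]
    simp only [hy, if_true]
  have e3 : ∑ a ∈ Y, (if a = y then (1 : ℝ) else 0) * k a y = k y y := by
    simp only [ite_mul, one_mul, zero_mul]
    rw [Finset.sum_ite_eq' Y y (fun a => k a y)]
    simp only [hy, if_true]
  have e4 : ∑ a ∈ Y, ν a * k a y = ∑ b ∈ Y, ν b * k y b :=
    Finset.sum_congr rfl (fun a _ => by rw [hk a y])
  rw [e2, e3, e4]
  ring

theorem pf_min : S_min := by
  classical
  intro α Y hY k hk
  set S : Set (α → ℝ) := {ν | (∀ y, ν y ∈ Set.Icc (0 : ℝ) 1) ∧ ∑ y ∈ Y, ν y = 1} with hS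
  have hSc : IsCompact S := by
    have h1 : IsCompact (Set.pi Set.univ (fun _ : α => Set.Icc (0 : ℝ) 1)) :=
      isCompact_univ_pi (fun _ => isCompact_Icc)
    have h2 : IsClosed {ν : α → ℝ | ∑ y ∈ Y, ν y = 1} :=
      isClosed_eq (continuous_finsetSum Y (fun y _ => continuous_apply y)) continuous_const
    have h3 : S = Set.pi Set.univ (fun _ : α => Set.Icc (0 : ℝ) 1) ∩
        {ν : α → ℝ | ∑ y ∈ Y, ν y = 1} := by
      ext ν
      rw [hS, Set.mem_ofPred_eq, Set.mem_inter_iff, Set.mem_univ_pi, Set.mem_ofPred_eq]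
    rw [h3]
    exact h1.inter_right h2
  obtain ⟨y0, hy0⟩ := hY
  have hSn : S.Nonempty := by
    refine ⟨fun y => if y = y0 then 1 else 0, ?_, ?_⟩
    · intro y
      dsimp only
      split_ifs <;> simp
    · rw [Finset.sum_ite_eq' Y y0 (fun _ => (1 : ℝ))]
      simp only [hy0, if_true]
  have hcont : Continuous (fun ν : α → ℝ => ∑ a ∈ Y, ∑ b ∈ Y, ν a * ν b * k a b) := by
    refine continuous_finsetSum Y (fun a _ => continuous_finsetSum Y (fun b _ => ?_))
    exact ((continuous_apply a).mul (continuous_apply b)).mul continuous_const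
  obtain ⟨ν, hν, hmin⟩ := hSc.exists_isMinOn hSn hcont.continuousOn
  refine ⟨ν, fun y => (hν.1 y).1, hν.2, ?_⟩
  intro y hy
  set E : ℝ := ∑ a ∈ Y, ∑ b ∈ Y, ν a * ν b * k a b with hE
  set U : ℝ := ∑ b ∈ Y, ν b * k y b with hU
  have key : ∀ t : ℝ, 0 ≤ t → t ≤ 1 →
      E ≤ (1 - t) ^ 2 * E + 2 * (t * (1 - t)) * U + t ^ 2 * k y y := by
    intro t ht0 ht1
    have hmem : (fun a => (1 - t) * ν a + t * (if a = y then 1 else 0)) ∈ S := by
      refine ⟨?_, ?_⟩
      · intro a
        have h0 := (hν.1 a).1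
        have h1 := (hν.1 a).2
        dsimp only
        split_ifs
        · constructor
          · nlinarith [mul_nonneg (sub_nonneg.2 ht1) h0]
          · nlinarith [mul_nonneg (sub_nonneg.2 ht1) (sub_nonneg.2 h1)]
        · constructor
          · nlinarith [mul_nonneg (sub_nonneg.2 ht1) h0]
          · nlinarith [mul_nonneg (sub_nonneg.2 ht1) (sub_nonneg.2 h1)]
      · dsimp only
        rw [Finset.sum_add_distrib, ← Finset.mul_sum, ← Finset.mul_sum, hν.2,
          Finset.sum_ite_eq' Y y (fun _ => (1 : ℝ))]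
        simp only [hy, if_true]
        ring
    have := isMinOn_iff.1 hmin _ hmem
    rw [min_expand Y k hk ν y hy t] at this
    exact this
  by_contra hlt
  rw [not_le] at hlt
  set C : ℝ := E - 2 * U + k y y with hC
  have hD : 0 < E - U := by linarith
  have hpos : 0 < |C| + (E - U) + 1 := by positivity
  set t : ℝ := (E - U) / (|C| + (E - U) + 1) with ht
  have ht0 : 0 < t := div_pos hD hpos
  have ht1 : t ≤ 1 := by
    rw [ht, div_le_one hpos]
    linarith [abs_nonneg C]
  have htC : t * C < E - U := by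
    have h1 : t * C ≤ t * |C| := mul_le_mul_of_nonneg_left (le_abs_self C) ht0.le
    have h2 : t * (|C| + (E - U) + 1) = E - U := by
      rw [ht]; field_simp
    nlinarith
  have h := key t ht0.le ht1
  have h3 : 0 ≤ t * (-2 * (E - U) + t * C) := by
    rw [hC]; nlinarith [h]
  have h4 : 0 ≤ -2 * (E - U) + t * C := nonneg_of_mul_nonneg_right h3 ht0
  linarith

end Pool.Agent.H777.LB
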