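import Pool.Agent.H777.LB.Defs

set_option autoImplicit false
set_option linter.unusedVariables false
set_option linter.unusedSectionVars false

/-!
# L11: the net of cells, from the bound for the number of cells of one depth class
-/

namespace Pool.Agent.H777.LB

open scoped RealInnerProductSpace Pointwise
open Module MeasureTheory
open Pool.Agent.H845R2 (SB pol)
open Pool.Agent.K3h52.HR (Bd Mac Mth dcap mth_meet)

/-- a maximal subset without related pairs -/
theorem net_max {α : Type} (X : Finset α) (R : α → α → Prop) (hR : ∀ x y, R x y → R y x) :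
    ∃ F ⊆ X, (∀ p ∈ F, ∀ q ∈ F, p ≠ q → ¬ R p q) ∧ ∀ x ∈ X, ∃ p ∈ F, x = p ∨ R x p := by
  classical
  obtain ⟨P, hP⟩ : ∃ P : Finset α → Prop, P = fun F => ∀ p ∈ F, ∀ q ∈ F, p ≠ q → ¬ R p q := ⟨_, rfl⟩
  have hne : (X.powerset.filter P).Nonempty := ⟨∅, by simp [hP]⟩
  obtain ⟨F, hF, hmax⟩ := Finset.exists_max_image _ (fun F : Finset α => F.card) hne
  rw [Finset.mem_filter, Finset.mem_powerset] at hF
  have hF2 : ∀ p ∈ F, ∀ q ∈ F, p ≠ q → ¬ R p q := by
    have := hF.2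
    rwa [hP] at this
  refine ⟨F, hF.1, hF2, ?_⟩
  intro x hx
  by_contra hcon
  push Not at hcon
  have hxF : x ∉ F := fun h => (hcon x h).1 rfl
  have hG : insert x F ∈ X.powerset.filter P := by
    rw [Finset.mem_filter, Finset.mem_powerset]
    refine ⟨Finset.insert_subset hx hF.1, ?_⟩
    rw [hP]
    intro p hp q hq hne
    rcases Finset.mem_insert.mp hp with h1 | hp <;> rcases Finset.mem_insert.mp hq with h2 | hq
    · exact absurd (h1.trans h2.symm) hne
    · rw [h1]; exact (hcon q hq).2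
    · rw [h2]; exact fun h => (hcon p hp).2 (hR _ _ h)
    · exact hF2 p hp q hq hne
  have := hmax _ hG
  rw [Finset.card_insert_of_notMem hxF] at this
  omega

/-- the dyadic class of a number in `[2^(-k), 1]` -/
theorem net_dyadic (k : ℕ) (η : ℝ) (h1 : (1 / 2 : ℝ) ^ k ≤ η) (h2 : η ≤ 1) :
    ∃ j ≤ k, (1 / 2 : ℝ) ^ j / 2 ≤ η ∧ η ≤ (1 / 2 : ℝ) ^ j := by
  classical
  have hex : ∃ j, (1 / 2 : ℝ) ^ j / 2 ≤ η := by
    refine ⟨k, le_trans ?_ h1⟩
    have : (0 : ℝ) < (1 / 2) ^ k := by positivity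
    linarith
  refine ⟨Nat.find hex, ?_, Nat.find_spec hex, ?_⟩
  · apply Nat.find_le
    have : (0 : ℝ) < (1 / 2) ^ k := by positivity
    linarith
  · rcases Nat.eq_zero_or_pos (Nat.find hex) with h | h
    · rw [h, pow_zero]; exact h2
    · have h3 := Nat.find_min hex (Nat.sub_lt h one_pos)
      push Not at h3
      have e : (1 / 2 : ℝ) ^ (Nat.find hex) = (1 / 2 : ℝ) ^ (Nat.find hex - 1) / 2 := by
        conv_lhs => rw [← Nat.sub_add_cancel h]
        rw [pow_succ]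
        ring
      rw [e]
      exact h3.le

section

variable {V : Type} [NormedAddCommGroup V] [InnerProductSpace ℝ V] [FiniteDimensional ℝ V]

/-- a point of `(1 - ε) L` is a multiple of a boundary point of `L` -/
theorem net_bdry {L : Set V} (hL : Bd L) {x : V} (hx0 : x ≠ 0) {r : ℝ} (hr : 0 ≤ r) (hx : x ∈ r • L) :
    ∃ η : ℝ, 1 - r ≤ η ∧ η < 1 ∧ ∃ x' ∈ L, x' ∉ interior L ∧ x = (1 - η) • x' := by
  have habs : Absorbent ℝ L := absorbent_nhds_zero (mem_interior_iff_mem_nhds.mp hL.i0)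
  have hbd : Bornology.IsVonNBounded ℝ L := by
    rw [NormedSpace.isVonNBounded_iff]
    exact hL.comp.isBounded
  have hg : 0 < gauge L x := (gauge_pos habs hbd).mpr hx0
  have hgr : gauge L x ≤ r := gauge_le_of_mem hr hx
  refine ⟨1 - gauge L x, by linarith, by linarith, (gauge L x)⁻¹ • x, ?_, ?_, ?_⟩
  · have h1 : gauge L ((gauge L x)⁻¹ • x) = 1 := by
      rw [gauge_smul_of_nonneg (inv_nonneg.mpr hg.le), smul_eq_mul, inv_mul_cancel₀ hg.ne']
    have h2 : (gauge L x)⁻¹ • x ∈ closure L :=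
      (gauge_le_one_iff_mem_closure hL.conv (mem_interior_iff_mem_nhds.mp hL.i0)).mp h1.le
    rwa [hL.comp.isClosed.closure_eq] at h2
  · intro h
    have h1 : gauge L ((gauge L x)⁻¹ • x) = 1 := by
      rw [gauge_smul_of_nonneg (inv_nonneg.mpr hg.le), smul_eq_mul, inv_mul_cancel₀ hg.ne']
    have h2 := (gauge_lt_one_iff_mem_interior hL.conv (mem_interior_iff_mem_nhds.mp hL.i0)).mpr h
    linarith
  · rw [sub_sub_cancel, smul_smul, mul_inv_cancel₀ hg.ne', one_smul]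

end

theorem pf_net (h : S_count) : S_net := by
  classical
  intro V _ _ _ _ _ μ _ K L D hK hL hD hKD VL VU Λ hVL hΛ hlow hup k X hX
  set d := finrank ℝ V with hd
  have h0D : (0 : V) ∈ D := hD.zero_mem
  have hKL : K ⊆ L := fun x hx => by simpa using hKD x hx 0 h0D
  have hk1 : (1 / 2 : ℝ) ^ k ≤ 1 := pow_le_one₀ (by norm_num) (by norm_num)
  have hk0 : (0 : ℝ) < (1 / 2 : ℝ) ^ k := by positivity
  have hXK : ∀ x ∈ X, x ∈ K := by
    intro x hx
    obtain ⟨y, hy, rfl⟩ := (hX x hx).1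
    exact hK.conv.smul_mem_of_zero_mem hK.zero hy ⟨by linarith, by linarith⟩
  -- the depth
  have hdep : ∀ x ∈ X, x ≠ 0 → ∃ j ≤ k, ∃ η : ℝ, (1 / 2 : ℝ) ^ j / 2 ≤ η ∧ η ≤ (1 / 2 : ℝ) ^ j ∧ η < 1 ∧
      ∃ x' ∈ L, x' ∉ interior L ∧ x = (1 - η) • x' := by
    intro x hx hx0
    have h1 : x ∈ (1 - (1 / 2 : ℝ) ^ k) • L := Set.smul_set_mono hKL (hX x hx).1
    obtain ⟨η, hη1, hη2, x', hx', hxi, he⟩ := net_bdry hL hx0 (by linarith) h1
    obtain ⟨j, hj, hj1, hj2⟩ := net_dyadic k η (by linarith) hη2.le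
    exact ⟨j, hj, η, hj1, hj2, hη2, x', hx', hxi, he⟩
  -- the classes
  let Cl : ℕ → V → Prop := fun j x => x ≠ 0 ∧ ∃ η : ℝ, (1 / 2 : ℝ) ^ j / 2 ≤ η ∧ η ≤ (1 / 2 : ℝ) ^ j ∧
    η < 1 ∧ ∃ x' ∈ L, x' ∉ interior L ∧ x = (1 - η) • x'
  have hsel : ∀ j : ℕ, ∃ F ⊆ X.filter (Cl j),
      (∀ p ∈ F, ∀ q ∈ F, p ≠ q → ¬ ¬ Disjoint (Mth L p) (Mth L q)) ∧
      ∀ x ∈ X.filter (Cl j), ∃ p ∈ F, x = p ∨ ¬ Disjoint (Mth L x) (Mth L p) := fun j =>
    net_max (X.filter (Cl j)) (fun p q => ¬ Disjoint (Mth L p) (Mth L q))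
      (fun x y hxy h' => hxy h'.symm)
  choose F hFX hFd hFm using hsel
  set B : ℝ := 4 * (2 * 2 ^ k + 1) ^ 2 * 16384 ^ d * (VU / VL) ^ 2 * Λ with hB
  have hcard : ∀ j ≤ k, ((F j).card : ℝ) ≤ B := by
    intro j hj
    have hζ : (0 : ℝ) < (1 / 2) ^ j := by positivity
    have h1 := h V μ K L D hL hD hKD ((1 / 2 : ℝ) ^ j) hζ (pow_le_one₀ (by norm_num) (by norm_num))
      VL VU Λ hVL hΛ hlow hup (F j) ?_ ?_
    · refine h1.trans ?_
      rw [hB, ← hd]
      have h2 : (2 / (1 / 2 : ℝ) ^ j + 1) ≤ 2 * 2 ^ k + 1 := by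
        have h3 : 2 / (1 / 2 : ℝ) ^ j = 2 * 2 ^ j := by
          rw [one_div, inv_pow, div_inv_eq_mul]
        have h4 : (2 : ℝ) ^ j ≤ 2 ^ k := pow_le_pow_right₀ (by norm_num) hj
        rw [h3]
        linarith
      have h5 : (2 / (1 / 2 : ℝ) ^ j + 1) ^ 2 ≤ (2 * 2 ^ k + 1) ^ 2 :=
        pow_le_pow_left₀ (by positivity) h2 2
      have h6 : (0 : ℝ) ≤ 16384 ^ d * (VU / VL) ^ 2 * Λ := by positivity
      have h7 := mul_le_mul_of_nonneg_right h5 h6
      nlinarith [h7]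
    · intro p hp
      have h2 := Finset.mem_filter.mp (hFX j hp)
      obtain ⟨-, η, a1, a2, a3, x', b1, b2, b3⟩ := h2.2
      exact ⟨hXK p h2.1, (hX p h2.1).2, η, a1, a2, a3, x', b1, b2, b3⟩
    · intro p hp q hq hne
      exact not_not.mp (hFd j p hp q hq hne)
  refine ⟨X.filter (fun x => x = 0) ∪ (Finset.range (k + 1)).biUnion F, ?_, ?_, ?_⟩
  · intro x hx
    rcases Finset.mem_union.mp hx with hx | hx
    · exact (Finset.mem_filter.mp hx).1
    · obtain ⟨j, -, hj⟩ := Finset.mem_biUnion.mp hx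
      exact (Finset.mem_filter.mp (hFX j hj)).1
  · have h1 : ((X.filter (fun x => x = 0)).card : ℝ) ≤ 1 := by
      have : (X.filter (fun x => x = 0)).card ≤ 1 := by
        rw [Finset.card_le_one]
        intro a ha b hb
        rw [(Finset.mem_filter.mp ha).2, (Finset.mem_filter.mp hb).2]
      exact_mod_cast this
    have h2 : (((Finset.range (k + 1)).biUnion F).card : ℝ) ≤ (k + 1) * B := by
      calc (((Finset.range (k + 1)).biUnion F).card : ℝ)
          ≤ ((∑ j ∈ Finset.range (k + 1), (F j).card : ℕ) : ℝ) := by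
            exact_mod_cast Finset.card_biUnion_le
        _ = ∑ j ∈ Finset.range (k + 1), ((F j).card : ℝ) := by push_cast; rfl
        _ ≤ ∑ j ∈ Finset.range (k + 1), B := by
            refine Finset.sum_le_sum fun j hj => hcard j ?_
            exact Nat.lt_succ_iff.mp (Finset.mem_range.mp hj)
        _ = (k + 1) * B := by rw [Finset.sum_const, Finset.card_range, nsmul_eq_mul]; push_cast; ring
    have h3 : ((X.filter (fun x => x = 0) ∪ (Finset.range (k + 1)).biUnion F).card : ℝ) ≤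
        ((X.filter (fun x => x = 0)).card : ℝ) + (((Finset.range (k + 1)).biUnion F).card : ℝ) := by
      exact_mod_cast Finset.card_union_le _ _
    linarith
  · intro x hx
    by_cases hx0 : x = 0
    · refine ⟨0, Finset.mem_union_left _ (Finset.mem_filter.mpr ⟨hx0 ▸ hx, rfl⟩), ?_⟩
      rw [hx0]
      simpa using hL.zero
    · obtain ⟨j, hj, η, a1, a2, a3, x', b1, b2, b3⟩ := hdep x hx hx0
      obtain ⟨p, hp, hpx⟩ := hFm j x (Finset.mem_filter.mpr
        ⟨hx, hx0, η, a1, a2, a3, x', b1, b2, b3⟩)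
      refine ⟨p, Finset.mem_union_right _ (Finset.mem_biUnion.mpr
        ⟨j, Finset.mem_range.mpr (Nat.lt_succ_of_le hj), hp⟩), ?_⟩
      rcases hpx with rfl | hpx
      · have e : (2 : ℝ) • x - x = x := by rw [two_smul]; abel
        rw [e]
        exact ⟨hKL (hXK x hx), hKL (hXK x hx)⟩
      · rw [Set.not_disjoint_iff] at hpx
        obtain ⟨z, hz1, hz2⟩ := hpx
        exact ⟨mth_meet hL.conv hz1 hz2, mth_meet hL.conv hz2 hz1⟩

end Pool.Agent.H777.LB
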