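import Pool.Agent.H777.LB.Defs

/-!
# L4 (rich points) of project LB (helper599 for helper777)
-/

set_option autoImplicit false

namespace Pool.Agent.H777.LB

open scoped RealInnerProductSpace Pointwise
open Module MeasureTheory
open Pool.Agent.H845R2 (SB pol)
open Pool.Agent.K3h52.HR (Bd Mac Mth dcap)

/-- greedy choice of points with small covariograms of the differences -/
theorem rich_pack {V : Type} [NormedAddCommGroup V] [InnerProductSpace ℝ V] [FiniteDimensional ℝ V]
    [MeasurableSpace V] [BorelSpace V] (μ : Measure V) [μ.IsAddHaarMeasure] (A : V → ℝ) (S : Set V)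
    (ε b : ℝ) (hA0 : ε ≤ A 0) (hsym : ∀ m, A (-m) = A m)
    (hfin : μ {m | ε ≤ A m} ≠ ⊤) (hb : μ.real {m | ε ≤ A m} ≤ b) (n : ℕ)
    (hn : n * b < μ.real S) :
    ∃ M : Finset V, M.card = n ∧ (∀ m ∈ M, m ∈ S) ∧ ∀ m ∈ M, ∀ m' ∈ M, m ≠ m' → A (m - m') < ε := by
  classical
  have hb0 : 0 ≤ b := measureReal_nonneg.trans hb
  have key : ∀ k : ℕ, k ≤ n → ∃ M : Finset V, M.card = k ∧ (∀ m ∈ M, m ∈ S) ∧
      ∀ m ∈ M, ∀ m' ∈ M, m ≠ m' → A (m - m') < ε := by
    intro k
    induction k with
    | zero => intro _; exact ⟨∅, rfl, by simp, by simp⟩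
    | succ k ih =>
      intro hk
      obtain ⟨M, hM, hMS, hMA⟩ := ih (by omega)
      set T : V → Set V := fun m => (fun a => a + -m) ⁻¹' {m | ε ≤ A m} with hT
      have hTv : ∀ m, μ (T m) = μ {m | ε ≤ A m} := fun m => measure_preimage_add_right μ (-m) _
      have hUfin : μ (⋃ m ∈ M, T m) ≠ ⊤ := by
        refine ne_of_lt (lt_of_le_of_lt (measure_biUnion_finset_le M T) ?_)
        rw [Finset.sum_congr rfl (fun m _ => hTv m)]
        exact ENNReal.sum_lt_top.2 (fun _ _ => lt_top_iff_ne_top.2 hfin)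
      have hU : μ.real (⋃ m ∈ M, T m) < μ.real S := by
        refine lt_of_le_of_lt (measureReal_biUnion_finset_le M T) ?_
        have h1 : ∑ m ∈ M, μ.real (T m) = M.card * μ.real {m | ε ≤ A m} := by
          rw [Finset.sum_congr rfl (fun m _ => show μ.real (T m) = μ.real {m | ε ≤ A m} by
            rw [Measure.real, Measure.real, hTv m])]
          simp
        rw [h1, hM]
        have h2 : (k : ℝ) * μ.real {m | ε ≤ A m} ≤ k * b := mul_le_mul_of_nonneg_left hb (by positivity)
        have h3 : (k : ℝ) * b ≤ n * b := mul_le_mul_of_nonneg_right (by exact_mod_cast (by omega : k ≤ n)) hb0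
        linarith
      have hex : ∃ a ∈ S, a ∉ ⋃ m ∈ M, T m := by
        by_contra hcon
        push Not at hcon
        exact absurd (measureReal_mono (μ := μ) (s₁ := S) hcon hUfin) (not_le.2 hU)
      obtain ⟨a, haS, haU⟩ := hex
      have ha : ∀ m ∈ M, A (a - m) < ε := by
        intro m hm
        by_contra hcon
        push Not at hcon
        apply haU
        simp only [Set.mem_iUnion]
        refine ⟨m, hm, ?_⟩
        simpa [hT, sub_eq_add_neg] using hcon
      have haM : a ∉ M := by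
        intro h
        have := ha a h
        rw [sub_self] at this
        linarith
      refine ⟨insert a M, by rw [Finset.card_insert_of_notMem haM, hM], ?_, ?_⟩
      · intro m hm
        rcases Finset.mem_insert.1 hm with rfl | hm
        · exact haS
        · exact hMS m hm
      · intro m hm m' hm' hne
        rcases Finset.mem_insert.1 hm with h1 | h1
        · rcases Finset.mem_insert.1 hm' with h2 | h2
          · exact absurd (h1.trans h2.symm) hne
          · rw [h1]; exact ha m' h2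
        · rcases Finset.mem_insert.1 hm' with h2 | h2
          · rw [← hsym, neg_sub, h2]; exact ha m h1
          · exact hMA m h1 m' h2 hne
  exact key n le_rfl

theorem pf_rich (h1 : S_cov1) (h3 : S_D) : S_rich := by
  classical
  intro V _ _ _ _ _ μ _ K hK hμ hd c ε hc hc1 hε hε1 hεc n x hn
  obtain ⟨c0, csym, cb, csub, -, cpos⟩ := h1 V μ K hK hμ
  obtain ⟨dsb, -, -, -, dvol⟩ := h3 V μ K hK hμ hd c hc hc1
  have hB := dvol ε hε hε1
  have hfin : μ {m | ε ≤ cov μ K m} ≠ ⊤ := by
    have hsub : {m | ε ≤ cov μ K m} ⊆ K - K := fun m hm => cpos m (lt_of_lt_of_le hε hm)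
    have hcomp : IsCompact (K - K) := by
      rw [sub_eq_add_neg]; exact hK.comp.add hK.comp.neg
    exact ne_of_lt (lt_of_le_of_lt (measure_mono hsub) hcomp.measure_lt_top)
  obtain ⟨M, hM, hMS, hMA⟩ := rich_pack μ (cov μ K) (Mac (K + Dc μ K c) x) ε _
    (by rw [c0]; linarith) csym hfin hB n hn
  have hch : ∀ m : V, ∃ δ : V, m ∈ M → δ ∈ Dc μ K c ∧ x - m - δ ∈ K := by
    intro m
    by_cases hm : m ∈ M
    · obtain ⟨k, hk, δ, hδ, e⟩ := Set.mem_add.1 (hMS m hm).2
      refine ⟨δ, fun _ => ⟨hδ, ?_⟩⟩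
      rw [← e, add_sub_cancel_right]
      exact hk
    · exact ⟨0, fun h => absurd h hm⟩
  choose δ hδ using hch
  set y : V → V := fun m => x + m + δ m with hy
  have hAy : ∀ m ∈ M, ∀ m' ∈ M, m ≠ m' → cov μ K (y m - y m') ≤ ε + 2 * c := by
    intro m hm m' hm' hne
    have e1 : m - m' = (y m - y m') + (δ m' - δ m) := by simp only [hy]; abel
    have h4 := csub (y m - y m') (δ m' - δ m)
    rw [← e1] at h4
    have h5 := csub (δ m') (-δ m)
    rw [← sub_eq_add_neg, csym] at h5
    have h6 : 1 - c ≤ cov μ K (δ m') := (hδ m' hm').1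
    have h7 : 1 - c ≤ cov μ K (δ m) := (hδ m hm).1
    have h8 := hMA m hm m' hm' hne
    linarith
  have hinj : Set.InjOn y M := by
    intro m hm m' hm' he
    by_contra hne
    have h4 := hAy m hm m' hm' hne
    rw [he, sub_self, c0] at h4
    linarith
  refine ⟨M.image y, ?_, ?_, ?_⟩
  · rw [Finset.card_image_of_injOn hinj, hM]
  · intro z hz
    obtain ⟨m, hm, rfl⟩ := Finset.mem_image.1 hz
    refine ⟨?_, ?_⟩
    · have e : (2 : ℝ) • x - y m = x - m - δ m := by simp only [hy]; rw [two_smul]; abel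
      rw [e]; exact (hδ m hm).2
    · obtain ⟨k, hk, δ2, hδ2, e⟩ := Set.mem_add.1 (hMS m hm).1
      refine Set.mem_add.2 ⟨k, hk, δ2 + δ m, ?_, ?_⟩
      · refine Set.mem_smul_set.2 ⟨(1 / 2 : ℝ) • δ2 + (1 / 2 : ℝ) • δ m,
          dsb.conv hδ2 (hδ m hm).1 (by norm_num) (by norm_num) (by norm_num), ?_⟩
        rw [smul_add, smul_smul, smul_smul]; norm_num
      · simp only [hy]; rw [← e]; abel
  · intro z hz z' hz' hne
    obtain ⟨m, hm, rfl⟩ := Finset.mem_image.1 hz
    obtain ⟨m', hm', rfl⟩ := Finset.mem_image.1 hz'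
    exact hAy m hm m' hm' (fun h => hne (by rw [h]))

end Pool.Agent.H777.LB
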