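import Pool.Agent.H777.LB.Defs

set_option autoImplicit false

/-! # L16 (helper200): every point is admissible on the highest level -/

namespace Pool.Agent.H777.LB

open scoped RealInnerProductSpace Pointwise
open Module MeasureTheory
open Pool.Agent.H845R2 (SB pol)
open Pool.Agent.K3h52.HR (Bd Mac Mth dcap)

theorem pf_top (h3 : S_D) : S_top := by
  intro V _ _ _ _ _ μ _ K hK hvol hd c hc0 hc1 x
  obtain ⟨hSB, hab, hsub, -, -⟩ := h3 V μ K hK hvol hd c hc0 hc1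
  have hdr : (0 : ℝ) < finrank ℝ V := by exact_mod_cast hd
  have hk : (0 : ℝ) < 2 * finrank ℝ V / c := by positivity
  have h0 := hK.zero
  have hinc : Mac (K + Dc μ K c) x ⊆
      {a | x + (1 : ℝ) • a ∈ (2 * (finrank ℝ V : ℝ) / c) • Dc μ K c} := by
    rintro a ⟨ha, -⟩
    obtain ⟨k, hkK, δ, hδ, hsum⟩ := ha
    obtain ⟨p, hp, q, hq, hpq⟩ := hsub hδ
    have hp' : (1 / 2 : ℝ) • k + (1 / 2 : ℝ) • p ∈ K :=
      hK.conv hkK hp (by norm_num) (by norm_num) (by norm_num)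
    have hq' : (1 / 2 : ℝ) • (0 : V) + (1 / 2 : ℝ) • q ∈ K :=
      hK.conv h0 hq (by norm_num) (by norm_num) (by norm_num)
    refine ⟨_, hab _ hp' _ hq', ?_⟩
    have hsum' : k + δ = x + a := hsum
    have hpq' : p - q = δ := hpq
    show (2 * (finrank ℝ V : ℝ) / c) • ((c / (finrank ℝ V : ℝ)) •
      ((1 / 2 : ℝ) • k + (1 / 2 : ℝ) • p - ((1 / 2 : ℝ) • (0 : V) + (1 / 2 : ℝ) • q))) =
      x + (1 : ℝ) • a
    have e1 : (2 * (finrank ℝ V : ℝ) / c) * (c / (finrank ℝ V : ℝ)) = 2 := by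
      field_simp
    rw [smul_smul, e1, one_smul, ← hsum', ← hpq']
    module
  have hcomp : IsCompact ((2 * (finrank ℝ V : ℝ) / c) • Dc μ K c) := hSB.comp.smul _
  have hfin : μ {a | x + (1 : ℝ) • a ∈ (2 * (finrank ℝ V : ℝ) / c) • Dc μ K c} ≠ ⊤ := by
    have e : {a | x + (1 : ℝ) • a ∈ (2 * (finrank ℝ V : ℝ) / c) • Dc μ K c} =
        (fun a => x + a) ⁻¹' ((2 * (finrank ℝ V : ℝ) / c) • Dc μ K c) := by
      ext a
      simp
    rw [e, measure_preimage_add]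
    exact hcomp.measure_lt_top.ne
  calc μ.real (Mac (K + Dc μ K c) x)
      ≤ μ.real {a | x + (1 : ℝ) • a ∈ (2 * (finrank ℝ V : ℝ) / c) • Dc μ K c} :=
        measureReal_mono hinc hfin
    _ = (1 / 1) ^ finrank ℝ V * μ.real ((2 * (finrank ℝ V : ℝ) / c) • Dc μ K c) :=
        Pool.Agent.K3h52.HR.vol_pre μ one_pos x _
    _ = (2 * finrank ℝ V / c) ^ finrank ℝ V * μ.real (Dc μ K c) := by
        rw [Pool.Agent.K3h52.HR.vol_smul μ hk.le]
        simp

end Pool.Agent.H777.LB
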