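import Pool.Agent.H777.LB.Defs

set_option autoImplicit false
set_option linter.unusedSectionVars false

/-!
# L15: covering the cells of one type
-/

namespace Pool.Agent.H777.LB

open scoped RealInnerProductSpace Pointwise
open Module MeasureTheory
open Pool.Agent.H845R2 (SB pol)
open Pool.Agent.K3h52.HR (Bd Mac Mth dcap mac_comp mac_conv vol_pre)

section aux

variable {V : Type} [NormedAddCommGroup V] [InnerProductSpace ℝ V] [FiniteDimensional ℝ V]
  [MeasurableSpace V] [BorelSpace V]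

omit [FiniteDimensional ℝ V] [MeasurableSpace V] [BorelSpace V] in
theorem type_three {C : Set V} (hC : Convex ℝ C) {a b c : V} (ha : a ∈ C) (hb : b ∈ C)
    (hc : c ∈ C) {u v w : ℝ} (hu : 0 ≤ u) (hv : 0 ≤ v) (hw : 0 ≤ w) (h : u + v + w = 1) :
    u • a + v • b + w • c ∈ C := by
  have h1 := hC.sum_mem (t := Finset.univ) (w := ![u, v, w]) (z := ![a, b, c]) (by
    intro i _
    fin_cases i
    · exact hu
    · exact hv
    · exact hw) (by simp [Fin.sum_univ_three, h]) (by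
    intro i _
    fin_cases i
    · exact ha
    · exact hb
    · exact hc)
  simpa [Fin.sum_univ_three] using h1

omit [MeasurableSpace V] [BorelSpace V] in
theorem type_bd {K D : Set V} (hK : Bd K) (hD : SB D) : Bd (K + D) := by
  refine ⟨hK.comp.add hD.comp, hK.conv.add hD.conv, ?_⟩
  have h1 : K ⊆ K + D := fun x hx => ⟨x, hx, 0, hD.zero_mem, add_zero x⟩
  exact interior_mono h1 hK.i0

/-- the region of a cell -/
def type_R (K D : Set V) (p : V) : Set V :=
  {z | (-(1 / 3 : ℝ)) • p + (1 / 3 : ℝ) • z ∈ Mac (K + D) p} ∩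
    {z | ∃ κ ∈ K, ∃ m ∈ D, z = (1 / 2 : ℝ) • (p + κ) + (5 / 2 : ℝ) • m}

omit [FiniteDimensional ℝ V] [MeasurableSpace V] [BorelSpace V] in
theorem type_R_comp {K D : Set V} (hK : IsCompact K) (hD : IsCompact D) (p : V) :
    IsCompact (type_R K D p) := by
  unfold type_R
  refine IsCompact.inter_left ?_ ((mac_comp (hK.add hD) p).isClosed.preimage
    (f := fun z : V => (-(1 / 3 : ℝ)) • p + (1 / 3 : ℝ) • z) (by fun_prop))
  have e : {z : V | ∃ κ ∈ K, ∃ m ∈ D, z = (1 / 2 : ℝ) • (p + κ) + (5 / 2 : ℝ) • m} =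
      (fun q : V × V => (1 / 2 : ℝ) • (p + q.1) + (5 / 2 : ℝ) • q.2) '' (K ×ˢ D) := by
    ext z
    constructor
    · rintro ⟨κ, hκ, m, hm, rfl⟩
      exact ⟨(κ, m), ⟨hκ, hm⟩, rfl⟩
    · rintro ⟨⟨κ, m⟩, ⟨hκ, hm⟩, rfl⟩
      exact ⟨κ, hκ, m, hm, rfl⟩
  rw [e]
  exact (hK.prod hD).image (by fun_prop)

theorem type_R_vol (μ : Measure V) [μ.IsAddHaarMeasure] {K D : Set V} (hK : IsCompact K)
    (hD : IsCompact D) (p : V) :
    μ.real (type_R K D p) ≤ 3 ^ finrank ℝ V * μ.real (Mac (K + D) p) := by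
  have h1 := vol_pre μ (k := (1 / 3 : ℝ)) (by norm_num) ((-(1 / 3 : ℝ)) • p) (Mac (K + D) p)
  rw [one_div_one_div] at h1
  rw [← h1]
  refine measureReal_mono Set.inter_subset_left ?_
  -- the larger set has finite measure
  have h2 : IsCompact {v : V | (-(1 / 3 : ℝ)) • p + (1 / 3 : ℝ) • v ∈ Mac (K + D) p} := by
    have e : {v : V | (-(1 / 3 : ℝ)) • p + (1 / 3 : ℝ) • v ∈ Mac (K + D) p} =
        (fun a : V => p + (3 : ℝ) • a) '' Mac (K + D) p := by
      ext z
      constructor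
      · intro hz
        refine ⟨_, hz, ?_⟩
        change p + (3 : ℝ) • ((-(1 / 3 : ℝ)) • p + (1 / 3 : ℝ) • z) = z
        rw [smul_add, smul_smul, smul_smul]
        norm_num
      · rintro ⟨a, ha, rfl⟩
        change (-(1 / 3 : ℝ)) • p + (1 / 3 : ℝ) • (p + (3 : ℝ) • a) ∈ Mac (K + D) p
        have e2 : (-(1 / 3 : ℝ)) • p + (1 / 3 : ℝ) • (p + (3 : ℝ) • a) = a := by
          rw [smul_add, smul_smul, ← add_assoc, ← add_smul]
          norm_num
        rw [e2]
        exact ha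
    rw [e]
    exact (mac_comp (hK.add hD) p).image (by fun_prop)
  exact h2.measure_lt_top.ne

omit [FiniteDimensional ℝ V] in
theorem type_Q_meas {K : Set V} (hK : IsClosed K) (P : Finset V) : MeasurableSet (Qs K P) := by
  have e : Qs K P = ⋃ y ∈ P, {t : V | y - t ∈ K} := by
    ext t; simp [Qs]
  rw [e]
  refine P.measurableSet_biUnion fun y _ => ?_
  exact (hK.preimage (f := fun t : V => y - t) (by fun_prop)).measurableSet

omit [FiniteDimensional ℝ V] [MeasurableSpace V] [BorelSpace V] in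
/-- an element of the region is in the reduced translate for all good `w` -/
theorem type_good {K : Set V} (hK : Convex ℝ K) {l : ℝ} (hl0 : 0 ≤ l) {p z y w κ₁ m : V}
    (hκ₁ : κ₁ ∈ K) (hz : z = (1 / 2 : ℝ) • (p + κ₁) + (5 / 2 : ℝ) • m)
    (hy : (2 : ℝ) • p - y ∈ K) (hu : y - w + (10 : ℝ) • m ∈ l • K) : z ∈ St K l w := by
  obtain ⟨a, ha, hau⟩ := hu
  have hau' : l • a = y - w + (10 : ℝ) • m := hau
  have hpos : 0 < (3 + l) / 4 := by linarith
  refine ⟨(l / (3 + l)) • a + (1 / (3 + l)) • ((2 : ℝ) • p - y) + (2 / (3 + l)) • κ₁, ?_, ?_⟩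
  · refine type_three hK ha hy hκ₁ (by positivity) (by positivity) (by positivity) ?_
    have : (3 + l) ≠ 0 := by linarith
    field_simp
    ring
  · change ((3 + l) / 4) • ((l / (3 + l)) • a + (1 / (3 + l)) • ((2 : ℝ) • p - y) +
      (2 / (3 + l)) • κ₁) = z - (1 / 4 : ℝ) • w
    have h3 : (3 + l) ≠ 0 := by linarith
    rw [smul_add, smul_add, smul_smul, smul_smul, smul_smul]
    have e1 : (3 + l) / 4 * (l / (3 + l)) = (1 / 4) * l := by field_simp
    have e2 : (3 + l) / 4 * (1 / (3 + l)) = 1 / 4 := by field_simp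
    have e3 : (3 + l) / 4 * (2 / (3 + l)) = 1 / 2 := by field_simp; norm_num
    rw [e1, e2, e3, mul_smul, hau', hz]
    module

theorem type_bad (h12 : S_bad) (μ : Measure V) [μ.IsAddHaarMeasure] {K : Set V} (hK : Bd K)
    (hK1 : μ.real K = 1) {c l H κ : ℝ} {n : ℕ} (hc : 0 < c) (hc1 : c < 1) (hl0 : 0 ≤ l)
    (hl1 : l ≤ 1) (hH : 0 ≤ H) {s : V → ℝ} (hs : ∀ t, 0 ≤ s t ∧ s t ≤ H)
    (hHn : H * n * (10 * c + (1 - l ^ finrank ℝ V)) ≤ κ / 20) {p z : V} {P : Finset V}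
    (hPn : P.card ≤ n) (hP : ∀ y ∈ P, (2 : ℝ) • p - y ∈ K)
    (hz : z ∈ type_R K (Dc μ K c) p) :
    ∫ t in {w | w ∈ Qs K P ∧ z ∉ St K l w}, s t ∂μ ≤ κ / 20 := by
  obtain ⟨-, κ₁, hκ₁, m, hm, hzm⟩ := hz
  set A : Set V := {w | w ∈ Qs K P ∧ z ∉ St K l w} with hA
  let B : V → Set V := fun y => {w | y - w ∈ K ∧ y - w + (10 : ℝ) • m ∉ l • K}
  have hBfin : ∀ y, μ (B y) < ⊤ := by
    intro y
    have h1 : IsCompact {w : V | y - w ∈ K} := by
      have e : {w : V | y - w ∈ K} = (fun a => y - a) '' K := by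
        ext w
        constructor
        · intro hw
          exact ⟨y - w, hw, by simp⟩
        · rintro ⟨a, ha, rfl⟩
          change y - (y - a) ∈ K
          simpa using ha
      rw [e]
      exact hK.comp.image (by fun_prop)
    exact lt_of_le_of_lt (measure_mono fun w hw => hw.1) h1.measure_lt_top
  have hAB : A ⊆ ⋃ y ∈ P, B y := by
    rintro w ⟨⟨y, hy, hyw⟩, hzw⟩
    refine Set.mem_iUnion₂.mpr ⟨y, hy, hyw, ?_⟩
    intro hu
    exact hzw (type_good hK.conv hl0 hκ₁ hzm (hP y hy) hu)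
  have hUfin : μ (⋃ y ∈ P, B y) < ⊤ := by
    refine lt_of_le_of_lt (measure_biUnion_finset_le _ _) ?_
    exact ENNReal.sum_lt_top.mpr fun y _ => hBfin y
  have hAfin : μ A < ⊤ := lt_of_le_of_lt (measure_mono hAB) hUfin
  have h1 : ∫ t in A, s t ∂μ ≤ H * μ.real A := by
    have := norm_setIntegral_le_of_norm_le_const (μ := μ) (f := s) (C := H) hAfin
      (fun x _ => by rw [Real.norm_of_nonneg (hs x).1]; exact (hs x).2)
    exact (le_abs_self _).trans this
  have h2 : μ.real A ≤ n * (10 * c + (1 - l ^ finrank ℝ V)) := by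
    have hnn : 0 ≤ 10 * c + (1 - l ^ finrank ℝ V) := by
      have : l ^ finrank ℝ V ≤ 1 := pow_le_one₀ hl0 hl1
      linarith
    calc μ.real A ≤ μ.real (⋃ y ∈ P, B y) := measureReal_mono hAB hUfin.ne
      _ ≤ ∑ y ∈ P, μ.real (B y) := measureReal_biUnion_finset_le _ _
      _ ≤ ∑ _y ∈ P, (10 * c + (1 - l ^ finrank ℝ V)) :=
          Finset.sum_le_sum fun y _ => h12 V μ K hK hK1 c l hc hc1 hl0 hl1 m hm y
      _ = P.card * (10 * c + (1 - l ^ finrank ℝ V)) := by rw [Finset.sum_const, nsmul_eq_mul]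
      _ ≤ n * (10 * c + (1 - l ^ finrank ℝ V)) :=
          mul_le_mul_of_nonneg_right (by exact_mod_cast hPn) hnn
  calc ∫ t in A, s t ∂μ ≤ H * μ.real A := h1
    _ ≤ H * (n * (10 * c + (1 - l ^ finrank ℝ V))) := mul_le_mul_of_nonneg_left h2 hH
    _ = H * n * (10 * c + (1 - l ^ finrank ℝ V)) := by ring
    _ ≤ κ / 20 := hHn

omit [MeasurableSpace V] [BorelSpace V] in
/-- the cell of `x` is in the region of `p` -/
theorem type_region {K D : Set V} (hK : Bd K) (hD : SB D) {x p m δ : V} (hx : x ∈ K) (hp : p ∈ K)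
    (h1 : (2 : ℝ) • x - p ∈ K + D) (h2 : (2 : ℝ) • p - x ∈ K + D) (hm : m ∈ D) (hδ : δ ∈ D) :
    x + m + δ ∈ type_R K D p := by
  have hL := type_bd hK hD
  have hKL : ∀ y ∈ K, y ∈ K + D := fun y hy => ⟨y, hy, 0, hD.zero_mem, add_zero y⟩
  have hDM : ∀ y ∈ D, y ∈ Mac (K + D) p := by
    intro y hy
    refine ⟨⟨p, hp, y, hy, rfl⟩, ⟨p, hp, -y, hD.symm y hy, ?_⟩⟩
    exact (sub_eq_add_neg p y).symm
  have hxM : x - p ∈ Mac (K + D) p := by
    refine ⟨?_, ?_⟩
    · rw [add_sub_cancel]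
      exact hKL x hx
    · have e : p - (x - p) = (2 : ℝ) • p - x := by module
      rw [e]
      exact h2
  refine ⟨?_, ?_⟩
  · change (-(1 / 3 : ℝ)) • p + (1 / 3 : ℝ) • (x + m + δ) ∈ Mac (K + D) p
    have e : (-(1 / 3 : ℝ)) • p + (1 / 3 : ℝ) • (x + m + δ) =
        (1 / 3 : ℝ) • (x - p) + (1 / 3 : ℝ) • m + (1 / 3 : ℝ) • δ := by module
    rw [e]
    exact type_three (mac_conv hL.conv p) hxM (hDM m hm) (hDM δ hδ) (by norm_num) (by norm_num)
      (by norm_num) (by norm_num)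
  · obtain ⟨κ₁, hκ₁, δ₁, hδ₁, he⟩ := h1
    have he' : κ₁ + δ₁ = (2 : ℝ) • x - p := he
    refine ⟨κ₁, hκ₁, (1 / 5 : ℝ) • δ₁ + (2 / 5 : ℝ) • m + (2 / 5 : ℝ) • δ, ?_, ?_⟩
    · exact type_three hD.conv hδ₁ hm hδ (by norm_num) (by norm_num) (by norm_num) (by norm_num)
    · have hx' : x = (1 / 2 : ℝ) • (κ₁ + δ₁) + (1 / 2 : ℝ) • p := by rw [he']; module
      rw [hx']
      module

end aux

theorem pf_type (h3 : S_D) (h11 : S_net) (h12 : S_bad) (h13 : S_greedy) (h14 : S_cell) :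
    S_type := by
  intro V _ _ _ _ _ μ _ K hK hK1 hd c hc hc1 VL VU Λ hVL hΛ hlow hup k n l H M κ hl0 hl1 hH hM hκ
    s hsm hs hsi hsM hHn X P hX N hN
  obtain ⟨hD, -, -, -, -⟩ := h3 V μ K hK hK1 hd c hc hc1
  set D : Set V := Dc μ K c with hDdef
  have hL : Bd (K + D) := type_bd hK hD
  have hXK : ∀ x ∈ X, x ∈ K := by
    intro x hx
    obtain ⟨y, hy, hyx⟩ := (hX x hx).1
    have h0 : (0 : ℝ) ≤ 1 - (1 / 2) ^ k := by
      have : (1 / 2 : ℝ) ^ k ≤ 1 := pow_le_one₀ (by norm_num) (by norm_num)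
      linarith
    have h1 : (1 : ℝ) - (1 / 2) ^ k ≤ 1 := by
      have : (0 : ℝ) ≤ (1 / 2) ^ k := by positivity
      linarith
    have hyx' : (1 - (1 / 2 : ℝ) ^ k) • y = x := hyx
    rw [← hyx']
    exact hK.conv.smul_mem_of_zero_mem hK.zero hy ⟨h0, h1⟩
  obtain ⟨F, hFX, hFcard, hF⟩ := h11 V μ K (K + D) D hK hL hD
    (fun a ha δ hδ => Set.add_mem_add ha hδ) VL VU Λ hVL hΛ hlow hup k X
    (fun x hx => ⟨(hX x hx).1, (hX x hx).2.1⟩)
  rcases F.eq_empty_or_nonempty with hFe | hFne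
  · refine ⟨∅, Nat.zero_le _, fun x hx => ?_⟩
    obtain ⟨p, hp, -⟩ := hF x hx
    rw [hFe] at hp
    exact absurd hp (Finset.notMem_empty p)
  have hKm : IsClosed K := hK.comp.isClosed
  -- the greedy choice
  have hSm : MeasurableSet {q : V × V | q.2 ∈ St K l q.1} := by
    have h1 : IsClosed (((3 + l) / 4) • K) := (hK.comp.smul _).isClosed
    have h2 : IsClosed ((fun q : V × V => q.2 - (1 / 4 : ℝ) • q.1) ⁻¹' (((3 + l) / 4) • K)) :=
      h1.preimage (by fun_prop)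
    exact h2.measurableSet
  obtain ⟨W, hW⟩ := h13 V μ s hsm (fun t => (hs t).1) hsi M κ hsM hκ hM F (fun p => Qs K (P p))
    (fun w => St K l w) (fun p => type_R K D p)
    (fun p hp => ⟨type_Q_meas hKm _, (hX p (hFX hp)).2.2.2.2⟩)
    (fun p _ => ⟨(type_R_comp hK.comp hD.comp p).isClosed.measurableSet,
      (type_R_comp hK.comp hD.comp p).measure_lt_top.ne⟩) hSm
    (fun p hp z hz => type_bad h12 μ hK hK1 hc hc1 hl0 hl1 hH hs hHn (hX p (hFX hp)).2.2.1
      (hX p (hFX hp)).2.2.2.1 hz) N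
  classical
  refine ⟨Finset.univ.image W, ?_, ?_⟩
  · refine Finset.card_image_le.trans ?_
    rw [Finset.card_univ, Fintype.card_fin]
  intro x hx m hm
  by_contra hcon
  push Not at hcon
  have hcov : ∀ j, x + m ∉ St K l (W j) := fun j =>
    hcon (W j) (Finset.mem_image_of_mem W (Finset.mem_univ j))
  obtain ⟨p, hpF, hp1, hp2⟩ := hF x hx
  have hSc : ∀ w, Convex ℝ (St K l w) := by
    intro w a ha b hb u v hu hv huv
    have h1 := (hK.conv.smul ((3 + l) / 4)) ha hb hu hv huv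
    change u • a + v • b - (1 / 4 : ℝ) • w ∈ ((3 + l) / 4) • K
    have e : u • a + v • b - (1 / 4 : ℝ) • w =
        u • (a - (1 / 4 : ℝ) • w) + v • (b - (1 / 4 : ℝ) • w) := by
      rw [smul_sub, smul_sub]
      have : (1 / 4 : ℝ) • w = u • (1 / 4 : ℝ) • w + v • (1 / 4 : ℝ) • w := by
        rw [← add_smul, huv, one_smul]
      nth_rewrite 1 [this]
      abel
    rw [e]
    exact h1
  have hSmw : ∀ w, MeasurableSet (St K l w) := by
    intro w
    have h1 : IsClosed (((3 + l) / 4) • K) := (hK.comp.smul _).isClosed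
    exact (h1.preimage (f := fun z : V => z - (1 / 4 : ℝ) • w) (by fun_prop)).measurableSet
  have hcell := h14 V μ D (Qs K (P p)) (type_R K D p) (fun w => St K l w) N W (x + m) hD.comp
    hD.symm (type_Q_meas hKm _) hSmw hSc
    (type_R_comp hK.comp hD.comp p).isClosed.measurableSet
    (type_R_comp hK.comp hD.comp p).measure_lt_top.ne
    (fun δ hδ => type_region hK hD (hXK x hx) (hXK p (hFX hpF)) hp1 hp2 hm hδ) hcov
  -- the total is too small
  have hμD : 0 < μ.real D := by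
    have h1 : 0 < μ D := (isOpen_interior.measure_pos μ hD.int).trans_le
      (measure_mono interior_subset)
    exact ENNReal.toReal_pos h1.ne' hD.comp.measure_lt_top.ne
  have hκM : κ ≤ M := by
    obtain ⟨q, hq⟩ := hFne
    refine ((hX q (hFX hq)).2.2.2.2).trans (le_trans ?_ hsM)
    exact setIntegral_le_integral hsi (Filter.Eventually.of_forall fun t => (hs t).1)
  have hfac : 0 ≤ 1 - κ / (2 * M) := by
    have : κ / (2 * M) ≤ 1 := by
      rw [div_le_one (by positivity)]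
      linarith
    linarith
  have hsum : ∑ q ∈ F, μ.real (type_R K D q) ≤
      (1 + (k + 1) * (4 * (2 * 2 ^ k + 1) ^ 2 * 16384 ^ finrank ℝ V * (VU / VL) ^ 2 * Λ)) *
        (3 ^ finrank ℝ V * Λ) * μ.real D := by
    calc ∑ q ∈ F, μ.real (type_R K D q) ≤ ∑ _q ∈ F, (3 ^ finrank ℝ V * Λ) * μ.real D := by
          refine Finset.sum_le_sum fun q hq => ?_
          refine (type_R_vol μ hK.comp hD.comp q).trans ?_
          rw [mul_assoc]
          exact mul_le_mul_of_nonneg_left (hX q (hFX hq)).2.1 (by positivity)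
      _ = F.card * ((3 ^ finrank ℝ V * Λ) * μ.real D) := by rw [Finset.sum_const, nsmul_eq_mul]
      _ ≤ (1 + (k + 1) * (4 * (2 * 2 ^ k + 1) ^ 2 * 16384 ^ finrank ℝ V * (VU / VL) ^ 2 * Λ)) *
          ((3 ^ finrank ℝ V * Λ) * μ.real D) :=
          mul_le_mul_of_nonneg_right hFcard (by positivity)
      _ = _ := by ring
  have hlt : ∑ q ∈ F, ∫ z in type_R K D q, Real.exp (score (Qs K (P q)) (fun w => St K l w) W z) ∂μ
      < μ.real D := by
    refine lt_of_le_of_lt hW ?_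
    calc (1 - κ / (2 * M)) ^ N * ∑ q ∈ F, μ.real (type_R K D q)
        ≤ (1 - κ / (2 * M)) ^ N * ((1 + (k + 1) * (4 * (2 * 2 ^ k + 1) ^ 2 * 16384 ^ finrank ℝ V *
          (VU / VL) ^ 2 * Λ)) * (3 ^ finrank ℝ V * Λ) * μ.real D) :=
          mul_le_mul_of_nonneg_left hsum (pow_nonneg hfac N)
      _ = ((1 + (k + 1) * (4 * (2 * 2 ^ k + 1) ^ 2 * 16384 ^ finrank ℝ V *
          (VU / VL) ^ 2 * Λ)) * (3 ^ finrank ℝ V * Λ) * (1 - κ / (2 * M)) ^ N) * μ.real D := by ring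
      _ < 1 * μ.real D := mul_lt_mul_of_pos_right hN hμD
      _ = μ.real D := one_mul _
  have hsingle := Finset.single_le_sum (f := fun q => ∫ z in type_R K D q,
    Real.exp (score (Qs K (P q)) (fun w => St K l w) W z) ∂μ)
    (fun q _ => integral_nonneg fun z => (Real.exp_pos _).le) hpF
  exact absurd (hcell.trans hsingle) (not_le.mpr hlt)

end Pool.Agent.H777.LB
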