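import Pool.Agent.H777.LB.Cov1
import Pool.Agent.H777.LB.Cov2
import Pool.Agent.H777.LB.DBody
import Pool.Agent.H777.LB.Rich
import Pool.Agent.H777.LB.Energy
import Pool.Agent.H777.LB.Min
import Pool.Agent.H777.LB.Dens
import Pool.Agent.H777.LB.Game
import Pool.Agent.H777.LB.Mass
import Pool.Agent.H777.LB.Count
import Pool.Agent.H777.LB.Net
import Pool.Agent.H777.LB.Bad
import Pool.Agent.H777.LB.Cell
import Pool.Agent.H777.LB.Top
import Pool.Agent.H777.LB.Num
import Pool.Agent.H777.LB.Level
import Pool.Agent.H777.LB.Greedy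
import Pool.Agent.H777.LB.Type
import Pool.Agent.H777.LB.Main
import Pool.Agent.H777.LB.Cover

set_option autoImplicit false

/-!
# The linear factor for all convex bodies
-/

namespace Pool.Agent.H777.LB

/-- Every convex body in `ℝ^d` is covered by at most `18000 d 2^d` translates of its interior. -/
theorem linear (d : ℕ) (hd : 1 ≤ d) (K : Set (EuclideanSpace ℝ (Fin d))) (hK : Convex ℝ K)
    (hKc : IsCompact K) (hKi : (interior K).Nonempty) :
    ∃ T : Finset (EuclideanSpace ℝ (Fin d)),
      K ⊆ ⋃ t ∈ T, (fun x => t + x) '' interior K ∧ (T.card : ℝ) ≤ 18000 * d * 2 ^ d := by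
  have h3 : S_D := pf_D pf_cov1 pf_cov2
  have h4 : S_rich := pf_rich pf_cov1 h3
  have h5 : S_energy := pf_energy pf_cov1 h3
  have h12 : S_bad := pf_bad pf_cov1 h3
  have h11 : S_net := pf_net pf_count
  have h15 : S_type := pf_type h3 h11 h12 pf_greedy pf_cell
  have h16 : S_top := pf_top h3
  have h20 : S_level := pf_level h3 h4 h16
  have h18 : S_cover := cv_cover pf_cov1 h3 h5 pf_min pf_dens pf_game pf_mass h15 pf_num h20
  exact pf_main h18 d hd K hK hKc hKi

end Pool.Agent.H777.LB
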