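import Pool.Agent.H777.LB.Defs

/-! Proof of `S_greedy` (greedy choice of the translates). -/

set_option autoImplicit false
set_option linter.unusedVariables false
set_option linter.unusedSectionVars false

namespace Pool.Agent.H777.LB

open scoped RealInnerProductSpace Pointwise
open Module MeasureTheory


/-- one step of the greedy choice -/
theorem gr_step {V : Type} [MeasurableSpace V] (μ : Measure V) [SFinite μ] (s : V → ℝ)
    (hs : Measurable s) (hs0 : ∀ t, 0 ≤ s t) (hsi : Integrable s μ) (M κ : ℝ)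
    (hM : ∫ t, s t ∂μ ≤ M) (hκ : 0 < κ) (hM0 : 0 < M)
    (F : Finset V) (hF : F.Nonempty) (Q S R : V → Set V)
    (hQ : ∀ p ∈ F, MeasurableSet (Q p) ∧ κ ≤ ∫ t in Q p, s t ∂μ)
    (hR : ∀ p ∈ F, MeasurableSet (R p) ∧ μ (R p) ≠ ⊤)
    (hS : MeasurableSet {q : V × V | q.2 ∈ S q.1})
    (hb : ∀ p ∈ F, ∀ z ∈ R p, ∫ t in {w | w ∈ Q p ∧ z ∉ S w}, s t ∂μ ≤ κ / 20)
    (φ : V → V → ℝ) (hφm : ∀ p ∈ F, Measurable (φ p)) (hφ0 : ∀ p z, 0 ≤ φ p z) (C : ℝ)
    (hφC : ∀ p z, φ p z ≤ C) :
    ∃ w, ∑ p ∈ F, ∫ z in R p, φ p z * (1 - (1 - Real.exp (-1)) * (Q p).indicator 1 w +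
      (Real.exp 1 - Real.exp (-1)) * {w | w ∈ Q p ∧ z ∉ S w}.indicator 1 w) ∂μ ≤
      (1 - κ / (2 * M)) * ∑ p ∈ F, ∫ z in R p, φ p z ∂μ := by
  -- numerics
  have he1 : Real.exp 1 < 2.7182818286 := Real.exp_one_lt_d9
  have he2 : 2.7182818283 < Real.exp 1 := Real.exp_one_gt_d9
  have he3 : Real.exp (-1) * Real.exp 1 = 1 := by
    rw [← Real.exp_add]; norm_num
  have he4 : 0 < Real.exp (-1) := Real.exp_pos _
  have he5 : Real.exp (-1) < 0.37 := by nlinarith
  -- measurability of the bad set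
  have hbad : ∀ p ∈ F, MeasurableSet {q : V × V | q.1 ∈ Q p ∧ q.2 ∉ S q.1} := by
    intro p hp
    exact (measurable_fst (hQ p hp).1).inter hS.compl
  have hφi : ∀ p ∈ F, Integrable (φ p) (μ.restrict (R p)) := by
    intro p hp
    have : IsFiniteMeasure (μ.restrict (R p)) := ⟨by
      rw [Measure.restrict_apply_univ]; exact (hR p hp).2.lt_top⟩
    refine Integrable.of_bound (hφm p hp).aestronglyMeasurable C (Filter.Eventually.of_forall ?_)
    intro z
    rw [Real.norm_eq_abs, abs_of_nonneg (hφ0 p z)]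
    exact hφC p z
  have hindm : ∀ p ∈ F, Measurable fun q : V × V =>
      ({w | w ∈ Q p ∧ q.2 ∉ S w}.indicator 1 q.1 : ℝ) := by
    intro p hp
    have h1 : (fun q : V × V => ({w | w ∈ Q p ∧ q.2 ∉ S w}.indicator 1 q.1 : ℝ)) =
        {q : V × V | q.1 ∈ Q p ∧ q.2 ∉ S q.1}.indicator 1 := by
      funext q
      by_cases h : q.1 ∈ Q p ∧ q.2 ∉ S q.1
      · rw [Set.indicator_of_mem (by exact h), Set.indicator_of_mem (by exact h)]
        rfl
      · rw [Set.indicator_of_notMem (by exact h), Set.indicator_of_notMem (by exact h)]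
    rw [h1]
    exact measurable_one.indicator (hbad p hp)
  have hind01 : ∀ (A : Set V) (w : V), 0 ≤ (A.indicator 1 w : ℝ) ∧ (A.indicator 1 w : ℝ) ≤ 1 := by
    intro A w
    by_cases h : w ∈ A
    · rw [Set.indicator_of_mem h]; simp
    · rw [Set.indicator_of_notMem h]; simp
  -- the function on the product
  have hprod : ∀ p ∈ F, Integrable (fun q : V × V => s q.1 *
      (φ p q.2 * {w | w ∈ Q p ∧ q.2 ∉ S w}.indicator 1 q.1)) (μ.prod (μ.restrict (R p))) := by
    intro p hp
    have h1 : Integrable (fun q : V × V => s q.1 * φ p q.2) (μ.prod (μ.restrict (R p))) :=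
      hsi.mul_prod (hφi p hp)
    refine h1.mono' ?_ (Filter.Eventually.of_forall ?_)
    · exact ((hs.comp measurable_fst).mul (((hφm p hp).comp measurable_snd).mul
        (hindm p hp))).aestronglyMeasurable
    · intro q
      have h2 := hind01 {w | w ∈ Q p ∧ q.2 ∉ S w} q.1
      have h3 := hs0 q.1
      have h4 := hφ0 p q.2
      rw [Real.norm_eq_abs, abs_of_nonneg (mul_nonneg h3 (mul_nonneg h4 h2.1))]
      have h5 : φ p q.2 * ({w | w ∈ Q p ∧ q.2 ∉ S w}.indicator 1 q.1 : ℝ) ≤ φ p q.2 * 1 :=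
        mul_le_mul_of_nonneg_left h2.2 h4
      calc s q.1 * (φ p q.2 * ({w | w ∈ Q p ∧ q.2 ∉ S w}.indicator 1 q.1 : ℝ)) ≤
          s q.1 * (φ p q.2 * 1) := mul_le_mul_of_nonneg_left h5 h3
        _ = s q.1 * φ p q.2 := by rw [mul_one]
  -- notation
  obtain ⟨Φ, hΦ⟩ : ∃ Φ : V → ℝ, ∀ p, Φ p = ∫ z in R p, φ p z ∂μ := ⟨_, fun _ => rfl⟩
  obtain ⟨B, hB⟩ : ∃ B : V → V → ℝ, ∀ p w, B p w =
    ∫ z in R p, φ p z * {w | w ∈ Q p ∧ z ∉ S w}.indicator 1 w ∂μ := ⟨_, fun _ _ => rfl⟩
  obtain ⟨m, hm⟩ : ∃ m, m = ∫ t, s t ∂μ := ⟨_, rfl⟩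
  have hΦ0 : ∀ p, 0 ≤ Φ p := by
    intro p
    rw [hΦ]
    exact integral_nonneg fun z => hφ0 p z
  have hQm : ∀ p ∈ F, ∫ t in Q p, s t ∂μ ≤ m := by
    intro p hp
    rw [hm]
    exact setIntegral_le_integral hsi (Filter.Eventually.of_forall hs0)
  have hκm : κ ≤ m := by
    obtain ⟨p, hp⟩ := hF
    exact (hQ p hp).2.trans (hQm p hp)
  -- the inner integral
  have hinner : ∀ p ∈ F, ∀ w, ∫ z in R p, φ p z * (1 - (1 - Real.exp (-1)) * (Q p).indicator 1 w +
      (Real.exp 1 - Real.exp (-1)) * {w | w ∈ Q p ∧ z ∉ S w}.indicator 1 w) ∂μ =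
      (1 - (1 - Real.exp (-1)) * (Q p).indicator 1 w) * Φ p +
        (Real.exp 1 - Real.exp (-1)) * B p w := by
    intro p hp w
    have h1 : Integrable (fun z => φ p z * ({w | w ∈ Q p ∧ z ∉ S w}.indicator 1 w : ℝ))
        (μ.restrict (R p)) := by
      refine (hφi p hp).mono' ?_ (Filter.Eventually.of_forall ?_)
      · exact ((hφm p hp).mul ((hindm p hp).comp measurable_prodMk_left)).aestronglyMeasurable
      · intro z
        have h2 := hind01 {w | w ∈ Q p ∧ z ∉ S w} w
        have h4 := hφ0 p z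
        rw [Real.norm_eq_abs, abs_of_nonneg (mul_nonneg h4 h2.1)]
        exact mul_le_of_le_one_right h4 h2.2
    rw [hΦ, hB, ← integral_const_mul, ← integral_const_mul, ← integral_add
      ((hφi p hp).const_mul _) (h1.const_mul _)]
    refine integral_congr_ae (Filter.Eventually.of_forall fun z => ?_)
    simp only
    ring
  -- the integral of `B`
  have hBi : ∀ p ∈ F, Integrable (fun w => s w * B p w) μ ∧
      ∫ w, s w * B p w ∂μ ≤ κ / 20 * Φ p := by
    intro p hp
    have h1 : ∀ w, s w * B p w = ∫ z in R p, s w *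
        (φ p z * {w | w ∈ Q p ∧ z ∉ S w}.indicator 1 w) ∂μ := by
      intro w
      rw [hB, integral_const_mul]
    simp only [h1]
    refine ⟨(hprod p hp).integral_prod_left, ?_⟩
    rw [integral_integral_swap (hprod p hp), hΦ, ← integral_const_mul]
    refine setIntegral_mono_on ?_ ((hφi p hp).const_mul _) (hR p hp).1 fun z hz => ?_
    · exact (hprod p hp).integral_prod_right
    · have hmz : MeasurableSet {w | w ∈ Q p ∧ z ∉ S w} := measurable_prodMk_right (hbad p hp)
      have h2 : ∫ w, s w * (φ p z * ({w | w ∈ Q p ∧ z ∉ S w}.indicator 1 w : ℝ)) ∂μ =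
          φ p z * ∫ t in {w | w ∈ Q p ∧ z ∉ S w}, s t ∂μ := by
        rw [← integral_indicator hmz, ← integral_const_mul]
        refine integral_congr_ae (Filter.Eventually.of_forall fun w => ?_)
        simp only
        by_cases h : w ∈ {w | w ∈ Q p ∧ z ∉ S w}
        · rw [Set.indicator_of_mem h, Set.indicator_of_mem h]
          simp only [Pi.one_apply]
          ring
        · rw [Set.indicator_of_notMem h, Set.indicator_of_notMem h]
          ring
      rw [h2, mul_comm (κ / 20)]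
      exact mul_le_mul_of_nonneg_left (hb p hp z hz) (hφ0 p z)
  have hQi : ∀ p ∈ F, Integrable (fun w => s w * ((Q p).indicator 1 w : ℝ)) μ ∧
      ∫ w, s w * ((Q p).indicator 1 w : ℝ) ∂μ = ∫ t in Q p, s t ∂μ := by
    intro p hp
    have h1 : (fun w => s w * ((Q p).indicator 1 w : ℝ)) = (Q p).indicator s := by
      funext w
      by_cases h : w ∈ Q p
      · rw [Set.indicator_of_mem h, Set.indicator_of_mem h]; simp
      · rw [Set.indicator_of_notMem h, Set.indicator_of_notMem h]; simp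
    rw [h1]
    exact ⟨hsi.indicator (hQ p hp).1, integral_indicator (hQ p hp).1⟩
  -- suppose there is no `w`
  by_contra hcon
  push Not at hcon
  obtain ⟨G, hG⟩ : ∃ G : V → ℝ, ∀ w, G w = ∑ p ∈ F,
    ((1 - (1 - Real.exp (-1)) * (Q p).indicator 1 w) * Φ p +
        (Real.exp 1 - Real.exp (-1)) * B p w) := ⟨_, fun _ => rfl⟩
  obtain ⟨c, hc⟩ : ∃ c, c = (1 - κ / (2 * M)) * ∑ p ∈ F, Φ p := ⟨_, rfl⟩
  have hGc : ∀ w, c < G w := by
    intro w
    rw [hG, hc, Finset.sum_congr rfl fun p hp => (hinner p hp w).symm]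
    simp only [hΦ]
    exact hcon w
  have hsG : ∀ w, s w * (G w - c) = (∑ p ∈ F, (Φ p * s w -
      (1 - Real.exp (-1)) * Φ p * (s w * (Q p).indicator 1 w) +
      (Real.exp 1 - Real.exp (-1)) * (s w * B p w))) - c * s w := by
    intro w
    rw [hG, mul_sub, Finset.mul_sum]
    congr 1
    · refine Finset.sum_congr rfl fun p hp => ?_
      ring
    · ring
  have hterm : ∀ p ∈ F, Integrable (fun w => Φ p * s w -
      (1 - Real.exp (-1)) * Φ p * (s w * (Q p).indicator 1 w) +
      (Real.exp 1 - Real.exp (-1)) * (s w * B p w)) μ := by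
    intro p hp
    exact ((hsi.const_mul _).sub ((hQi p hp).1.const_mul _)).add ((hBi p hp).1.const_mul _)
  have hint : Integrable (fun w => s w * (G w - c)) μ := by
    simp only [hsG]
    exact (integrable_finsetSum F hterm).sub (hsi.const_mul _)
  have hval : ∫ w, s w * (G w - c) ∂μ ≤ 0 := by
    simp only [hsG]
    rw [integral_sub (integrable_finsetSum F hterm) (hsi.const_mul _),
      integral_finsetSum F hterm, integral_const_mul, ← hm]
    have h1 : ∀ p ∈ F, ∫ w, (Φ p * s w -
        (1 - Real.exp (-1)) * Φ p * (s w * (Q p).indicator 1 w) +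
        (Real.exp 1 - Real.exp (-1)) * (s w * B p w)) ∂μ ≤ Φ p * (m - κ / 2) := by
      intro p hp
      have i1 : Integrable (fun w => Φ p * s w) μ := hsi.const_mul _
      have i2 : Integrable (fun w => (1 - Real.exp (-1)) * Φ p * (s w * (Q p).indicator 1 w)) μ :=
        (hQi p hp).1.const_mul _
      have i3 : Integrable (fun w => (Real.exp 1 - Real.exp (-1)) * (s w * B p w)) μ :=
        (hBi p hp).1.const_mul _
      have i4 : Integrable (fun w => Φ p * s w -
        (1 - Real.exp (-1)) * Φ p * (s w * (Q p).indicator 1 w)) μ := i1.sub i2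
      rw [integral_add i4 i3, integral_sub i1 i2, integral_const_mul,
        integral_const_mul, integral_const_mul, (hQi p hp).2, ← hm]
      have h2 := (hBi p hp).2
      have h3 := (hQ p hp).2
      have h4 := hΦ0 p
      have h5 : (Real.exp 1 - Real.exp (-1)) * ∫ w, s w * B p w ∂μ ≤
          (Real.exp 1 - Real.exp (-1)) * (κ / 20 * Φ p) :=
        mul_le_mul_of_nonneg_left h2 (by linarith)
      have h6 : (1 - Real.exp (-1)) * Φ p * κ ≤ (1 - Real.exp (-1)) * Φ p * ∫ t in Q p, s t ∂μ :=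
        mul_le_mul_of_nonneg_left h3 (mul_nonneg (by linarith) h4)
      have h7 : 0 ≤ (Φ p * κ) * ((1 - Real.exp (-1)) - (Real.exp 1 - Real.exp (-1)) / 20 - 1 / 2) :=
        mul_nonneg (mul_nonneg h4 hκ.le) (by linarith)
      nlinarith
    have h2 := Finset.sum_le_sum h1
    rw [← Finset.sum_mul] at h2
    have h3 : 0 ≤ ∑ p ∈ F, Φ p := Finset.sum_nonneg fun p _ => hΦ0 p
    have h4 : m * (κ / (2 * M)) ≤ κ / 2 := by
      have : m * (κ / (2 * M)) = (m / M) * (κ / 2) := by field_simp
      rw [this]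
      have h5 : m / M ≤ 1 := by
        rw [div_le_one hM0, hm]
        exact hM
      nlinarith
    rw [hc]
    nlinarith
  have hpos : 0 < ∫ w, s w * (G w - c) ∂μ := by
    rw [integral_pos_iff_support_of_nonneg (fun w => mul_nonneg (hs0 w) (sub_pos.2 (hGc w)).le) hint]
    have h1 : Function.support (fun w => s w * (G w - c)) = Function.support s := by
      ext w
      simp only [Function.mem_support, ne_eq, mul_eq_zero, not_or]
      exact ⟨fun h => h.1, fun h => ⟨h, (sub_pos.2 (hGc w)).ne'⟩⟩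
    rw [h1]
    have h2 : 0 < ∫ t, s t ∂μ := by
      rw [← hm]; linarith
    exact (integral_pos_iff_support_of_nonneg hs0 hsi).1 h2
  exact absurd hval (not_le.2 hpos)

section sc

variable {V : Type} [NormedAddCommGroup V] [InnerProductSpace ℝ V] [FiniteDimensional ℝ V]
  [MeasurableSpace V] [BorelSpace V]

theorem gr_snoc {N : ℕ} (Q : Set V) (S : V → Set V) (W : Fin N → V) (w z : V) :
    Real.exp (score Q S (Fin.snoc (α := fun _ => V) W w) z) = Real.exp (score Q S W z) *
      (1 - (1 - Real.exp (-1)) * Q.indicator 1 w +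
      (Real.exp 1 - Real.exp (-1)) * {w | w ∈ Q ∧ z ∉ S w}.indicator 1 w) := by
  classical
  unfold score
  rw [Fin.sum_univ_castSucc, Real.exp_add]
  simp only [Fin.snoc_castSucc, Fin.snoc_last]
  congr 1
  by_cases hw : w ∈ Q <;> by_cases hz : z ∈ S w
  · simp [hw, hz, Set.indicator]
  · simp only [hw, hz, not_false_eq_true, and_self, if_true, Set.indicator, Set.mem_setOf_eq,
      Pi.one_apply]
    norm_num
  · simp [hw, hz, Set.indicator]
  · simp [hw, hz, Set.indicator]

theorem gr_meas {N : ℕ} (Q : Set V) (S : V → Set V) (hS : MeasurableSet {q : V × V | q.2 ∈ S q.1})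
    (W : Fin N → V) : Measurable fun z => score Q S W z := by
  unfold score
  refine Finset.measurable_sum _ fun j _ => ?_
  refine Measurable.sub ?_ measurable_const
  refine Measurable.const_mul ?_ _
  refine Measurable.ite ?_ measurable_const measurable_const
  have h1 : MeasurableSet {z | z ∈ S (W j)} := measurable_prodMk_left (x := W j) hS
  by_cases hw : W j ∈ Q
  · simp only [hw, true_and]
    exact h1.compl
  · simp only [hw, false_and]
    exact MeasurableSet.empty

theorem gr_bound {N : ℕ} (Q : Set V) (S : V → Set V) (W : Fin N → V) (z : V) :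
    score Q S W z ≤ N := by
  classical
  unfold score
  calc _ ≤ ∑ j : Fin N, (1 : ℝ) := by
        refine Finset.sum_le_sum fun j _ => ?_
        by_cases hw : W j ∈ Q <;> by_cases hz : z ∈ S (W j) <;> simp [hw, hz] <;> norm_num
    _ = N := by simp

end sc

theorem pf_greedy : S_greedy := by
  intro V _ _ _ _ _ μ _ s hs hs0 hsi M κ hM hκ hM0 F Q S R hQ hR hS hb N
  rcases F.eq_empty_or_nonempty with hF | hF
  · subst hF
    exact ⟨fun _ => 0, by simp⟩
  have hκM : κ / (2 * M) ≤ 1 := by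
    obtain ⟨p, hp⟩ := hF
    have h1 : κ ≤ M := by
      refine (hQ p hp).2.trans ((setIntegral_le_integral hsi
        (Filter.Eventually.of_forall hs0)).trans hM)
    rw [div_le_one (by positivity)]
    linarith
  induction N with
  | zero =>
    refine ⟨fun _ => 0, ?_⟩
    rw [pow_zero, one_mul]
    refine Finset.sum_le_sum fun p hp => ?_
    simp [score]
  | succ N ih =>
    obtain ⟨W, hW⟩ := ih
    obtain ⟨w, hw⟩ := gr_step μ s hs hs0 hsi M κ hM hκ hM0 F hF Q S R hQ hR hS hb
      (fun p z => Real.exp (score (Q p) S W z))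
      (fun p _ => Real.measurable_exp.comp (gr_meas (Q p) S hS W))
      (fun p z => (Real.exp_pos _).le) (Real.exp N)
      (fun p z => Real.exp_le_exp.2 (gr_bound (Q p) S W z))
    refine ⟨Fin.snoc (α := fun _ => V) W w, ?_⟩
    simp only [gr_snoc]
    refine hw.trans ?_
    rw [pow_succ, mul_comm ((1 - κ / (2 * M)) ^ N), mul_assoc]
    exact mul_le_mul_of_nonneg_left hW (by linarith)

end Pool.Agent.H777.LB
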